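import Mathlib

/-! Linear algebra: volume factors of linear maps which are close to each other. -/

set_option autoImplicit false

open Module

namespace Pool.Agent.V7H6.AD

section

variable {U V : Type*} [NormedAddCommGroup U] [InnerProductSpace ℝ U] [FiniteDimensional ℝ U]
  [NormedAddCommGroup V] [InnerProductSpace ℝ V] [FiniteDimensional ℝ V]

open scoped RealInnerProductSpace

/-- An orthonormal basis which is mapped to orthogonal vectors. -/
theorem exists_onb (f : U →ₗ[ℝ] V) :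
    ∃ e : OrthonormalBasis (Fin (finrank ℝ U)) ℝ U, f.normDet = ∏ i, ‖f (e i)‖ := by
  have hS : (f.adjoint ∘ₗ f).IsSymmetric := LinearMap.isSymmetric_adjoint_comp_self f
  obtain ⟨e, he⟩ : ∃ e, e = hS.eigenvectorBasis rfl := ⟨_, rfl⟩
  have hz : ∀ i j, i ≠ j → ⟪f (e i), f (e j)⟫ = 0 := by
    intro i j hij
    have h1 : ⟪f (e i), f (e j)⟫ = ⟪(f.adjoint ∘ₗ f) (e i), e j⟫ := by
      rw [LinearMap.comp_apply, LinearMap.adjoint_inner_left]
    have h2 : (f.adjoint ∘ₗ f) (e i) = hS.eigenvalues rfl i • e i := by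
      rw [he]
      exact hS.apply_eigenvectorBasis rfl i
    rw [h1, h2, real_inner_smul_left, e.orthonormal.2 hij, mul_zero]
  refine ⟨e, ?_⟩
  have h1 := f.normDet_sq_eq_det_gram e
  have h2 : Matrix.gram ℝ (fun i => f (e i)) = Matrix.diagonal fun i => ‖f (e i)‖ ^ 2 := by
    ext i j
    rw [Matrix.gram_apply]
    by_cases hij : i = j
    · rw [hij, Matrix.diagonal_apply_eq, real_inner_self_eq_norm_sq]
    · rw [hz i j hij, Matrix.diagonal_apply_ne _ hij]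
  rw [h2, Matrix.det_diagonal, Finset.prod_pow] at h1
  have h3 : f.normDet ^ 2 = (∏ i, ‖f (e i)‖) ^ 2 := by
    exact_mod_cast h1
  exact (pow_left_inj₀ f.normDet_nonneg (Finset.prod_nonneg fun i _ => norm_nonneg _)
    two_ne_zero).1 h3

theorem nd_le (f : U →ₗ[ℝ] V) (b : ℝ) (hb : ∀ v, ‖f v‖ ≤ b * ‖v‖) :
    f.normDet ≤ b ^ finrank ℝ U := by
  obtain ⟨e, he⟩ := exists_onb f
  rw [he]
  refine (Finset.prod_le_prod (fun i _ => norm_nonneg _) (g := fun _ => b) fun i _ => ?_).trans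
    (by rw [Finset.prod_const, Finset.card_univ, Fintype.card_fin])
  have h := hb (e i)
  rw [e.norm_eq_one i, mul_one] at h
  exact h

theorem le_nd (f : U →ₗ[ℝ] V) (a : ℝ) (ha : 0 ≤ a) (h0 : ∀ v, a * ‖v‖ ≤ ‖f v‖) :
    a ^ finrank ℝ U ≤ f.normDet := by
  obtain ⟨e, he⟩ := exists_onb f
  rw [he]
  refine le_trans (by rw [Finset.prod_const, Finset.card_univ, Fintype.card_fin])
    (Finset.prod_le_prod (f := fun _ => a) (fun i _ => ha) fun i _ => ?_)
  have h := h0 (e i)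
  rw [e.norm_eq_one i, mul_one] at h
  exact h

theorem nd_pos (f : U →ₗ[ℝ] V) (hf : Function.Injective f) : 0 < f.normDet := by
  refine lt_of_le_of_ne f.normDet_nonneg (Ne.symm ?_)
  rw [Ne, LinearMap.normDet_eq_zero_iff_ker_ne_bot, not_not]
  exact LinearMap.ker_eq_bot.2 hf

theorem nd_comp (f : U →ₗ[ℝ] V) (B : U →ₗ[ℝ] U) :
    (f ∘ₗ B).normDet = f.normDet * |B.det| := by
  rw [LinearMap.normDet_comp_of_finrank_eq _ _ rfl, LinearMap.normDet_eq_abs_det]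

/-- monotonicity -/
theorem nd_mono (f g : U →ₗ[ℝ] V) (hf : Function.Injective f) (b : ℝ)
    (hb : ∀ v, ‖g v‖ ≤ b * ‖f v‖) : g.normDet ≤ b ^ finrank ℝ U * f.normDet := by
  obtain ⟨L, hL⟩ := LinearMap.exists_leftInverse_of_injective f (LinearMap.ker_eq_bot.2 hf)
  have hL' : ∀ v, L (f v) = v := fun v => LinearMap.congr_fun hL v
  have h1 : g = (g ∘ₗ L) ∘ₗ f := by
    ext v
    simp [hL']
  have h2 : g.normDet = ((g ∘ₗ L).domRestrict f.range).normDet * f.normDet := by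
    conv_lhs => rw [h1]
    rw [LinearMap.normDet_comp]
  rw [h2]
  apply mul_le_mul_of_nonneg_right _ f.normDet_nonneg
  have h3 : finrank ℝ f.range = finrank ℝ U := LinearMap.finrank_range_of_inj hf
  rw [← h3]
  apply nd_le
  rintro ⟨w, v, rfl⟩
  show ‖g (L (f v))‖ ≤ b * ‖f v‖
  rw [hL']
  exact hb v

/-- comparison of quotients of volume factors -/
theorem nd_compare (P P' Q Q' : U →ₗ[ℝ] V) (hP : Function.Injective P) (hQ : Function.Injective Q)
    (hP' : Function.Injective P')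
    (L δ : ℝ) (hL : 0 ≤ L) (hδ0 : 0 ≤ δ) (hδ : δ ≤ 1 / 2)
    (h1 : ∀ v, ‖Q' v‖ ≤ L * ‖Q v‖) (h2 : ∀ v, ‖P v‖ ≤ L * ‖P' v‖)
    (h : ∀ v, ∃ w, ‖P v - Q w‖ ≤ δ * ‖P v‖ ∧ ‖P' v - Q' w‖ ≤ δ * ‖P v‖) :
    Q'.normDet / Q.normDet ≤
      ((1 + (1 + 2 * L) * L * δ) * (1 + 2 * δ)) ^ finrank ℝ U * (P'.normDet / P.normDet) := by
  have hQ0 := nd_pos Q hQ
  have hP0 := nd_pos P hP
  have hP'0 := nd_pos P' hP'
  let eQ := LinearEquiv.ofInjective Q hQ
  obtain ⟨R, hR⟩ : ∃ R : U →ₗ[ℝ] U, R = eQ.symm.toLinearMap ∘ₗ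
      (Q.range.orthogonalProjectionOnto.toLinearMap) ∘ₗ P := ⟨_, rfl⟩
  have hQR : ∀ v, Q (R v) = Q.range.starProjection (P v) := by
    intro v
    have e1 : (eQ (R v) : V) = Q (R v) := rfl
    rw [← e1, hR]
    simp only [LinearMap.comp_apply, LinearEquiv.coe_coe, LinearEquiv.apply_symm_apply]
    rfl
  have hmin : ∀ v w, ‖P v - Q (R v)‖ ≤ ‖P v - Q w‖ := by
    intro v w
    rw [hQR, Submodule.starProjection_minimal]
    exact ciInf_le ⟨0, by rintro _ ⟨x, rfl⟩; exact norm_nonneg _⟩ (⟨Q w, w, rfl⟩ : Q.range)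
  have k1 : ∀ v, ‖P v - Q (R v)‖ ≤ δ * ‖P v‖ := by
    intro v
    obtain ⟨w, hw, -⟩ := h v
    exact (hmin v w).trans hw
  have k2 : ∀ v, ‖P v‖ ≤ (1 + 2 * δ) * ‖Q (R v)‖ := by
    intro v
    have e1 := k1 v
    have e2 : ‖P v‖ ≤ ‖P v - Q (R v)‖ + ‖Q (R v)‖ := by
      have := norm_add_le (P v - Q (R v)) (Q (R v))
      rwa [sub_add_cancel] at this
    have e3 := norm_nonneg (P v)
    have e4 := norm_nonneg (Q (R v))
    have e5 : (1 - δ) * ‖P v‖ ≤ ‖Q (R v)‖ := by linarith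
    have e6 : (1 + 2 * δ) * ((1 - δ) * ‖P v‖) ≤ (1 + 2 * δ) * ‖Q (R v)‖ :=
      mul_le_mul_of_nonneg_left e5 (by linarith)
    have e7 : ‖P v‖ ≤ (1 + 2 * δ) * ((1 - δ) * ‖P v‖) := by
      have : (1 + 2 * δ) * (1 - δ) = 1 + δ * (1 - 2 * δ) := by ring
      rw [← mul_assoc, this]
      have : 0 ≤ δ * (1 - 2 * δ) := mul_nonneg hδ0 (by linarith)
      nlinarith
    linarith
  have k3 : ∀ v, ‖Q' (R v)‖ ≤ (1 + (1 + 2 * L) * L * δ) * ‖P' v‖ := by
    intro v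
    obtain ⟨w, hw1, hw2⟩ := h v
    have e1 : Q' (R v) = P' v - (P' v - Q' w) - Q' (w - R v) := by
      rw [map_sub]; abel
    have e2 : ‖Q' (w - R v)‖ ≤ L * (2 * (δ * ‖P v‖)) := by
      refine (h1 _).trans (mul_le_mul_of_nonneg_left ?_ hL)
      rw [map_sub]
      have : Q w - Q (R v) = (P v - Q (R v)) - (P v - Q w) := by abel
      rw [this]
      have := norm_sub_le (P v - Q (R v)) (P v - Q w)
      linarith [k1 v]
    have e3 : ‖Q' (R v)‖ ≤ ‖P' v‖ + δ * ‖P v‖ + L * (2 * (δ * ‖P v‖)) := by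
      rw [e1]
      have t1 := norm_sub_le (P' v - (P' v - Q' w)) (Q' (w - R v))
      have t2 := norm_sub_le (P' v) (P' v - Q' w)
      linarith
    have e4 := h2 v
    have e5 : (δ + L * (2 * δ)) * ‖P v‖ ≤ (δ + L * (2 * δ)) * (L * ‖P' v‖) :=
      mul_le_mul_of_nonneg_left e4 (by positivity)
    calc ‖Q' (R v)‖ ≤ ‖P' v‖ + δ * ‖P v‖ + L * (2 * (δ * ‖P v‖)) := e3
      _ = ‖P' v‖ + (δ + L * (2 * δ)) * ‖P v‖ := by ring
      _ ≤ ‖P' v‖ + (δ + L * (2 * δ)) * (L * ‖P' v‖) := by linarith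
      _ = _ := by ring
  have hQRinj : Function.Injective (Q ∘ₗ R) := by
    rw [← LinearMap.ker_eq_bot, LinearMap.ker_eq_bot']
    intro v hv
    have e1 := k2 v
    have e2 : Q (R v) = 0 := hv
    rw [e2, norm_zero, mul_zero] at e1
    have e3 : P v = 0 := norm_le_zero_iff.1 e1
    exact hP (by rw [e3, map_zero])
  have m1 := nd_mono (Q ∘ₗ R) P hQRinj (1 + 2 * δ) k2
  have m2 := nd_mono P' (Q' ∘ₗ R) hP' (1 + (1 + 2 * L) * L * δ) k3
  have hQR0 := nd_pos _ hQRinj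
  rw [nd_comp] at m1 m2 hQR0
  have hdet : 0 < |R.det| := by
    by_contra hcon
    have : |R.det| = 0 := le_antisymm (not_lt.1 hcon) (abs_nonneg _)
    rw [this, mul_zero] at hQR0
    exact lt_irrefl _ hQR0
  have hQ'0 := Q'.normDet_nonneg
  obtain ⟨D, hD⟩ : ∃ D, D = finrank ℝ U := ⟨_, rfl⟩
  rw [← hD] at m1 m2 ⊢
  have hb : 0 ≤ (1 + (1 + 2 * L) * L * δ) ^ D := by positivity
  have ha : 0 < (1 + 2 * δ) ^ D := by positivity
  rw [div_le_iff₀ hQ0]
  have e1 : Q'.normDet * |R.det| * P.normDet ≤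
      ((1 + (1 + 2 * L) * L * δ) ^ D * P'.normDet) * ((1 + 2 * δ) ^ D * (Q.normDet * |R.det|)) :=
    mul_le_mul m2 m1 hP0.le (by positivity)
  have e2 : Q'.normDet * P.normDet ≤
      ((1 + (1 + 2 * L) * L * δ) ^ D * P'.normDet) * ((1 + 2 * δ) ^ D * Q.normDet) := by
    by_contra hcon
    push Not at hcon
    have := mul_lt_mul_of_pos_right hcon hdet
    nlinarith
  rw [mul_pow]
  calc Q'.normDet = Q'.normDet * P.normDet / P.normDet := by field_simp
    _ ≤ ((1 + (1 + 2 * L) * L * δ) ^ D * P'.normDet) * ((1 + 2 * δ) ^ D * Q.normDet) / P.normDet := by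
        gcongr
    _ = _ := by ring

end

end Pool.Agent.V7H6.AD
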