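import Pool.Agent.V7H6.AD.A

/-! Volume factors of linear maps from a finite dimensional normed space to a Euclidean space. -/

set_option autoImplicit false

open Module

namespace Pool.Agent.V7H6.AD

variable {E₀ : Type*} [NormedAddCommGroup E₀] [NormedSpace ℝ E₀] [FiniteDimensional ℝ E₀]
  {F : Type*} [NormedAddCommGroup F] [InnerProductSpace ℝ F] [FiniteDimensional ℝ F]

/-- the coordinates -/
noncomputable def io (E₀ : Type*) [NormedAddCommGroup E₀] [NormedSpace ℝ E₀] [FiniteDimensional ℝ E₀] :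
    EuclideanSpace ℝ (Fin (finrank ℝ E₀)) ≃L[ℝ] E₀ := (toEuclidean (E := E₀)).symm

/-- the volume factor -/
noncomputable def vf (A : E₀ →ₗ[ℝ] F) : ℝ := (A ∘ₗ (io E₀).toLinearEquiv.toLinearMap).normDet

omit [FiniteDimensional ℝ F] in
theorem vf_pos (A : E₀ →ₗ[ℝ] F) (hA : Function.Injective A) : 0 < vf A := by
  unfold vf
  refine lt_of_le_of_ne (LinearMap.normDet_nonneg _) (Ne.symm ?_)
  rw [Ne, LinearMap.normDet_eq_zero_iff_ker_ne_bot, not_not]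
  exact LinearMap.ker_eq_bot.2 (hA.comp (io E₀).injective)

omit [FiniteDimensional ℝ F] in
theorem vf_comp (A : E₀ →ₗ[ℝ] F) (B : E₀ →ₗ[ℝ] E₀) : vf (A ∘ₗ B) = vf A * |B.det| := by
  unfold vf
  obtain ⟨e, he⟩ : ∃ e, e = (io E₀).toLinearEquiv := ⟨_, rfl⟩
  rw [← he]
  have h1 : (A ∘ₗ B) ∘ₗ e.toLinearMap = (A ∘ₗ e.toLinearMap) ∘ₗ
      (e.symm.toLinearMap ∘ₗ B ∘ₗ e.toLinearMap) := by
    ext v
    simp
  have h2 : (e.symm.toLinearMap ∘ₗ B ∘ₗ e.toLinearMap).det = B.det := by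
    have := LinearMap.det_conj B e.symm
    simpa [LinearMap.comp_assoc] using this
  rw [h1, LinearMap.normDet_comp_of_finrank_eq _ _ rfl, LinearMap.normDet_eq_abs_det, h2]

theorem exists_vf_le : ∃ k : ℝ, 0 ≤ k ∧ ∀ (A : E₀ →ₗ[ℝ] F) (b : ℝ), 0 ≤ b → (∀ v, ‖A v‖ ≤ b * ‖v‖) →
    vf A ≤ (b * k) ^ finrank ℝ E₀ := by
  refine ⟨‖((io E₀) : EuclideanSpace ℝ (Fin (finrank ℝ E₀)) →L[ℝ] E₀)‖, norm_nonneg _,
    fun A b hb h => ?_⟩
  have := nd_le (A ∘ₗ (io E₀).toLinearEquiv.toLinearMap)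
    (b * ‖((io E₀) : EuclideanSpace ℝ (Fin (finrank ℝ E₀)) →L[ℝ] E₀)‖) (by
      intro v
      refine (h _).trans ?_
      rw [mul_assoc]
      exact mul_le_mul_of_nonneg_left (((io E₀) : EuclideanSpace ℝ (Fin (finrank ℝ E₀)) →L[ℝ] E₀).le_opNorm v) hb)
  rw [finrank_euclideanSpace_fin] at this
  exact this

theorem exists_le_vf : ∃ k : ℝ, 0 < k ∧ ∀ (A : E₀ →ₗ[ℝ] F) (a : ℝ), 0 ≤ a → (∀ v, a * ‖v‖ ≤ ‖A v‖) →
    (a * k) ^ finrank ℝ E₀ ≤ vf A := by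
  obtain ⟨K, hK⟩ : ∃ K, K = ‖((io E₀).symm : E₀ →L[ℝ] EuclideanSpace ℝ (Fin (finrank ℝ E₀)))‖ + 1 := ⟨_, rfl⟩
  have hK0 : 0 < K := by rw [hK]; positivity
  refine ⟨1 / K, by positivity, fun A a ha h => ?_⟩
  have := le_nd (A ∘ₗ (io E₀).toLinearEquiv.toLinearMap) (a * (1 / K)) (by positivity) (by
      intro v
      refine le_trans ?_ (h _)
      rw [mul_assoc]
      apply mul_le_mul_of_nonneg_left _ ha
      rw [one_div, inv_mul_le_iff₀ hK0]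
      have h1 := ((io E₀).symm : E₀ →L[ℝ] EuclideanSpace ℝ (Fin (finrank ℝ E₀))).le_opNorm ((io E₀) v)
      have h2 : ((io E₀).symm : E₀ →L[ℝ] EuclideanSpace ℝ (Fin (finrank ℝ E₀))) ((io E₀) v) = v := by simp
      rw [h2] at h1
      refine h1.trans ?_
      apply mul_le_mul_of_nonneg_right _ (norm_nonneg _)
      rw [hK]; linarith)
  rw [finrank_euclideanSpace_fin] at this
  exact this

theorem vf_compare (P P' Q Q' : E₀ →ₗ[ℝ] F) (hP : Function.Injective P) (hQ : Function.Injective Q)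
    (hP' : Function.Injective P')
    (L δ : ℝ) (hL : 0 ≤ L) (hδ0 : 0 ≤ δ) (hδ : δ ≤ 1 / 2)
    (h1 : ∀ v, ‖Q' v‖ ≤ L * ‖Q v‖) (h2 : ∀ v, ‖P v‖ ≤ L * ‖P' v‖)
    (h : ∀ v, ∃ w, ‖P v - Q w‖ ≤ δ * ‖P v‖ ∧ ‖P' v - Q' w‖ ≤ δ * ‖P v‖) :
    vf Q' / vf Q ≤
      ((1 + (1 + 2 * L) * L * δ) * (1 + 2 * δ)) ^ finrank ℝ E₀ * (vf P' / vf P) := by
  have := nd_compare (P ∘ₗ (io E₀).toLinearEquiv.toLinearMap) (P' ∘ₗ (io E₀).toLinearEquiv.toLinearMap)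
    (Q ∘ₗ (io E₀).toLinearEquiv.toLinearMap) (Q' ∘ₗ (io E₀).toLinearEquiv.toLinearMap)
    (hP.comp (io E₀).injective) (hQ.comp (io E₀).injective) (hP'.comp (io E₀).injective) L δ hL hδ0 hδ
    (fun v => h1 _) (fun v => h2 _) (fun v => by
      obtain ⟨w, hw1, hw2⟩ := h ((io E₀) v)
      refine ⟨(io E₀).symm w, ?_, ?_⟩
      · simpa using hw1
      · simpa using hw2)
  rw [finrank_euclideanSpace_fin] at this
  exact this

end Pool.Agent.V7H6.AD
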