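import Pool.Agent.Q130.AN.PA3

/-! Birkhoff sums over orbits in a trapping region are bounded below if those over the periodic orbits
in the region are nonnegative. -/

set_option autoImplicit false

open Filter Topology Set Metric

namespace Pool.Agent.V7H6.AD

open Pool.Agent.H789R2.AN Pool.Agent.H721R2 Pool.Agent.Q130.AN Pool.Agent.Y321.PD

variable {X : Type*} [MetricSpace X] {E : Type*} [NormedAddCommGroup E] [NormedSpace ℝ E]

lemma sum_geo (q : ℝ) (hq0 : 0 ≤ q) (hq : q < 1) (n : ℕ) :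
    ∑ i ∈ Finset.range n, q ^ i ≤ 1 / (1 - q) := by
  have h := geom_sum_eq (hq.ne) n
  rw [h]
  have h1 : (0 : ℝ) ≤ q ^ n := by positivity
  have h2 : (q ^ n - 1) / (q - 1) = (1 - q ^ n) / (1 - q) := by
    rw [← neg_sub 1 (q ^ n), ← neg_sub 1 q, neg_div_neg_eq]
  rw [h2]
  have h3 : 0 < 1 - q := by linarith
  gcongr
  linarith

lemma sum_geo' (q : ℝ) (hq0 : 0 ≤ q) (hq : q < 1) (n : ℕ) :
    ∑ i ∈ Finset.range (n + 1), q ^ (n - i) ≤ 1 / (1 - q) := by
  have h := Finset.sum_range_reflect (fun i => q ^ i) (n + 1)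
  simp only [Nat.add_sub_cancel] at h
  rw [h]
  exact sum_geo q hq0 hq _

/-- the ratio of the geometric series -/
noncomputable def qq (α : ℝ) : ℝ := (1 / 2 : ℝ) ^ α

lemma qq_pos (α : ℝ) : 0 < qq α := by unfold qq; positivity

lemma qq_lt {α : ℝ} (hα : 0 < α) : qq α < 1 := by
  unfold qq
  exact Real.rpow_lt_one (by norm_num) (by norm_num) hα

/-- the total error in the comparison with a closed orbit -/
noncomputable def tot (C c α : ℝ) : ℝ := C * (c ^ α * (2 / (1 - qq α)))

lemma tot_nonneg {C c α : ℝ} (hC : 0 ≤ C) (hc : 0 < c) (hα : 0 < α) : 0 ≤ tot C c α := by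
  unfold tot
  have := qq_lt hα
  have : 0 < 1 - qq α := by linarith
  positivity

lemma tot_tendsto (C : ℝ) {α : ℝ} (hα : 0 < α) : Tendsto (fun c => tot C c α) (𝓝 0) (𝓝 0) := by
  have h1 : Tendsto (fun c : ℝ => c ^ α) (𝓝 0) (𝓝 (0 ^ α)) :=
    (Real.continuousAt_rpow_const 0 α (Or.inr hα.le)).tendsto
  rw [Real.zero_rpow hα.ne'] at h1
  have h2 := (h1.mul_const (2 / (1 - qq α))).const_mul C
  simpa [tot] using h2

/-- closing an orbit segment which comes back, with control of the Birkhoff sums -/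
theorem seg_close [CompactSpace X] (S : HypSys X E) {φ : X → ℝ} {C r α : ℝ} (hC : 0 ≤ C)
    (hα : 0 < α) (hα1 : α ≤ 1) (hφ : ∀ x y, dist x y < r → |φ x - φ y| ≤ C * dist x y ^ α)
    {c : ℝ} (hc : 0 < c) (hcr : 2 * c < r) (hLP : LP S.g c) :
    ∃ ε > 0, ∀ (x : X) (n : ℕ), dist (S.g^[n + 1] x) x ≤ ε → ∃ p, S.g^[n + 1] p = p ∧
      dist x p ≤ 2 * c ∧
      |birkhoffSum S.g φ (n + 1) x - birkhoffSum S.g φ (n + 1) p| ≤ tot C c α := by
  obtain ⟨ε, hε, hcl⟩ := closing_core S hLP
  refine ⟨ε, hε, fun x n hn => ?_⟩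
  obtain ⟨p, hp, hd⟩ := hcl x (S.g^[n] x) n 1 le_rfl (by rw [dist_self]; exact hε.le) (by
    rw [Function.iterate_one, ← Function.iterate_succ_apply' S.g]
    exact hn)
  refine ⟨p, hp, ?_, ?_⟩
  · have h1 := hd 0 (Nat.zero_le _)
    simp only [Function.iterate_zero, id_eq, pow_zero, mul_one, Nat.sub_zero] at h1
    have h2 : ((1:ℝ) / 2) ^ n ≤ 1 := pow_le_one₀ (by norm_num) (by norm_num)
    have h3 : c * (1 / 2) ^ n ≤ c * 1 := mul_le_mul_of_nonneg_left h2 hc.le
    linarith
  · unfold birkhoffSum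
    rw [← Finset.sum_sub_distrib]
    refine (Finset.abs_sum_le_sum_abs _ _).trans ?_
    calc ∑ i ∈ Finset.range (n + 1), |φ (S.g^[i] x) - φ (S.g^[i] p)|
        ≤ ∑ i ∈ Finset.range (n + 1), C * (c ^ α * qq α ^ i + c ^ α * qq α ^ (n - i)) := by
          apply Finset.sum_le_sum
          intro i hi
          have hi' : i ≤ n := by rw [Finset.mem_range] at hi; omega
          have t1 := hd i hi'
          have u2 : ((1:ℝ) / 2) ^ i ≤ 1 := pow_le_one₀ (by norm_num) (by norm_num)
          have u3 : ((1:ℝ) / 2) ^ (n - i) ≤ 1 := pow_le_one₀ (by norm_num) (by norm_num)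
          have u4 : c * (1 / 2) ^ i ≤ c * 1 := mul_le_mul_of_nonneg_left u2 hc.le
          have u5 : c * (1 / 2) ^ (n - i) ≤ c * 1 := mul_le_mul_of_nonneg_left u3 hc.le
          refine (hφ _ _ (by linarith)).trans ?_
          apply mul_le_mul_of_nonneg_left _ hC
          have v1 : ∀ k : ℕ, (c * (1 / 2) ^ k) ^ α = c ^ α * qq α ^ k := by
            intro k
            rw [Real.mul_rpow hc.le (by positivity), ← Real.rpow_natCast, ← Real.rpow_mul (by norm_num),
              mul_comm (k : ℝ) α, Real.rpow_mul (by norm_num), Real.rpow_natCast]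
            rfl
          calc dist (S.g^[i] x) (S.g^[i] p) ^ α ≤ (c * (1 / 2) ^ i + c * (1 / 2) ^ (n - i)) ^ α :=
                Real.rpow_le_rpow dist_nonneg t1 hα.le
            _ ≤ (c * (1 / 2) ^ i) ^ α + (c * (1 / 2) ^ (n - i)) ^ α :=
                Real.rpow_add_le_add_rpow (by positivity) (by positivity) hα.le hα1
            _ = _ := by rw [v1, v1]
      _ = C * (c ^ α * ∑ i ∈ Finset.range (n + 1), qq α ^ i +
          c ^ α * ∑ i ∈ Finset.range (n + 1), qq α ^ (n - i)) := by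
          rw [← Finset.mul_sum, Finset.sum_add_distrib, Finset.mul_sum, Finset.mul_sum]
      _ ≤ C * (c ^ α * (1 / (1 - qq α)) + c ^ α * (1 / (1 - qq α))) := by
          have s1 := sum_geo (qq α) (qq_pos α).le (qq_lt hα) (n + 1)
          have s2 := sum_geo' (qq α) (qq_pos α).le (qq_lt hα) n
          gcongr
      _ = tot C c α := by unfold tot; ring

theorem birkhoff_lower [CompactSpace X] (S : HypSys X E) {φ : X → ℝ} {C r B α : ℝ} (hC : 0 ≤ C)
    (hr : 0 < r) (hα : 0 < α) (hα1 : α ≤ 1)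
    (hφ : ∀ x y, dist x y < r → |φ x - φ y| ≤ C * dist x y ^ α) (hB : ∀ x, |φ x| ≤ B)
    (K W : Set X) (hK : IsCompact K) (hW : IsOpen W) (hKW : K ⊆ W) (hgK : ∀ x ∈ K, S.g x ∈ K)
    (hper : ∀ p ∈ W, ∀ n, 1 ≤ n → S.g^[n] p = p → 0 ≤ birkhoffSum S.g φ n p) :
    ∃ A, 0 ≤ A ∧ ∀ x ∈ K, ∀ n, -A ≤ birkhoffSum S.g φ n x := by
  classical
  obtain ⟨δ, hδ, hδW⟩ := hK.exists_thickening_subset_open hW hKW
  obtain ⟨c₀, hc₀, hLP⟩ := exists_LP_small S
  obtain ⟨c, hc, hcc, hcδ, hcr⟩ : ∃ c > 0, c ≤ c₀ ∧ 2 * c < δ ∧ 2 * c < r := by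
    refine ⟨min c₀ (min (δ / 4) (r / 4)), lt_min hc₀ (lt_min (by positivity) (by positivity)),
      min_le_left _ _, ?_, ?_⟩
    · have : min c₀ (min (δ / 4) (r / 4)) ≤ δ / 4 := (min_le_right _ _).trans (min_le_left _ _)
      linarith
    · have : min c₀ (min (δ / 4) (r / 4)) ≤ r / 4 := (min_le_right _ _).trans (min_le_right _ _)
      linarith
  obtain ⟨ε, hε, hcl⟩ := seg_close S hC hα hα1 hφ hc hcr (hLP c hc hcc)
  have hB0 : ∀ x : X, 0 ≤ B := fun x => (abs_nonneg _).trans (hB x)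
  have htot := tot_nonneg hC hc hα
  have hiter : ∀ x ∈ K, ∀ n, S.g^[n] x ∈ K := by
    intro x hx n
    induction n with
    | zero => exact hx
    | succ n ih => rw [Function.iterate_succ_apply']; exact hgK _ ih
  have hseg : ∀ x ∈ K, ∀ n : ℕ, dist (S.g^[n + 1] x) x ≤ ε →
      -(tot C c α) ≤ birkhoffSum S.g φ (n + 1) x := by
    intro x hx n hn
    obtain ⟨p, hp, hd, h1⟩ := hcl x n hn
    have hpW : p ∈ W := by
      apply hδW
      rw [mem_thickening_iff]
      refine ⟨x, hx, ?_⟩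
      rw [dist_comm]
      linarith
    have h0 := hper p hpW (n + 1) (by omega) hp
    have h2 := (abs_le.1 h1).1
    linarith
  obtain ⟨M, lab, hlab⟩ := exists_label (X := X) hε
  rcases isEmpty_or_nonempty X with hX | ⟨⟨x₀⟩⟩
  · exact ⟨0, le_rfl, fun x => (hX.false x).elim⟩
  have hB1 := hB0 x₀
  obtain ⟨D, hD⟩ : ∃ D, D = tot C c α + B := ⟨_, rfl⟩
  have hD0 : 0 ≤ D := by rw [hD]; positivity
  have hdec : ∀ k : ℕ, ∀ x ∈ K, ∀ n : ℕ, ∀ s : Finset (Fin M), s.card = k →
      (∀ i < n, lab (S.g^[i] x) ∈ s) → -(k * D) ≤ birkhoffSum S.g φ n x := by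
    intro k
    induction k with
    | zero =>
      intro x hx n s hs hn
      have : n = 0 := by
        by_contra h0
        have := hn 0 (Nat.pos_of_ne_zero h0)
        rw [Finset.card_eq_zero.mp hs] at this
        simp at this
      subst this
      simp
    | succ k ih =>
      intro x hx n s hs hn
      rcases Nat.eq_zero_or_pos n with h0 | h0
      · subst h0
        rw [birkhoffSum_zero]
        have : 0 ≤ ((k + 1 : ℕ) : ℝ) * D := by positivity
        linarith
      set A := (Finset.range n).filter (fun i => lab (S.g^[i] x) = lab x) with hA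
      have hA0 : A.Nonempty := ⟨0, by simp [hA, h0]⟩
      obtain ⟨hl1, hl2⟩ : A.max' hA0 < n ∧ lab (S.g^[A.max' hA0] x) = lab x := by
        have hmem := Finset.max'_mem A hA0
        exact ⟨Finset.mem_range.mp (Finset.mem_filter.mp hmem).1, (Finset.mem_filter.mp hmem).2⟩
      set l := A.max' hA0 with hl
      have hlast : ∀ i, l < i → i < n → lab (S.g^[i] x) ≠ lab x := by
        intro i hi hin hi2
        have : i ≤ l := Finset.le_max' A i (by rw [hA]; simp [hin, hi2])
        omega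
      have h1 : -(tot C c α) ≤ birkhoffSum S.g φ l x := by
        rcases Nat.eq_zero_or_pos l with h2 | h2
        · rw [h2, birkhoffSum_zero]
          linarith
        · obtain ⟨l', hl'⟩ := Nat.exists_eq_succ_of_ne_zero h2.ne'
          have h3 := hseg x hx l' (by
            apply hlab
            rw [← hl2, hl'])
          rw [hl']
          exact h3
      have h2 : -B ≤ φ (S.g^[l] x) := (abs_le.1 (hB _)).1
      have h3 : -(k * D) ≤ birkhoffSum S.g φ (n - (l + 1)) (S.g^[l + 1] x) := by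
        refine ih _ (hiter x hx _) _ (s.erase (lab x)) ?_ ?_
        · rw [Finset.card_erase_of_mem, hs]
          · rfl
          · have := hn 0 h0
            simpa using this
        · intro i hi
          rw [← Function.iterate_add_apply, Finset.mem_erase]
          exact ⟨hlast _ (by omega) (by omega), hn _ (by omega)⟩
      have e1 : n = (l + 1) + (n - (l + 1)) := by omega
      rw [e1, birkhoffSum_add, birkhoffSum_succ]
      push_cast
      rw [hD] at h3 ⊢
      linarith
  refine ⟨M * D, by positivity, fun x hx n => ?_⟩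
  have := hdec M x hx n Finset.univ (by simp) (fun i _ => Finset.mem_univ _)
  exact this

end Pool.Agent.V7H6.AD
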