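import Pool.Agent.V7H6.AD.A2
import Pool.Agent.H721R2.Embed

/-! The volume factor of a map of a manifold, and its expression in charts. -/

set_option autoImplicit false
set_option linter.unusedSectionVars false

open scoped Manifold ContDiff Topology ENNReal
open Set Filter MeasureTheory Metric Module

namespace Pool.Agent.V7H6.AD

open Pool.Agent.H721R2

variable {E₀ : Type*} [NormedAddCommGroup E₀] [NormedSpace ℝ E₀] [FiniteDimensional ℝ E₀]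
  {M : Type*} [TopologicalSpace M] [ChartedSpace E₀ M] [IsManifold 𝓘(ℝ, E₀) 1 M]
  {F : Type*} [NormedAddCommGroup F] [InnerProductSpace ℝ F] [FiniteDimensional ℝ F]

/-- the volume factor of `G` at `x`, for the volume given by the immersion `e` -/
noncomputable def Jac (E₀ : Type*) [NormedAddCommGroup E₀] [NormedSpace ℝ E₀] [FiniteDimensional ℝ E₀]
    {M : Type*} [TopologicalSpace M] [ChartedSpace E₀ M]
    {F : Type*} [NormedAddCommGroup F] [InnerProductSpace ℝ F] (e : M → F) (G : M → M) (x : M) : ℝ :=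
  vf (dm E₀ (e ∘ G) x).toLinearMap / vf (dm E₀ e x).toLinearMap

theorem chart_upper (e : M → F) (he : ContMDiff 𝓘(ℝ, E₀) 𝓘(ℝ, F) 1 e) (x₀ : M) : ∃ r > 0, ∃ C > 0,
    ball (extChartAt 𝓘(ℝ, E₀) x₀ x₀) r ⊆ (extChartAt 𝓘(ℝ, E₀) x₀).target ∧
    ∀ p ∈ ball (extChartAt 𝓘(ℝ, E₀) x₀ x₀) r, vf (fderiv ℝ (hatMap e x₀) p).toLinearMap ≤ C := by
  obtain ⟨r, hr, h1, h2, -⟩ := hatMap_local e he x₀ 1 one_pos
  obtain ⟨k, hk, hk2⟩ := exists_vf_le (E₀ := E₀) (F := F)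
  set L := fderiv ℝ (hatMap e x₀) (extChartAt 𝓘(ℝ, E₀) x₀ x₀) with hL
  refine ⟨r, hr, ((‖L‖ + 1) * k) ^ finrank ℝ E₀ + 1, by positivity, h1, fun p hp => ?_⟩
  have h3 := hk2 (fderiv ℝ (hatMap e x₀) p).toLinearMap (‖L‖ + 1) (by positivity) (by
    intro v
    have h4 := h2 p hp
    have h5 : ‖fderiv ℝ (hatMap e x₀) p‖ ≤ ‖L‖ + 1 := by
      have := norm_add_le (fderiv ℝ (hatMap e x₀) p - L) L
      rw [sub_add_cancel] at this
      linarith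
    refine (ContinuousLinearMap.le_opNorm _ _).trans ?_
    exact mul_le_mul_of_nonneg_right h5 (norm_nonneg _))
  linarith

theorem fderiv_hat_inj (e : M → F) (he : ContMDiff 𝓘(ℝ, E₀) 𝓘(ℝ, F) 1 e)
    (hinj : ∀ x, Function.Injective (dm E₀ e x)) (x₀ : M) :
    Function.Injective (fderiv ℝ (hatMap e x₀) (extChartAt 𝓘(ℝ, E₀) x₀ x₀)) := by
  have hx₀ : x₀ ∈ (extChartAt 𝓘(ℝ, E₀) x₀).source := mem_extChartAt_source x₀
  have h1 : (dm E₀ e x₀).toLinearMap = (fderiv ℝ (hatMap e x₀) (extChartAt 𝓘(ℝ, E₀) x₀ x₀)).toLinearMap ∘ₗ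
      (dm E₀ (extChartAt 𝓘(ℝ, E₀) x₀) x₀).toLinearMap := by
    ext v
    exact hatMap_mfderiv e he x₀ x₀ hx₀ v
  obtain ⟨T, hT⟩ : ∃ T : E₀ →ₗ[ℝ] E₀, T = (dm E₀ (extChartAt 𝓘(ℝ, E₀) x₀) x₀).toLinearMap := ⟨_, rfl⟩
  rw [← hT] at h1
  have hTi : Function.Injective T := by
    have h2 : Function.Injective ((dm E₀ e x₀).toLinearMap) := hinj x₀
    rw [h1] at h2
    exact Function.Injective.of_comp h2
  have hTs : Function.Surjective T := LinearMap.injective_iff_surjective.1 hTi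
  intro a b hab
  obtain ⟨a', rfl⟩ := hTs a
  obtain ⟨b', rfl⟩ := hTs b
  have h3 : (dm E₀ e x₀).toLinearMap a' = (dm E₀ e x₀).toLinearMap b' := by
    rw [h1]; exact hab
  rw [hinj x₀ h3]

theorem chart_lower (e : M → F) (he : ContMDiff 𝓘(ℝ, E₀) 𝓘(ℝ, F) 1 e)
    (hinj : ∀ x, Function.Injective (dm E₀ e x)) (x₀ : M) (O : Set M) (hO : O ∈ 𝓝 x₀) :
    ∃ r > 0, ∃ c > 0,
    ball (extChartAt 𝓘(ℝ, E₀) x₀ x₀) r ⊆ (extChartAt 𝓘(ℝ, E₀) x₀).target ∧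
    (∀ p ∈ ball (extChartAt 𝓘(ℝ, E₀) x₀ x₀) r, (extChartAt 𝓘(ℝ, E₀) x₀).symm p ∈ O) ∧
    ∀ p ∈ ball (extChartAt 𝓘(ℝ, E₀) x₀ x₀) r, c ≤ vf (fderiv ℝ (hatMap e x₀) p).toLinearMap := by
  have hLi := fderiv_hat_inj e he hinj x₀
  obtain ⟨k, hk, hk2⟩ := exists_le_vf (E₀ := E₀) (F := F)
  set L := fderiv ℝ (hatMap e x₀) (extChartAt 𝓘(ℝ, E₀) x₀ x₀) with hL
  obtain ⟨K, hK0, hK⟩ := LinearMap.exists_antilipschitzWith L.toLinearMap (LinearMap.ker_eq_bot.2 hLi)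
  have hK0' : (0 : ℝ) < K := hK0
  have hK' : ∀ v, ‖v‖ ≤ K * ‖L v‖ := fun v => by
    have := hK.le_mul_dist v 0
    rw [dist_zero_right, map_zero, dist_zero_right] at this
    exact this
  obtain ⟨r, hr, h1, h2, -⟩ := hatMap_local e he x₀ (1 / (2 * K)) (by positivity)
  have h3 : (extChartAt 𝓘(ℝ, E₀) x₀).symm ⁻¹' O ∈ 𝓝 (extChartAt 𝓘(ℝ, E₀) x₀ x₀) := by
    apply (continuousAt_extChartAt_symm x₀).preimage_mem_nhds
    rw [extChartAt_to_inv]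
    exact hO
  obtain ⟨r', hr', h4⟩ := Metric.mem_nhds_iff.1 h3
  refine ⟨min r r', lt_min hr hr', (1 / (2 * K) * k) ^ finrank ℝ E₀, by positivity,
    (ball_subset_ball (min_le_left _ _)).trans h1,
    fun p hp => h4 (ball_subset_ball (min_le_right _ _) hp), fun p hp => ?_⟩
  apply hk2 _ _ (by positivity)
  intro v
  have h5 := h2 p (ball_subset_ball (min_le_left _ _) hp)
  have h6 : ‖(fderiv ℝ (hatMap e x₀) p - L) v‖ ≤ 1 / (2 * K) * ‖v‖ :=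
    (ContinuousLinearMap.le_opNorm _ _).trans (mul_le_mul_of_nonneg_right h5 (norm_nonneg _))
  have h7 : 1 / (K : ℝ) * ‖v‖ ≤ ‖L v‖ := by
    rw [one_div, inv_mul_le_iff₀ hK0']
    exact hK' v
  have h8 : ‖L v‖ ≤ ‖(fderiv ℝ (hatMap e x₀) p - L) v‖ + ‖fderiv ℝ (hatMap e x₀) p v‖ := by
    have e1 : L v = fderiv ℝ (hatMap e x₀) p v - (fderiv ℝ (hatMap e x₀) p - L) v := by
      rw [ContinuousLinearMap.sub_apply]; abel
    conv_lhs => rw [e1]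
    have := norm_sub_le (fderiv ℝ (hatMap e x₀) p v) ((fderiv ℝ (hatMap e x₀) p - L) v)
    linarith
  show 1 / (2 * (K : ℝ)) * ‖v‖ ≤ ‖fderiv ℝ (hatMap e x₀) p v‖
  have h9 : 1 / (K : ℝ) * ‖v‖ = 1 / (2 * K) * ‖v‖ + 1 / (2 * K) * ‖v‖ := by field_simp; ring
  linarith

/-- the determinant of a map in charts -/
theorem det_formula (e : M → F) (he : ContMDiff 𝓘(ℝ, E₀) 𝓘(ℝ, F) 1 e)
    (hinj : ∀ x, Function.Injective (dm E₀ e x)) (G : M → M) (hG : ContMDiff 𝓘(ℝ, E₀) 𝓘(ℝ, E₀) 1 G)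
    (x₀ x₁ : M) (u : E₀) (hu : u ∈ (extChartAt 𝓘(ℝ, E₀) x₀).target)
    (hy : G ((extChartAt 𝓘(ℝ, E₀) x₀).symm u) ∈ (extChartAt 𝓘(ℝ, E₀) x₁).source)
    (h : E₀ → E₀) (hh : h = extChartAt 𝓘(ℝ, E₀) x₁ ∘ G ∘ (extChartAt 𝓘(ℝ, E₀) x₀).symm) :
    DifferentiableAt ℝ h u ∧
    vf (fderiv ℝ (hatMap e x₁) (h u)).toLinearMap * |(fderiv ℝ h u).det| =
      Jac E₀ e G ((extChartAt 𝓘(ℝ, E₀) x₀).symm u) * vf (fderiv ℝ (hatMap e x₀) u).toLinearMap := by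
  set φ₀ := extChartAt 𝓘(ℝ, E₀) x₀ with hφ₀
  set φ₁ := extChartAt 𝓘(ℝ, E₀) x₁ with hφ₁
  obtain ⟨x, hx⟩ : ∃ x, x = φ₀.symm u := ⟨_, rfl⟩
  have hxs : x ∈ φ₀.source := by rw [hx]; exact φ₀.map_target hu
  have hxu : φ₀ x = u := by rw [hx]; exact φ₀.right_inv hu
  have hsym : ContMDiffAt 𝓘(ℝ, E₀) 𝓘(ℝ, E₀) 1 φ₀.symm u :=
    (contMDiffOn_extChartAt_symm (n := 1) x₀).contMDiffAt ((isOpen_extChartAt_target x₀).mem_nhds hu)
  have hφ1 : ContMDiffAt 𝓘(ℝ, E₀) 𝓘(ℝ, E₀) 1 φ₁ (G (φ₀.symm u)) := by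
    apply contMDiffAt_extChartAt'
    rw [hφ₁, extChartAt_source] at hy
    exact hy
  have hhd : ContMDiffAt 𝓘(ℝ, E₀) 𝓘(ℝ, E₀) 1 h u := by
    rw [hh]
    exact hφ1.comp u (hG.contMDiffAt.comp u hsym)
  have hhd2 : DifferentiableAt ℝ h u :=
    (contMDiffAt_iff_contDiffAt.1 hhd).differentiableAt (by norm_num)
  refine ⟨hhd2, ?_⟩
  have hev : hatMap e x₁ ∘ h =ᶠ[𝓝 u] hatMap (e ∘ G) x₀ := by
    have h1 : ContinuousAt (G ∘ φ₀.symm) u := hG.continuous.continuousAt.comp hsym.continuousAt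
    have h2 : φ₁.source ∈ 𝓝 ((G ∘ φ₀.symm) u) := (isOpen_extChartAt_source x₁).mem_nhds hy
    filter_upwards [h1.preimage_mem_nhds h2] with u' hu'
    have h3 : G (φ₀.symm u') ∈ φ₁.source := hu'
    rw [hh]
    show e (φ₁.symm (φ₁ (G (φ₀.symm u')))) = e (G (φ₀.symm u'))
    rw [φ₁.left_inv h3]
  have hhu : h u = φ₁ (G x) := by rw [hh, hx]; rfl
  have hdiff1 : DifferentiableAt ℝ (hatMap e x₁) (h u) := by
    apply (hatMap_contDiffAt e he x₁ (h u) _).differentiableAt (by norm_num)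
    rw [hhu]
    apply φ₁.map_source
    rw [hx]; exact hy
  have hchain : fderiv ℝ (hatMap (e ∘ G) x₀) u = (fderiv ℝ (hatMap e x₁) (h u)).comp (fderiv ℝ h u) := by
    rw [← hev.fderiv_eq]
    exact fderiv_comp u hdiff1 hhd2
  have hchain' : (fderiv ℝ (hatMap (e ∘ G) x₀) u).toLinearMap =
      (fderiv ℝ (hatMap e x₁) (h u)).toLinearMap ∘ₗ (fderiv ℝ h u).toLinearMap := by
    rw [hchain]; rfl
  obtain ⟨T, hT⟩ : ∃ T : E₀ →ₗ[ℝ] E₀, T = (dm E₀ φ₀ x).toLinearMap := ⟨_, rfl⟩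
  have hG1 : (dm E₀ (e ∘ G) x).toLinearMap = (fderiv ℝ (hatMap (e ∘ G) x₀) u).toLinearMap ∘ₗ T := by
    ext v
    have := hatMap_mfderiv (e ∘ G) (he.comp hG) x₀ x hxs v
    rw [hT, ← hxu]
    exact this
  have he1 : (dm E₀ e x).toLinearMap = (fderiv ℝ (hatMap e x₀) u).toLinearMap ∘ₗ T := by
    ext v
    have := hatMap_mfderiv e he x₀ x hxs v
    rw [hT, ← hxu]
    exact this
  have hpos : 0 < vf (dm E₀ e x).toLinearMap := vf_pos _ (hinj x)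
  rw [← hx]
  unfold Jac
  rw [hG1, he1, vf_comp, vf_comp, hchain', vf_comp]
  rw [he1, vf_comp] at hpos
  have hT0 : |T.det| ≠ 0 := by
    intro h0
    rw [h0, mul_zero] at hpos
    exact lt_irrefl _ hpos
  have hA0 : vf (fderiv ℝ (hatMap e x₀) u).toLinearMap ≠ 0 := by
    intro h0
    rw [h0, zero_mul] at hpos
    exact lt_irrefl _ hpos
  rw [mul_div_mul_right _ _ hT0, div_mul_cancel₀ _ hA0]

end Pool.Agent.V7H6.AD
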