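import Pool.Agent.V7H6.AD.C

/-! The volume factor of an iterate: cocycle property, bounds. -/

set_option autoImplicit false
set_option linter.unusedSectionVars false

open scoped Manifold ContDiff Topology
open Set Filter Metric Module

namespace Pool.Agent.V7H6.AD

open Pool.Agent.H721R2

section lin

variable {E₀ : Type*} [NormedAddCommGroup E₀] [NormedSpace ℝ E₀] [FiniteDimensional ℝ E₀]
  {F : Type*} [NormedAddCommGroup F] [InnerProductSpace ℝ F] [FiniteDimensional ℝ F]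

theorem vf_mono (f g : E₀ →ₗ[ℝ] F) (hf : Function.Injective f) (b : ℝ)
    (hb : ∀ v, ‖g v‖ ≤ b * ‖f v‖) : vf g ≤ b ^ finrank ℝ E₀ * vf f := by
  have := nd_mono (f ∘ₗ (io E₀).toLinearEquiv.toLinearMap) (g ∘ₗ (io E₀).toLinearEquiv.toLinearMap)
    (hf.comp (io E₀).injective) b (fun v => hb _)
  rw [finrank_euclideanSpace_fin] at this
  exact this

end lin

section jac

variable {E₀ : Type*} [NormedAddCommGroup E₀] [NormedSpace ℝ E₀] [FiniteDimensional ℝ E₀]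
  {M : Type*} [TopologicalSpace M] [ChartedSpace E₀ M] [IsManifold 𝓘(ℝ, E₀) 1 M]
  {F : Type*} [NormedAddCommGroup F] [InnerProductSpace ℝ F] [FiniteDimensional ℝ F]

theorem dm_comp_lin (e : M → F) (he : ContMDiff 𝓘(ℝ, E₀) 𝓘(ℝ, F) 1 e) (G : M → M)
    (hG : ContMDiff 𝓘(ℝ, E₀) 𝓘(ℝ, E₀) 1 G) (x : M) :
    (dm E₀ (e ∘ G) x).toLinearMap = (dm E₀ e (G x)).toLinearMap ∘ₗ (dg E₀ G x).toLinearMap := by
  ext v
  exact dm_comp e he G hG x v

theorem jac_eq (e : M → F) (he : ContMDiff 𝓘(ℝ, E₀) 𝓘(ℝ, F) 1 e) (G : M → M)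
    (hG : ContMDiff 𝓘(ℝ, E₀) 𝓘(ℝ, E₀) 1 G) (x : M) :
    Jac E₀ e G x = vf (dm E₀ e (G x)).toLinearMap * |(dg E₀ G x).toLinearMap.det| /
      vf (dm E₀ e x).toLinearMap := by
  unfold Jac
  rw [dm_comp_lin e he G hG, vf_comp]

theorem jac_fix (e : M → F) (he : ContMDiff 𝓘(ℝ, E₀) 𝓘(ℝ, F) 1 e)
    (hinj : ∀ x, Function.Injective (dm E₀ e x)) (G : M → M)
    (hG : ContMDiff 𝓘(ℝ, E₀) 𝓘(ℝ, E₀) 1 G) (x : M) (hx : G x = x) :
    Jac E₀ e G x = |(dg E₀ G x).toLinearMap.det| := by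
  rw [jac_eq e he G hG]
  have h := vf_pos _ (hinj x : Function.Injective (dm E₀ e x).toLinearMap)
  rw [hx]
  field_simp

theorem jac_comp (e : M → F) (he : ContMDiff 𝓘(ℝ, E₀) 𝓘(ℝ, F) 1 e)
    (hinj : ∀ x, Function.Injective (dm E₀ e x)) (G G' : M → M)
    (hG : ContMDiff 𝓘(ℝ, E₀) 𝓘(ℝ, E₀) 1 G) (hG' : ContMDiff 𝓘(ℝ, E₀) 𝓘(ℝ, E₀) 1 G') (x : M) :
    Jac E₀ e (G' ∘ G) x = Jac E₀ e G' (G x) * Jac E₀ e G x := by
  have h0 := vf_pos _ (hinj x : Function.Injective (dm E₀ e x).toLinearMap)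
  have h1 := vf_pos _ (hinj (G x) : Function.Injective (dm E₀ e (G x)).toLinearMap)
  have hdet : (dg E₀ (G' ∘ G) x).toLinearMap = (dg E₀ G' (G x)).toLinearMap ∘ₗ (dg E₀ G x).toLinearMap := by
    ext v
    exact dg_comp G G' hG hG' x v
  rw [jac_eq e he _ (hG'.comp hG), jac_eq e he G hG, jac_eq e he G' hG', hdet, LinearMap.det_comp, abs_mul]
  simp only [Function.comp_apply]
  field_simp

theorem jac_id (e : M → F) (he : ContMDiff 𝓘(ℝ, E₀) 𝓘(ℝ, F) 1 e)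
    (hinj : ∀ x, Function.Injective (dm E₀ e x)) (x : M) : Jac E₀ e id x = 1 := by
  unfold Jac
  have h0 := vf_pos _ (hinj x : Function.Injective (dm E₀ e x).toLinearMap)
  rw [Function.comp_id, div_self h0.ne']

theorem jac_nonneg (e : M → F) (hinj : ∀ x, Function.Injective (dm E₀ e x)) (G : M → M) (x : M) :
    0 ≤ Jac E₀ e G x := by
  have h0 := vf_pos _ (hinj x : Function.Injective (dm E₀ e x).toLinearMap)
  unfold Jac
  apply div_nonneg _ h0.le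
  unfold vf
  exact LinearMap.normDet_nonneg _

theorem jac_pos (e : M → F) (he : ContMDiff 𝓘(ℝ, E₀) 𝓘(ℝ, F) 1 e)
    (hinj : ∀ x, Function.Injective (dm E₀ e x)) (G G' : M → M)
    (hG : ContMDiff 𝓘(ℝ, E₀) 𝓘(ℝ, E₀) 1 G) (hG' : ContMDiff 𝓘(ℝ, E₀) 𝓘(ℝ, E₀) 1 G')
    (h : ∀ x, G' (G x) = x) (x : M) :
    0 < Jac E₀ e G x ∧ Jac E₀ e G' (G x) * Jac E₀ e G x = 1 := by
  have h1 := jac_comp e he hinj G G' hG hG' x
  have h2 : G' ∘ G = id := funext h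
  rw [h2, jac_id e he hinj] at h1
  have h3 := jac_nonneg e hinj G x
  refine ⟨lt_of_le_of_ne h3 (fun h4 => ?_), h1.symm⟩
  rw [← h4, mul_zero] at h1
  exact one_ne_zero h1

theorem jac_le (e : M → F) (he : ContMDiff 𝓘(ℝ, E₀) 𝓘(ℝ, F) 1 e)
    (hinj : ∀ x, Function.Injective (dm E₀ e x)) (G : M → M)
    (hG : ContMDiff 𝓘(ℝ, E₀) 𝓘(ℝ, E₀) 1 G) (x : M) (L : ℝ)
    (hL : ∀ v, ‖dm E₀ e (G x) (dg E₀ G x v)‖ ≤ L * ‖dm E₀ e x v‖) :
    Jac E₀ e G x ≤ L ^ finrank ℝ E₀ := by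
  have h0 := vf_pos _ (hinj x : Function.Injective (dm E₀ e x).toLinearMap)
  unfold Jac
  rw [div_le_iff₀ h0]
  apply vf_mono _ _ (hinj x)
  intro v
  have := hL v
  rw [← dm_comp e he G hG] at this
  exact this

theorem log_iter (e : M → F) (he : ContMDiff 𝓘(ℝ, E₀) 𝓘(ℝ, F) 1 e)
    (hinj : ∀ x, Function.Injective (dm E₀ e x)) (G G' : M → M)
    (hG : ContMDiff 𝓘(ℝ, E₀) 𝓘(ℝ, E₀) 1 G) (hG' : ContMDiff 𝓘(ℝ, E₀) 𝓘(ℝ, E₀) 1 G')
    (h : ∀ x, G' (G x) = x) (n : ℕ) (x : M) :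
    0 < Jac E₀ e (G^[n]) x ∧
    birkhoffSum G (fun y => Real.log (Jac E₀ e G y)) n x = Real.log (Jac E₀ e (G^[n]) x) := by
  induction n with
  | zero =>
    have : Jac E₀ e (G^[0]) x = 1 := jac_id e he hinj x
    rw [this]
    simp
  | succ n ih =>
    have h1 : Jac E₀ e (G^[n + 1]) x = Jac E₀ e G (G^[n] x) * Jac E₀ e (G^[n]) x := by
      rw [Function.iterate_succ']
      exact jac_comp e he hinj _ _ (iter_smooth G hG n) hG x
    have h2 := (jac_pos e he hinj G G' hG hG' h (G^[n] x)).1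
    refine ⟨by rw [h1]; exact mul_pos h2 ih.1, ?_⟩
    rw [birkhoffSum_succ, ih.2, h1, Real.log_mul h2.ne' ih.1.ne']
    ring

end jac

end Pool.Agent.V7H6.AD
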