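import Pool.Agent.V7H6.AD.B

/-! The theorem of Livšic for topologically transitive hyperbolic systems (continuous solutions). -/

set_option autoImplicit false

open Filter Topology Set Metric

namespace Pool.Agent.V7H6.AD

open Pool.Agent.H789R2.AN Pool.Agent.H721R2 Pool.Agent.Q130.AN Pool.Agent.Y321.PD

section orbit

variable {X : Type*} [MetricSpace X] [CompactSpace X]

theorem exists_dense_orbit [Nonempty X] (g : X → X) (hg : Continuous g)
    (h : ∀ U V : Set X, IsOpen U → U.Nonempty → IsOpen V → V.Nonempty →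
      ∃ n : ℕ, (g^[n] '' U ∩ V).Nonempty) :
    ∃ x, DenseRange (fun n : ℕ => g^[n] x) := by
  obtain ⟨b, hb, hb0, hbas⟩ := TopologicalSpace.exists_countable_basis X
  have hd : Dense (⋂ V ∈ b, ⋃ n : ℕ, (g^[n]) ⁻¹' V) := by
    apply dense_biInter_of_isOpen _ hb
    · intro V hV
      rw [dense_iff_inter_open]
      intro U hU hUn
      have hVn : V.Nonempty := by
        rw [nonempty_iff_ne_empty]
        intro h0
        rw [h0] at hV
        exact hb0 hV
      obtain ⟨n, y, ⟨x, hx, rfl⟩, hy⟩ := h U V hU hUn (hbas.isOpen hV) hVn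
      exact ⟨x, hx, mem_iUnion.2 ⟨n, hy⟩⟩
    · intro V hV
      exact isOpen_iUnion fun n => (hbas.isOpen hV).preimage (hg.iterate n)
  obtain ⟨x, hx⟩ := hd.nonempty
  refine ⟨x, ?_⟩
  rw [DenseRange, dense_iff_inter_open]
  intro U hU ⟨y, hy⟩
  obtain ⟨V, hV, hyV, hVU⟩ := hbas.exists_subset_of_mem_open hy hU
  simp only [mem_iInter] at hx
  obtain ⟨n, hn⟩ := mem_iUnion.1 (hx V hV)
  exact ⟨g^[n] x, hVU hn, n, rfl⟩

/-- extension of a function given along a dense sequence -/
theorem exists_extend (z : ℕ → X) (hz : DenseRange z) (s : ℕ → ℝ)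
    (h : ∀ η > 0, ∃ ε > 0, ∀ m n, dist (z m) (z n) < ε → |s m - s n| ≤ η) :
    ∃ u : X → ℝ, Continuous u ∧ ∀ n, u (z n) = s n := by
  have hsame : ∀ m n, z m = z n → s m = s n := by
    intro m n hmn
    by_contra hne
    have h0 : 0 < |s m - s n| := abs_pos.2 (sub_ne_zero.2 hne)
    obtain ⟨ε, hε, h1⟩ := h (|s m - s n| / 2) (by positivity)
    have := h1 m n (by rw [hmn, dist_self]; exact hε)
    linarith
  choose k hk using fun y : Set.range z => y.2
  let f : Set.range z → ℝ := fun y => s (k y)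
  have hf : UniformContinuous f := by
    rw [Metric.uniformContinuous_iff]
    intro η hη
    obtain ⟨ε, hε, h1⟩ := h (η / 2) (by positivity)
    refine ⟨ε, hε, fun {a b} hab => ?_⟩
    rw [Real.dist_eq]
    have := h1 (k a) (k b) (by rw [hk, hk]; exact hab)
    show |s (k a) - s (k b)| < η
    linarith
  have hdi : IsDenseInducing (Subtype.val : Set.range z → X) :=
    ⟨⟨rfl⟩, by rw [DenseRange, Subtype.range_coe]; exact hz⟩
  have hui : IsUniformInducing (Subtype.val : Set.range z → X) := isUniformInducing_val _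
  have hde : DenseRange (Subtype.val : Set.range z → X) := hdi.dense
  refine ⟨hdi.extend f, (uniformContinuous_uniformly_extend hui hde hf).continuous, fun n => ?_⟩
  have h2 := hdi.extend_eq hf.continuous ⟨z n, n, rfl⟩
  have h3 : hdi.extend f (z n) = f ⟨z n, n, rfl⟩ := h2
  rw [h3]
  exact hsame _ _ (hk ⟨z n, n, rfl⟩)

end orbit

variable {X : Type*} [MetricSpace X] {E : Type*} [NormedAddCommGroup E] [NormedSpace ℝ E]

/-- **Livšic** -/
theorem livsic [CompactSpace X] [Nonempty X] (S : HypSys X E) {φ : X → ℝ} {C r α : ℝ} (hC : 0 ≤ C)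
    (hr : 0 < r) (hα : 0 < α) (hα1 : α ≤ 1)
    (hφ : ∀ x y, dist x y < r → |φ x - φ y| ≤ C * dist x y ^ α) (hφc : Continuous φ)
    (hper : ∀ p, ∀ n, 1 ≤ n → S.g^[n] p = p → birkhoffSum S.g φ n p = 0)
    (htr : ∀ U V : Set X, IsOpen U → U.Nonempty → IsOpen V → V.Nonempty →
      ∃ n : ℕ, (S.g^[n] '' U ∩ V).Nonempty) :
    ∃ u : X → ℝ, Continuous u ∧ ∀ x, φ x = u (S.g x) - u x := by
  obtain ⟨x₀, hx₀⟩ := exists_dense_orbit S.g S.g.continuous htr
  obtain ⟨c₀, hc₀, hLP⟩ := exists_LP_small S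
  obtain ⟨u, hu, hun⟩ := exists_extend (fun n => S.g^[n] x₀) hx₀ (fun n => birkhoffSum S.g φ n x₀) (by
    intro η hη
    have h1 := (tot_tendsto C hα).eventually (gt_mem_nhds hη)
    rw [Metric.eventually_nhds_iff] at h1
    obtain ⟨c', hc', h2⟩ := h1
    obtain ⟨c, hc, hcc, hcr, hcc'⟩ : ∃ c > 0, c ≤ c₀ ∧ 2 * c < r ∧ c < c' := by
      refine ⟨min c₀ (min (c' / 2) (r / 4)), lt_min hc₀ (lt_min (by positivity) (by positivity)),
        min_le_left _ _, ?_, ?_⟩
      · have : min c₀ (min (c' / 2) (r / 4)) ≤ r / 4 := (min_le_right _ _).trans (min_le_right _ _)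
        linarith
      · have : min c₀ (min (c' / 2) (r / 4)) ≤ c' / 2 := (min_le_right _ _).trans (min_le_left _ _)
        linarith
    have h3 : tot C c α < η := h2 (by rw [Real.dist_eq, sub_zero, abs_of_pos hc]; exact hcc')
    obtain ⟨ε, hε, hcl⟩ := seg_close S hC hα hα1 hφ hc hcr (hLP c hc hcc)
    refine ⟨ε, hε, ?_⟩
    have key : ∀ m n, m < n → dist (S.g^[m] x₀) (S.g^[n] x₀) < ε →
        |birkhoffSum S.g φ n x₀ - birkhoffSum S.g φ m x₀| ≤ η := by
      intro m n hmn hd
      obtain ⟨k, rfl⟩ : ∃ k, n = m + (k + 1) := ⟨n - m - 1, by omega⟩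
      rw [birkhoffSum_add, add_sub_cancel_left]
      obtain ⟨p, hp, -, h4⟩ := hcl (S.g^[m] x₀) k (by
        rw [← Function.iterate_add_apply, add_comm (k + 1) m, dist_comm]
        exact hd.le)
      rw [hper p (k + 1) (by omega) hp, sub_zero] at h4
      exact h4.trans h3.le
    intro m n hd
    rcases lt_trichotomy m n with h5 | h5 | h5
    · rw [abs_sub_comm]
      exact key m n h5 hd
    · rw [h5, sub_self, abs_zero]; exact hη.le
    · exact key n m h5 (by rwa [dist_comm]))
  refine ⟨u, hu, fun x => ?_⟩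
  have hcl : IsClosed {x | φ x = u (S.g x) - u x} :=
    isClosed_eq hφc ((hu.comp S.g.continuous).sub hu)
  have hsub : Set.range (fun n => S.g^[n] x₀) ⊆ {x | φ x = u (S.g x) - u x} := by
    rintro _ ⟨n, rfl⟩
    show φ (S.g^[n] x₀) = u (S.g (S.g^[n] x₀)) - u (S.g^[n] x₀)
    have h1 := hun (n + 1)
    simp only [Function.iterate_succ_apply'] at h1
    rw [h1, hun n, birkhoffSum_succ]
    ring
  have h2 := hcl.closure_subset_iff.2 hsub
  exact h2 (hx₀ x)

end Pool.Agent.V7H6.AD
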