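import Pool.Agent.V7H6.AD.F
import Pool.Agent.H779R2.An.TransNT

/-! Quasi-invariant measures whose Jacobian has nonnegative periodic sums. -/

set_option autoImplicit false

open Filter Topology Set Metric MeasureTheory
open scoped ENNReal

namespace Pool.Agent.V7H6.AD

open Pool.Agent.H789R2.AN Pool.Agent.H721R2 Pool.Agent.Q130.AN Pool.Agent.Y321.PD

variable {X : Type*} [MetricSpace X] {E : Type*} [NormedAddCommGroup E] [InnerProductSpace ℝ E]
  [FiniteDimensional ℝ E]

omit [FiniteDimensional ℝ E] in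
theorem birkhoff_cont (g : X → X) (hg : Continuous g) {φ : X → ℝ} (hφ : Continuous φ) (n : ℕ) :
    Continuous (birkhoffSum g φ n) := by
  unfold birkhoffSum
  exact continuous_finset_sum _ fun k _ => hφ.comp (hg.iterate k)

theorem birkhoff_mul (g : X → X) (φ : X → ℝ) (n : ℕ) (p : X) (hp : g^[n] p = p) (k : ℕ) :
    birkhoffSum g φ (k * n) p = k * birkhoffSum g φ n p := by
  have hk : ∀ k, g^[k * n] p = p := by
    intro k
    rw [mul_comm, Function.iterate_mul]
    exact Function.iterate_fixed hp k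
  induction k with
  | zero => simp
  | succ k ih =>
    rw [add_mul, one_mul, birkhoffSum_add, hk, ih]
    push_cast
    ring

/-- a fully supported finite invariant measure gives transitivity -/
theorem trans_of_inv [CompactSpace X] [ConnectedSpace X] [MeasurableSpace X] [BorelSpace X]
    (S : HypSys X E) (ν : Measure X) [IsFiniteMeasure ν]
    (hpos : ∀ U : Set X, IsOpen U → U.Nonempty → ν U ≠ 0)
    (hinv : ∀ A : Set X, MeasurableSet A → ν (S.g '' A) = ν A)
    (U V : Set X) (hU : IsOpen U) (hUn : U.Nonempty) (hV : IsOpen V) (hVn : V.Nonempty) :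
    ∃ n : ℕ, (S.g^[n] '' U ∩ V).Nonempty := by
  apply Pool.Agent.H779R2.An.transitive_of_no_trap S _ U V hU hUn hV hVn
  intro W hW hWn htrap
  by_contra hWu
  have hKcl : IsClosed (S.g '' closure W) := S.g.isClosedMap _ isClosed_closure
  have hKW : S.g '' closure W ⊆ W := by
    rintro _ ⟨y, hy, rfl⟩
    exact htrap y hy
  have hOn : (W \ (S.g '' closure W)).Nonempty := by
    rw [Set.diff_nonempty]
    intro hsub
    have h1 : W = S.g '' closure W := Subset.antisymm hsub hKW
    have h2 : IsClosed W := by rw [h1]; exact hKcl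
    exact hWu (IsClopen.eq_univ ⟨h2, hW⟩ hWn)
  apply hpos _ (hW.sdiff hKcl) hOn
  rw [measure_diff hKW hKcl.measurableSet.nullMeasurableSet (measure_ne_top _ _),
    hinv _ isClosed_closure.measurableSet, tsub_eq_zero_iff_le]
  exact measure_mono subset_closure

theorem meas_main [CompactSpace X] [ConnectedSpace X] [MeasurableSpace X] [BorelSpace X]
    (S : HypSys X E) {φ : X → ℝ} {C r α : ℝ} (hC : 0 ≤ C) (hr : 0 < r) (hα : 0 < α) (hα1 : α ≤ 1)
    (hφ : ∀ x y, dist x y < r → |φ x - φ y| ≤ C * dist x y ^ α) (hφc : Continuous φ)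
    (ν : Measure X) [IsFiniteMeasure ν] (hpos : ∀ U : Set X, IsOpen U → U.Nonempty → ν U ≠ 0)
    (hν : ∀ A : Set X, MeasurableSet A →
      ∫⁻ x in A, ENNReal.ofReal (Real.exp (φ x)) ∂ν ≤ ν (S.g '' A))
    (hper : ∀ p, ∀ n, 1 ≤ n → S.g^[n] p = p → 0 ≤ birkhoffSum S.g φ n p) :
    (∃ u : X → ℝ, Continuous u ∧ ∀ x, φ x = u (S.g x) - u x) ∧
    ∀ U V : Set X, IsOpen U → U.Nonempty → IsOpen V → V.Nonempty →
      ∃ n : ℕ, (S.g^[n] '' U ∩ V).Nonempty := by
  classical
  obtain ⟨B, hB⟩ : ∃ B, ∀ x, |φ x| ≤ B := by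
    obtain ⟨B, hB⟩ := isCompact_univ.exists_bound_of_continuousOn hφc.continuousOn
    exact ⟨B, fun x => hB x trivial⟩
  obtain ⟨A, hA, hAb⟩ := birkhoff_lower S hC hr hα hα1 hφ hB univ univ isCompact_univ isOpen_univ
    subset_rfl (fun _ _ => trivial) (fun p _ => hper p)
  have hgm : Measurable S.g := S.g.continuous.measurable
  have hSc := birkhoff_cont S.g S.g.continuous hφc
  have hbdd : ∀ x, BddBelow (Set.range fun n => birkhoffSum S.g φ n x) := fun x =>
    ⟨-A, by rintro _ ⟨n, rfl⟩; exact hAb x trivial n⟩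
  obtain ⟨v, hv⟩ : ∃ v : X → ℝ, v = fun x => ⨅ n, birkhoffSum S.g φ n x := ⟨_, rfl⟩
  have hvm : Measurable v := by
    rw [hv]
    exact Measurable.iInf fun n => (hSc n).measurable
  have hv0 : ∀ x, v x ≤ 0 := fun x => by
    rw [hv]
    have := ciInf_le (hbdd x) 0
    rwa [birkhoffSum_zero] at this
  have hvA : ∀ x, -A ≤ v x := fun x => by
    rw [hv]
    exact le_ciInf fun n => hAb x trivial n
  have hvg : ∀ x, v x ≤ φ x + v (S.g x) := by
    intro x
    have h1 : v x - φ x ≤ v (S.g x) := by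
      rw [hv]
      apply le_ciInf
      intro n
      have h2 := ciInf_le (hbdd x) (n + 1)
      rw [birkhoffSum_succ'] at h2
      linarith
    linarith
  obtain ⟨η, hη⟩ : ∃ η : X → ℝ≥0∞, η = fun x => ENNReal.ofReal (Real.exp (v x)) := ⟨_, rfl⟩
  have hηm : Measurable η := by
    rw [hη]
    exact (Real.measurable_exp.comp hvm).ennreal_ofReal
  obtain ⟨ex, hex⟩ : ∃ ex : X → ℝ≥0∞, ex = fun x => ENNReal.ofReal (Real.exp (φ x)) := ⟨_, rfl⟩
  have hexm : Measurable ex := by
    rw [hex]
    exact (Real.measurable_exp.comp hφc.measurable).ennreal_ofReal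
  have hηg : ∀ x, η x ≤ ex x * η (S.g x) := by
    intro x
    rw [hη, hex]
    simp only
    rw [← ENNReal.ofReal_mul (Real.exp_pos _).le, ← Real.exp_add]
    exact ENNReal.ofReal_le_ofReal (Real.exp_le_exp.2 (hvg x))
  have himg : ∀ A : Set X, MeasurableSet A → MeasurableSet (S.g '' A) := fun A hA => by
    rw [S.g.image_eq_preimage_symm]
    exact S.g.symm.continuous.measurable hA
  -- the comparison of measures
  obtain ⟨ρ, hρ⟩ : ∃ ρ : Measure X, ρ = (ν.withDensity ex).map S.g := ⟨_, rfl⟩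
  have hρν : ρ ≤ ν := by
    rw [Measure.le_iff]
    intro D hD
    rw [hρ, Measure.map_apply hgm hD, withDensity_apply _ (hgm hD)]
    have h1 := hν _ (hgm hD)
    rw [image_preimage_eq _ S.g.surjective] at h1
    rw [hex]
    exact h1
  have hcomp : ∀ D : Set X, MeasurableSet D → ∫⁻ x in D, ex x * η (S.g x) ∂ν ≤ ∫⁻ x in S.g '' D, η x ∂ν := by
    intro D hD
    calc ∫⁻ x in D, ex x * η (S.g x) ∂ν = ∫⁻ x in S.g ⁻¹' (S.g '' D), ex x * η (S.g x) ∂ν := by
          rw [preimage_image_eq _ S.g.injective]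
      _ = ∫⁻ x in S.g ⁻¹' (S.g '' D), η (S.g x) ∂(ν.withDensity ex) := by
          have := setLIntegral_withDensity_eq_setLIntegral_mul ν hexm (hηm.comp hgm) (hgm (himg D hD))
          exact this.symm
      _ = ∫⁻ x in S.g '' D, η x ∂ρ := by
          rw [hρ, setLIntegral_map (himg D hD) hηm hgm]
      _ ≤ ∫⁻ x in S.g '' D, η x ∂ν := by
          apply lintegral_mono'
          · exact Measure.restrict_mono subset_rfl hρν
          · exact le_rfl
  obtain ⟨ν', hν'⟩ : ∃ ν' : Measure X, ν' = ν.withDensity η := ⟨_, rfl⟩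
  have hν'a : ∀ D : Set X, MeasurableSet D → ν' D = ∫⁻ x in D, η x ∂ν := fun D hD => by
    rw [hν', withDensity_apply _ hD]
  have hle : ∀ D : Set X, MeasurableSet D → ν' D ≤ ν' (S.g '' D) := by
    intro D hD
    rw [hν'a D hD, hν'a _ (himg D hD)]
    refine le_trans ?_ (hcomp D hD)
    exact lintegral_mono fun x => hηg x
  have hη1 : ∀ x, η x ≤ 1 := by
    intro x
    rw [hη]
    simp only
    rw [ENNReal.ofReal_le_one]
    exact Real.exp_le_one_iff.2 (hv0 x)
  have hηA : ∀ x, ENNReal.ofReal (Real.exp (-A)) ≤ η x := by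
    intro x
    rw [hη]
    exact ENNReal.ofReal_le_ofReal (Real.exp_le_exp.2 (hvA x))
  have hfin : IsFiniteMeasure ν' := by
    rw [hν']
    apply isFiniteMeasure_withDensity
    exact ((lintegral_mono hη1).trans_lt (by rw [lintegral_one]; exact measure_lt_top _ _)).ne
  have hinv : ∀ D : Set X, MeasurableSet D → ν' (S.g '' D) = ν' D := by
    intro D hD
    apply le_antisymm _ (hle D hD)
    by_contra hcon
    push Not at hcon
    have h1 : ν' D + ν' Dᶜ < ν' (S.g '' D) + ν' (S.g '' Dᶜ) :=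
      ENNReal.add_lt_add_of_lt_of_le (measure_ne_top _ _) hcon (hle _ hD.compl)
    rw [measure_add_measure_compl hD, image_compl_eq S.g.bijective,
      measure_add_measure_compl (himg D hD)] at h1
    exact lt_irrefl _ h1
  have hpos' : ∀ U : Set X, IsOpen U → U.Nonempty → ν' U ≠ 0 := by
    intro U hU hUn h0
    have h1 : ENNReal.ofReal (Real.exp (-A)) * ν U ≤ ν' U := by
      rw [hν'a U hU.measurableSet, ← setLIntegral_const]
      exact lintegral_mono fun x => hηA x
    rw [h0] at h1
    have h2 := le_antisymm h1 zero_le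
    rw [mul_eq_zero] at h2
    rcases h2 with h2 | h2
    · rw [ENNReal.ofReal_eq_zero] at h2
      exact absurd h2 (not_le.2 (Real.exp_pos _))
    · exact hpos U hU hUn h2
  have htr := trans_of_inv S ν' hpos' hinv
  refine ⟨?_, fun U V hU hUn hV hVn => htr U V hU hUn hV hVn⟩
  -- the periodic sums vanish
  have hmp : MeasurePreserving S.g ν' ν' := by
    refine ⟨hgm, ?_⟩
    ext D hD
    rw [Measure.map_apply hgm hD, ← hinv _ (hgm hD), image_preimage_eq _ S.g.surjective]
  have hae : ∀ᵐ x ∂ν, η x = ex x * η (S.g x) := by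
    apply ae_eq_of_ae_le_of_lintegral_le (Eventually.of_forall hηg)
    · exact ((lintegral_mono hη1).trans_lt (by rw [lintegral_one]; exact measure_lt_top _ _)).ne
    · exact (hexm.mul (hηm.comp hgm)).aemeasurable
    · have := hcomp univ MeasurableSet.univ
      rwa [image_univ, S.g.surjective.range_eq, Measure.restrict_univ] at this
  have hvae : ∀ᵐ x ∂ν, v x = φ x + v (S.g x) := by
    filter_upwards [hae] with x hx
    rw [hη, hex] at hx
    simp only at hx
    rw [← ENNReal.ofReal_mul (Real.exp_pos _).le, ← Real.exp_add,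
      ENNReal.ofReal_eq_ofReal_iff (Real.exp_pos _).le (Real.exp_pos _).le] at hx
    exact Real.exp_injective hx
  have hac : ν' ≪ ν := by rw [hν']; exact withDensity_absolutelyContinuous _ _
  have hac' : ν ≪ ν' := by
    rw [hν']
    apply withDensity_absolutelyContinuous' hηm.aemeasurable
    filter_upwards with x
    intro h0
    have := hηA x
    rw [h0] at this
    have h2 := le_antisymm this zero_le
    rw [ENNReal.ofReal_eq_zero] at h2
    exact absurd h2 (not_le.2 (Real.exp_pos _))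
  have hall : ∀ᵐ x ∂ν, ∀ n, v (S.g^[n] x) = φ (S.g^[n] x) + v (S.g (S.g^[n] x)) := by
    apply hac'.ae_le
    show ∀ᵐ x ∂ν', ∀ n, v (S.g^[n] x) = φ (S.g^[n] x) + v (S.g (S.g^[n] x))
    rw [ae_all_iff]
    intro n
    exact (hmp.iterate n).quasiMeasurePreserving.ae (hac.ae_le hvae)
  have hsum : ∀ᵐ x ∂ν, ∀ n, |birkhoffSum S.g φ n x| ≤ A := by
    filter_upwards [hall] with x hx
    have h1 : ∀ n, birkhoffSum S.g φ n x = v x - v (S.g^[n] x) := by
      intro n
      induction n with
      | zero => simp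
      | succ n ih =>
        rw [birkhoffSum_succ, ih, Function.iterate_succ_apply', hx n]
        ring
    intro n
    rw [h1, abs_le]
    have h2 := hv0 x
    have h3 := hvA x
    have h4 := hv0 (S.g^[n] x)
    have h5 := hvA (S.g^[n] x)
    constructor <;> linarith
  have hsumall : ∀ n x, |birkhoffSum S.g φ n x| ≤ A := by
    intro n
    by_contra hcon
    push Not at hcon
    obtain ⟨x, hx⟩ := hcon
    have hop : IsOpen {x | A < |birkhoffSum S.g φ n x|} := isOpen_lt continuous_const (hSc n).abs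
    apply hpos _ hop ⟨x, hx⟩
    have h1 : ∀ᵐ x ∂ν, x ∉ {x | A < |birkhoffSum S.g φ n x|} := by
      filter_upwards [hsum] with x hx
      exact not_lt.2 (hx n)
    rw [measure_eq_zero_iff_ae_notMem]
    exact h1
  have hper0 : ∀ p, ∀ n, 1 ≤ n → S.g^[n] p = p → birkhoffSum S.g φ n p = 0 := by
    intro p n hn hp
    by_contra h0
    have h1 : 0 < |birkhoffSum S.g φ n p| := abs_pos.2 h0
    obtain ⟨k, hk⟩ := exists_nat_gt (A / |birkhoffSum S.g φ n p|)
    have h2 := hsumall (k * n) p
    rw [birkhoff_mul S.g φ n p hp k, abs_mul, Nat.abs_cast] at h2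
    rw [div_lt_iff₀ h1] at hk
    linarith
  exact livsic S hC hr hα hα1 hφ hφc hper0 htr

end Pool.Agent.V7H6.AD
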