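import Pool.Agent.V7H6.AD.G
import Pool.Agent.V7H6.AD.D
import Pool.Agent.H779R2.An.RealizeE
import Pool.Agent.H789R2.AN.Man
import Pool.Agent.W740.TU.Sym

/-! Quasi-invariant measures of Anosov diffeomorphisms. -/

set_option autoImplicit false
set_option linter.unusedSectionVars false

open scoped Manifold ContDiff Topology ENNReal
open Set Filter MeasureTheory Metric Module

namespace Pool.Agent.V7H6.AD

open Pool.Agent.H721R2 Pool.Agent.H779R2.An Pool.Agent.H789R2.AN

section hol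

variable {X : Type*} [MetricSpace X]

/-- Hölder functions -/
def Hol (ψ : X → ℝ) : Prop := ∃ C r α : ℝ, 0 ≤ C ∧ 0 < r ∧ 0 < α ∧ α ≤ 1 ∧
  ∀ x y, dist x y < r → |ψ x - ψ y| ≤ C * dist x y ^ α

theorem Hol.continuous {ψ : X → ℝ} (h : Hol ψ) : Continuous ψ := by
  obtain ⟨C, r, α, hC, hr, hα, -, h⟩ := h
  rw [Metric.continuous_iff']
  intro x ε hε
  have h1 : Tendsto (fun y => C * dist y x ^ α) (𝓝 x) (𝓝 0) := by
    have h2 : Tendsto (fun y => dist y x) (𝓝 x) (𝓝 0) := by
      have := (continuous_id.dist (continuous_const (y := x))).tendsto x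
      simpa using this
    have h3 : Tendsto (fun t : ℝ => t ^ α) (𝓝 0) (𝓝 (0 ^ α)) :=
      (Real.continuousAt_rpow_const 0 α (Or.inr hα.le)).tendsto
    rw [Real.zero_rpow hα.ne'] at h3
    have := (h3.comp h2).const_mul C
    simpa using this
  filter_upwards [h1.eventually (gt_mem_nhds hε), Metric.ball_mem_nhds x hr] with y hy hyr
  rw [Real.dist_eq]
  exact (h y x hyr).trans_lt hy

theorem Hol.neg {ψ : X → ℝ} (h : Hol ψ) : Hol (fun x => -ψ x) := by
  obtain ⟨C, r, α, hC, hr, hα, hα1, h⟩ := h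
  refine ⟨C, r, α, hC, hr, hα, hα1, fun x y hxy => ?_⟩
  have := h x y hxy
  rw [← abs_neg] at this
  rwa [show -ψ x - -ψ y = -(ψ x - ψ y) by ring]

theorem Hol.comp {ψ : X → ℝ} (h : Hol ψ) {G : X → X} {L : ℝ} (hL : 1 ≤ L)
    (hG : ∀ x y, dist (G x) (G y) ≤ L * dist x y) : Hol (fun x => ψ (G x)) := by
  obtain ⟨C, r, α, hC, hr, hα, hα1, h⟩ := h
  refine ⟨C * L ^ α, r / L, α, by positivity, by positivity, hα, hα1, fun x y hxy => ?_⟩
  rw [lt_div_iff₀ (by linarith)] at hxy
  have h1 := hG x y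
  refine (h _ _ (by linarith)).trans ?_
  rw [mul_assoc, ← Real.mul_rpow (by linarith) dist_nonneg]
  exact mul_le_mul_of_nonneg_left (Real.rpow_le_rpow dist_nonneg h1 hα.le) hC

theorem Hol.birkhoff {ψ : X → ℝ} (h : Hol ψ) {G : X → X} {L : ℝ} (hL : 1 ≤ L)
    (hG : ∀ x y, dist (G x) (G y) ≤ L * dist x y) (n : ℕ) : Hol (birkhoffSum G ψ n) := by
  obtain ⟨C, r, α, hC, hr, hα, hα1, h⟩ := h
  have hit : ∀ k x y, dist (G^[k] x) (G^[k] y) ≤ L ^ k * dist x y := by
    intro k
    induction k with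
    | zero => intro x y; simp
    | succ k ih =>
      intro x y
      rw [Function.iterate_succ_apply', Function.iterate_succ_apply']
      calc dist (G (G^[k] x)) (G (G^[k] y)) ≤ L * dist (G^[k] x) (G^[k] y) := hG _ _
        _ ≤ L * (L ^ k * dist x y) := mul_le_mul_of_nonneg_left (ih x y) (by linarith)
        _ = _ := by rw [pow_succ]; ring
  have hLn : 0 < L ^ n := by positivity
  refine ⟨n * (C * (L ^ n) ^ α), r / L ^ n, α, by positivity, by positivity, hα, hα1,
    fun x y hxy => ?_⟩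
  rw [lt_div_iff₀ hLn] at hxy
  unfold birkhoffSum
  rw [← Finset.sum_sub_distrib]
  refine (Finset.abs_sum_le_sum_abs _ _).trans ?_
  calc ∑ k ∈ Finset.range n, |ψ (G^[k] x) - ψ (G^[k] y)|
      ≤ ∑ k ∈ Finset.range n, C * (L ^ n) ^ α * dist x y ^ α := by
        apply Finset.sum_le_sum
        intro k hk
        rw [Finset.mem_range] at hk
        have h1 : L ^ k ≤ L ^ n := pow_le_pow_right₀ hL hk.le
        have h2 : dist (G^[k] x) (G^[k] y) ≤ L ^ n * dist x y :=
          (hit k x y).trans (mul_le_mul_of_nonneg_right h1 dist_nonneg)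
        refine (h _ _ (by linarith)).trans ?_
        rw [mul_assoc, ← Real.mul_rpow hLn.le dist_nonneg]
        exact mul_le_mul_of_nonneg_left (Real.rpow_le_rpow dist_nonneg h2 hα.le) hC
    _ = _ := by
        rw [Finset.sum_const, Finset.card_range, nsmul_eq_mul]
        ring

end hol

section qi

variable {X : Type*} [TopologicalSpace X] [MeasurableSpace X] [BorelSpace X]

/-- `ν` is quasi-invariant, with Jacobian `e^ψ` -/
def QI (f : X ≃ₜ X) (ψ : X → ℝ) (ν : Measure X) : Prop :=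
  ∀ A, MeasurableSet A → ν (f '' A) = ∫⁻ x in A, ENNReal.ofReal (Real.exp (ψ x)) ∂ν

theorem img_meas (f : X ≃ₜ X) {A : Set X} (hA : MeasurableSet A) : MeasurableSet (f '' A) := by
  rw [f.image_eq_preimage_symm]
  exact f.symm.continuous.measurable hA

theorem QI.lint {f : X ≃ₜ X} {ψ : X → ℝ} {ν : Measure X} (h : QI f ψ ν) (hψ : Measurable ψ)
    (k : X → ℝ≥0∞) (hk : Measurable k) (A : Set X) (hA : MeasurableSet A) :
    ∫⁻ x in f '' A, k x ∂ν = ∫⁻ x in A, ENNReal.ofReal (Real.exp (ψ x)) * k (f x) ∂ν := by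
  have hfm : Measurable f := f.continuous.measurable
  have hem : Measurable fun x => ENNReal.ofReal (Real.exp (ψ x)) :=
    (Real.measurable_exp.comp hψ).ennreal_ofReal
  have h1 : ν = (ν.withDensity fun x => ENNReal.ofReal (Real.exp (ψ x))).map f := by
    ext B hB
    rw [Measure.map_apply hfm hB, withDensity_apply _ (hfm hB), ← h _ (hfm hB),
      image_preimage_eq _ f.surjective]
  have h2 : ∫⁻ x in f '' A, k x ∂((ν.withDensity fun x => ENNReal.ofReal (Real.exp (ψ x))).map f) =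
      ∫⁻ x in A, ENNReal.ofReal (Real.exp (ψ x)) * k (f x) ∂ν := by
    rw [setLIntegral_map (img_meas f hA) hk hfm, preimage_image_eq _ f.injective]
    exact setLIntegral_withDensity_eq_setLIntegral_mul ν hem (hk.comp hfm) hA
  rw [← h2, ← h1]

theorem QI.symm {f : X ≃ₜ X} {ψ : X → ℝ} {ν : Measure X} (h : QI f ψ ν) (hψ : Measurable ψ) :
    QI f.symm (fun x => -ψ (f.symm x)) ν := by
  intro A hA
  have hfm : Measurable f.symm := f.symm.continuous.measurable
  have hem : Measurable fun x => ENNReal.ofReal (Real.exp (-ψ (f.symm x))) :=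
    (Real.measurable_exp.comp ((hψ.comp hfm).neg)).ennreal_ofReal
  have h1 := h.lint hψ (fun x => ENNReal.ofReal (Real.exp (-ψ (f.symm x)))) hem (f.symm '' A)
    (img_meas f.symm hA)
  rw [← image_comp, show (f ∘ f.symm : X → X) = id from funext f.apply_symm_apply, image_id] at h1
  rw [h1]
  have h2 : ∀ x, ENNReal.ofReal (Real.exp (ψ x)) * ENNReal.ofReal (Real.exp (-ψ (f.symm (f x)))) = 1 := by
    intro x
    rw [f.symm_apply_apply, ← ENNReal.ofReal_mul (Real.exp_pos _).le, ← Real.exp_add, add_neg_cancel,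
      Real.exp_zero, ENNReal.ofReal_one]
  simp_rw [h2]
  simp

theorem QI.iter {f : X ≃ₜ X} {ψ : X → ℝ} {ν : Measure X} (h : QI f ψ ν) (hψ : Measurable ψ) (n : ℕ) :
    QI (iterHomeo f n) (birkhoffSum f ψ n) ν := by
  induction n with
  | zero =>
    intro A hA
    have h1 : (iterHomeo f 0 : X → X) = id := rfl
    rw [h1, image_id]
    simp
  | succ n ih =>
    intro A hA
    have hfn : (iterHomeo f (n + 1) : X → X) '' A = f '' ((iterHomeo f n) '' A) := by
      rw [← image_comp]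
      congr 1
      funext x
      exact Function.iterate_succ_apply' f n x
    have hm : Measurable (birkhoffSum f ψ n) := by
      unfold birkhoffSum
      exact Finset.measurable_sum _ fun k _ => hψ.comp (f.continuous.measurable.iterate k)
    have hk : Measurable fun x => ENNReal.ofReal (Real.exp (ψ x)) :=
      (Real.measurable_exp.comp hψ).ennreal_ofReal
    rw [hfn, h _ (img_meas _ hA), ih.lint hm _ hk A hA]
    apply lintegral_congr
    intro x
    rw [← ENNReal.ofReal_mul (Real.exp_pos _).le, ← Real.exp_add, birkhoffSum_succ]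
    rfl

end qi

section sums

variable {X : Type*}

theorem birkhoff_block (f : X → X) (ψ : X → ℝ) (N n : ℕ) (x : X) :
    birkhoffSum (f^[N]) (birkhoffSum f ψ N) n x = birkhoffSum f ψ (N * n) x := by
  induction n with
  | zero => simp
  | succ n ih =>
    rw [birkhoffSum_succ, ih, mul_add, mul_one, birkhoffSum_add, ← Function.iterate_mul]

theorem birkhoff_symm [TopologicalSpace X] (f : X ≃ₜ X) (ψ : X → ℝ) (n : ℕ) (x : X) :
    birkhoffSum f.symm (fun y => -ψ (f.symm y)) n x = -birkhoffSum f ψ n (f.symm^[n] x) := by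
  induction n with
  | zero => simp
  | succ n ih =>
    rw [birkhoffSum_succ, ih, birkhoffSum_succ', Function.iterate_succ_apply', f.apply_symm_apply]
    ring

end sums

section abs

variable {X : Type*} [MetricSpace X] {E : Type*} [NormedAddCommGroup E] [InnerProductSpace ℝ E]
  [FiniteDimensional ℝ E]

/-- traps -/
theorem trap_meas [CompactSpace X] [ConnectedSpace X] [MeasurableSpace X] [BorelSpace X]
    (S : HypSys X E) {φ : X → ℝ} (hφ : Hol φ) (ν : Measure X) [IsFiniteMeasure ν]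
    (hpos : ∀ U : Set X, IsOpen U → U.Nonempty → ν U ≠ 0) (hν : QI S.g φ ν)
    (W : Set X) (hW : IsOpen W) (hWn : W.Nonempty) (hWu : W ≠ univ)
    (htrap : ∀ y ∈ closure W, S.g y ∈ W) :
    ∃ p ∈ W, ∃ n, 1 ≤ n ∧ S.g^[n] p = p ∧ birkhoffSum S.g φ n p < 0 := by
  by_contra hcon
  push Not at hcon
  have hφc := hφ.continuous
  obtain ⟨C, r, α, hC, hr, hα, hα1, hlip⟩ := hφ
  obtain ⟨B, hB⟩ : ∃ B, ∀ x, |φ x| ≤ B := by
    obtain ⟨B, hB⟩ := isCompact_univ.exists_bound_of_continuousOn hφc.continuousOn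
    exact ⟨B, fun x => hB x trivial⟩
  have hKc : IsCompact (S.g '' closure W) := isClosed_closure.isCompact.image S.g.continuous
  have hKW : S.g '' closure W ⊆ W := by
    rintro _ ⟨y, hy, rfl⟩
    exact htrap y hy
  obtain ⟨A, hA, hAb⟩ := birkhoff_lower S hC hr hα hα1 hlip hB (S.g '' closure W) W hKc hW hKW
    (fun x hx => ⟨x, subset_closure (hKW hx), rfl⟩) hcon
  have hKcl : IsClosed (S.g '' closure W) := hKc.isClosed
  have hOn : (W \ (S.g '' closure W)).Nonempty := by
    rw [Set.sdiff_nonempty]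
    intro hsub
    have h1 : W = S.g '' closure W := Subset.antisymm hsub hKW
    have h2 : IsClosed W := by rw [h1]; exact hKcl
    exact hWu (IsClopen.eq_univ ⟨h2, hW⟩ hWn)
  have hOo : IsOpen (S.g '' (W \ (S.g '' closure W))) := S.g.isOpenMap _ (hW.sdiff hKcl)
  have hitinj : ∀ n, Function.Injective (S.g^[n]) := fun n => S.g.injective.iterate n
  have hin : ∀ n, 1 ≤ n → S.g^[n] '' (W \ (S.g '' closure W)) ⊆ S.g '' closure W := by
    intro n hn
    induction n, hn using Nat.le_induction with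
    | base =>
      rintro _ ⟨y, hy, rfl⟩
      exact ⟨y, subset_closure hy.1, rfl⟩
    | succ n hn ih =>
      rintro _ ⟨y, hy, rfl⟩
      rw [Function.iterate_succ_apply']
      exact ⟨S.g^[n] y, subset_closure (hKW (ih ⟨y, hy, rfl⟩)), rfl⟩
  have hdis0 : ∀ m n, m < n → Disjoint (S.g^[m] '' (S.g '' (W \ (S.g '' closure W))))
      (S.g^[n] '' (S.g '' (W \ (S.g '' closure W)))) := by
    intro m n hmn
    rw [Set.disjoint_left]
    rintro _ ⟨_, ⟨y, hy, rfl⟩, rfl⟩ ⟨_, ⟨z, hz, rfl⟩, h1⟩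
    obtain ⟨k, hk, hk2⟩ : ∃ k, n = k + m ∧ 1 ≤ k := ⟨n - m, by omega, by omega⟩
    rw [hk, ← Function.iterate_succ_apply, ← Function.iterate_succ_apply,
      show (k + m).succ = m.succ + k by omega, Function.iterate_add_apply] at h1
    have h2 := hitinj _ h1
    have h3 := hin k hk2 ⟨z, hz, rfl⟩
    rw [h2] at h3
    exact hy.2 h3
  obtain ⟨O, hO⟩ : ∃ O, O = S.g '' (W \ (S.g '' closure W)) := ⟨_, rfl⟩
  rw [← hO] at hOo hdis0
  have hOn' : O.Nonempty := by rw [hO]; exact hOn.image _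
  have hOK : O ⊆ S.g '' closure W := by
    rw [hO]
    rintro _ ⟨y, hy, rfl⟩
    exact ⟨y, subset_closure hy.1, rfl⟩
  have hge : ∀ n, ENNReal.ofReal (Real.exp (-A)) * ν O ≤ ν (S.g^[n] '' O) := by
    intro n
    have h1 := (hν.iter hφc.measurable n) O hOo.measurableSet
    have h2 : (iterHomeo S.g n : X → X) '' O = S.g^[n] '' O := rfl
    rw [← h2, h1, ← setLIntegral_const]
    apply setLIntegral_mono' hOo.measurableSet
    intro x hx
    exact ENNReal.ofReal_le_ofReal (Real.exp_le_exp.2 (hAb x (hOK hx) n))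
  have hdis : Pairwise (Function.onFun Disjoint fun n => S.g^[n] '' O) := by
    intro m n hmn
    rcases lt_or_gt_of_ne hmn with h | h
    · exact hdis0 m n h
    · exact (hdis0 n m h).symm
  have hmeas : ∀ n, MeasurableSet (S.g^[n] '' O) := fun n =>
    img_meas (iterHomeo S.g n) hOo.measurableSet
  have h1 : ∑' n, ν (S.g^[n] '' O) ≤ ν univ := by
    rw [← measure_iUnion hdis hmeas]
    exact measure_mono (subset_univ _)
  have h2 : ∑' _ : ℕ, ENNReal.ofReal (Real.exp (-A)) * ν O = ⊤ := by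
    apply ENNReal.tsum_const_eq_top_of_ne_zero
    apply mul_ne_zero
    · rw [Ne, ENNReal.ofReal_eq_zero, not_le]
      exact Real.exp_pos _
    · exact hpos O hOo hOn'
  have h3 : (⊤ : ℝ≥0∞) ≤ ν univ := by
    rw [← h2]
    exact (ENNReal.tsum_le_tsum hge).trans h1
  exact measure_ne_top ν univ (le_antisymm le_top h3)

/-- from an iterate to the map -/
theorem descend [CompactSpace X] [Nonempty X] (f : X ≃ₜ X) (N : ℕ) (hN : 1 ≤ N) (ψ u : X → ℝ)
    (hψ : Continuous ψ) (hu : Continuous u)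
    (htr : ∀ U V : Set X, IsOpen U → U.Nonempty → IsOpen V → V.Nonempty →
      ∃ n : ℕ, ((f^[N])^[n] '' U ∩ V).Nonempty)
    (h : ∀ x, birkhoffSum f ψ N x = u (f^[N] x) - u x) (x : X) : ψ x = u (f x) - u x := by
  obtain ⟨x₀, hx₀⟩ := exists_dense_orbit (f^[N]) (f.continuous.iterate N) htr
  obtain ⟨w, hw⟩ : ∃ w : X → ℝ, w = fun y => ψ y - (u (f y) - u y) := ⟨_, rfl⟩
  have hwc : Continuous w := by
    rw [hw]
    exact hψ.sub ((hu.comp f.continuous).sub hu)
  have hsum : ∀ n y, birkhoffSum f w n y = birkhoffSum f ψ n y - (u (f^[n] y) - u y) := by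
    intro n y
    induction n with
    | zero => simp
    | succ n ih =>
      rw [birkhoffSum_succ, birkhoffSum_succ, ih, hw, Function.iterate_succ_apply']
      simp only
      ring
  have h0 : ∀ y, birkhoffSum f w N y = 0 := fun y => by rw [hsum, h, sub_self]
  have hinv : ∀ y, w (f^[N] y) = w y := by
    intro y
    have h1 := birkhoffSum_apply_sub_birkhoffSum f w N y
    rw [h0, h0, sub_self] at h1
    linarith
  have hinv2 : ∀ n, w ((f^[N])^[n] x₀) = w x₀ := by
    intro n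
    induction n with
    | zero => rfl
    | succ n ih => rw [Function.iterate_succ_apply', hinv, ih]
  have hconst : ∀ y, w y = w x₀ := by
    intro y
    have hcl : IsClosed {y | w y = w x₀} := isClosed_eq hwc continuous_const
    have hsub : Set.range (fun n => (f^[N])^[n] x₀) ⊆ {y | w y = w x₀} := by
      rintro _ ⟨n, rfl⟩
      exact hinv2 n
    exact hcl.closure_subset_iff.2 hsub (hx₀ y)
  have h1 := h0 x
  have h2 : birkhoffSum f w N x = N * w x₀ := by
    unfold birkhoffSum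
    rw [Finset.sum_congr rfl (fun k _ => hconst (f^[k] x)), Finset.sum_const, Finset.card_range,
      nsmul_eq_mul]
  rw [h2] at h1
  have h3 : w x₀ = 0 := by
    rcases mul_eq_zero.1 h1 with h4 | h4
    · have : N = 0 := by exact_mod_cast h4
      omega
    · exact h4
  have h4 := hconst x
  rw [h3, hw] at h4
  simp only at h4
  linarith

end abs

section man

variable {E₀ : Type*} [NormedAddCommGroup E₀] [NormedSpace ℝ E₀] [FiniteDimensional ℝ E₀]
  {M : Type*} [MetricSpace M] [CompactSpace M] [ChartedSpace E₀ M] [IsManifold 𝓘(ℝ, E₀) ∞ M]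
  {F : Type*} [NormedAddCommGroup F] [InnerProductSpace ℝ F] [FiniteDimensional ℝ F]

theorem lip_glob {e : M → F} (hiso : ∀ x y, dist x y = ‖e x - e y‖)
    (he : ContMDiff 𝓘(ℝ, E₀) 𝓘(ℝ, F) 1 e) (hinj : ∀ x, Function.Injective (dm E₀ e x))
    (G : M → M) (hG : ContMDiff 𝓘(ℝ, E₀) 𝓘(ℝ, E₀) 1 G) :
    ∃ L : ℝ, 1 ≤ L ∧ ∀ x y, dist (G x) (G y) ≤ L * dist x y := by
  obtain ⟨B, hB, hBv⟩ := global_bound e he hinj G hG
  obtain ⟨r, hr, h⟩ := exists_uniform_radius (fun x y : M => dist (G x) (G y) ≤ (2 * B + 1) * dist x y) (by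
    intro x₀
    obtain ⟨-, h1⟩ := local_all e he hinj (e ∘ G) (he.comp hG) x₀
    obtain ⟨W, hW, r, hr, h2, -, -⟩ := h1 1 one_pos
    refine ⟨W, hW, fun x hx y hy => ?_⟩
    obtain ⟨v, h3, h4⟩ := h2 x hx y hy
    rw [dm_comp e he G hG] at h4
    have hd : ‖e y - e x‖ = dist x y := by rw [hiso, norm_sub_rev]
    rw [hd, one_mul] at h3 h4
    have h5 : ‖dm E₀ e x v‖ ≤ 2 * dist x y := by
      have := norm_sub_le (e y - e x) (e y - e x - dm E₀ e x v)
      rw [sub_sub_cancel, hd] at this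
      linarith
    have h6 := hBv x v
    have h7 : ‖e (G y) - e (G x)‖ ≤ dist x y + ‖dm E₀ e (G x) (dg E₀ G x v)‖ := by
      have := norm_add_le ((e ∘ G) y - (e ∘ G) x - dm E₀ e (G x) (dg E₀ G x v))
        (dm E₀ e (G x) (dg E₀ G x v))
      rw [sub_add_cancel] at this
      have h8 : ‖(e ∘ G) y - (e ∘ G) x‖ = ‖e (G y) - e (G x)‖ := rfl
      rw [h8] at this
      linarith
    have h9 : B * ‖dm E₀ e x v‖ ≤ B * (2 * dist x y) := mul_le_mul_of_nonneg_left h5 hB.le
    rw [hiso (G x) (G y), norm_sub_rev]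
    linarith)
  obtain ⟨D, hD⟩ : ∃ D, D = Metric.diam (univ : Set M) := ⟨_, rfl⟩
  have hD0 : 0 ≤ D := by rw [hD]; exact Metric.diam_nonneg
  refine ⟨2 * B + 1 + D / r, ?_, fun x y => ?_⟩
  · have : 0 ≤ D / r := by positivity
    linarith
  · have hd : 0 ≤ dist x y := dist_nonneg
    by_cases hxy : dist x y < r
    · have h1 := h x y hxy
      have h2 : 0 ≤ D / r * dist x y := by positivity
      linarith
    · push Not at hxy
      have h1 : dist (G x) (G y) ≤ D := by
        rw [hD]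
        exact Metric.dist_le_diam_of_mem isCompact_univ.isBounded trivial trivial
      have h2 : D ≤ D / r * dist x y := by
        rw [div_mul_eq_mul_div, le_div_iff₀ hr]
        exact mul_le_mul_of_nonneg_left hxy hD0
      have h3 : 0 ≤ (2 * B + 1) * dist x y := by positivity
      linarith

theorem sys_exists {e : M → F} (hiso : ∀ x y, dist x y = ‖e x - e y‖)
    (he : ContMDiff 𝓘(ℝ, E₀) 𝓘(ℝ, F) 1 e) (hinj : ∀ x, Function.Injective (dm E₀ e x))
    (f : Diffeomorph 𝓘(ℝ, E₀) 𝓘(ℝ, E₀) M M 1)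
    (Es Eu : ∀ x : M, Submodule ℝ (TangentSpace 𝓘(ℝ, E₀) x)) (h : IsAnosov f Es Eu) :
    ∃ (n : ℕ) (S : HypSys M F), 1 ≤ n ∧ S.g = iterHomeo f.toHomeomorph n := by
  obtain ⟨C, a, b, Ls, Lu, hE⟩ := eanosov_of_isAnosov e he hinj f Es Eu h
  obtain ⟨K, hK, hang⟩ := hE.angle he hinj
  have t1 : Tendsto (fun n : ℕ => K * (C * a ^ n)) atTop (𝓝 0) := by
    have := ((tendsto_pow_atTop_nhds_zero_of_lt_one hE.a_pos.le hE.a_lt).const_mul C).const_mul K
    simpa using this
  have t2 : Tendsto (fun n : ℕ => K * (C * b ^ n)) atTop (𝓝 0) := by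
    have := ((tendsto_pow_atTop_nhds_zero_of_lt_one hE.b_pos.le hE.b_lt).const_mul C).const_mul K
    simpa using this
  obtain ⟨n, ⟨hn1, hn2⟩, hn3⟩ := (((t1.eventually (gt_mem_nhds (by norm_num : (0:ℝ) < 1 / 16))).and
    (t2.eventually (gt_mem_nhds (by norm_num : (0:ℝ) < 1 / 16)))).and (eventually_ge_atTop 1)).exists
  obtain ⟨S, hS⟩ := exists_realizes hiso he hinj hE K hK hang n hn1.le hn2.le
  exact ⟨n, S, hn3, hS.g_eq⟩

/-- half of the main theorem -/
theorem half_main [ConnectedSpace M] [MeasurableSpace M] [BorelSpace M] {e : M → F}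
    (hiso : ∀ x y, dist x y = ‖e x - e y‖)
    (he : ContMDiff 𝓘(ℝ, E₀) 𝓘(ℝ, F) 1 e) (hinj : ∀ x, Function.Injective (dm E₀ e x))
    (f : Diffeomorph 𝓘(ℝ, E₀) 𝓘(ℝ, E₀) M M 1)
    (Es Eu : ∀ x : M, Submodule ℝ (TangentSpace 𝓘(ℝ, E₀) x)) (hA : IsAnosov f Es Eu)
    (ψ : M → ℝ) (hψ : Hol ψ) (ν : Measure M) [IsFiniteMeasure ν]
    (hpos : ∀ U : Set M, IsOpen U → U.Nonempty → ν U ≠ 0) (hν : QI f.toHomeomorph ψ ν) :
    (∀ W : Set M, IsOpen W → W.Nonempty → W ≠ univ → (∀ y ∈ closure W, f y ∈ W) →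
      ∃ p ∈ W, ∃ n, 1 ≤ n ∧ f^[n] p = p ∧ birkhoffSum f ψ n p < 0) ∧
    ((∀ p, ∀ n, 1 ≤ n → f^[n] p = p → 0 ≤ birkhoffSum f ψ n p) →
      TopTransitive f ∧ ∃ u : M → ℝ, Continuous u ∧ ∀ x, ψ x = u (f x) - u x) := by
  obtain ⟨N, S, hN, hg⟩ := sys_exists hiso he hinj f Es Eu hA
  obtain ⟨L, hL, hLip⟩ := lip_glob hiso he hinj f f.contMDiff
  have hgf : (S.g : M → M) = f^[N] := by rw [hg]; rfl
  have hψm := hψ.continuous.measurable
  have hH := hψ.birkhoff hL hLip N
  have hQ : QI S.g (birkhoffSum f ψ N) ν := by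
    rw [hg]
    exact hν.iter hψm N
  constructor
  · intro W hW hWn hWu htrap
    have hit : ∀ n, 1 ≤ n → ∀ y ∈ closure W, f^[n] y ∈ W := by
      intro n hn
      induction n, hn using Nat.le_induction with
      | base => exact htrap
      | succ n hn ih =>
        intro y hy
        rw [Function.iterate_succ_apply']
        exact htrap _ (subset_closure (ih y hy))
    obtain ⟨p, hp, n, hn, hpn, hlt⟩ := trap_meas S hH ν hpos hQ W hW hWn hWu (by
      intro y hy
      rw [hgf]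
      exact hit N hN y hy)
    rw [hgf] at hpn hlt
    rw [← Function.iterate_mul] at hpn
    rw [birkhoff_block] at hlt
    exact ⟨p, hp, N * n, Nat.mul_pos hN hn, hpn, hlt⟩
  · intro hper
    have hHc := hH.continuous
    obtain ⟨C, r, α, hC, hr, hα, hα1, hlip⟩ := hH
    obtain ⟨⟨u, hu, hu2⟩, htr⟩ := meas_main S hC hr hα hα1 hlip hHc ν hpos
      (fun A hA => (hQ A hA).ge) (by
        intro p n hn hpn
        rw [hgf] at hpn ⊢
        rw [← Function.iterate_mul] at hpn
        rw [birkhoff_block]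
        exact hper p (N * n) (Nat.mul_pos hN hn) hpn)
    rw [hgf] at htr hu2
    constructor
    · intro U V hU hUn hV hVn
      obtain ⟨n, hn⟩ := htr U V hU hUn hV hVn
      rw [← Function.iterate_mul] at hn
      exact ⟨N * n, hn⟩
    · exact ⟨u, hu, descend f.toHomeomorph N hN ψ u hψ.continuous hu htr hu2⟩

end man

end Pool.Agent.V7H6.AD
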