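import Pool.Agent.V7H6.AD.H

/-! Hölder estimates in charts. -/

set_option autoImplicit false
set_option linter.unusedSectionVars false

open scoped Manifold ContDiff Topology ENNReal
open Set Filter MeasureTheory Metric Module

namespace Pool.Agent.V7H6.AD

open Pool.Agent.H721R2 Pool.Agent.H779R2.An Pool.Agent.H789R2.AN

section lin

variable {E₀ : Type*} [NormedAddCommGroup E₀] [NormedSpace ℝ E₀] [FiniteDimensional ℝ E₀]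
  {F : Type*} [NormedAddCommGroup F] [InnerProductSpace ℝ F] [FiniteDimensional ℝ F]

theorem logvf_half (A B : E₀ →L[ℝ] F) (K : ℝ) (hK : 0 ≤ K) (hA : ∀ v, ‖v‖ ≤ K * ‖A v‖)
    (hB : ∀ v, ‖v‖ ≤ K * ‖B v‖) :
    Real.log (vf B.toLinearMap) ≤ Real.log (vf A.toLinearMap) + finrank ℝ E₀ * K * ‖A - B‖ := by
  have hinj : ∀ C : E₀ →L[ℝ] F, (∀ v, ‖v‖ ≤ K * ‖C v‖) → Function.Injective C.toLinearMap := by
    intro C hC
    rw [← LinearMap.ker_eq_bot, LinearMap.ker_eq_bot']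
    intro v hv
    have h1 := hC v
    have h2 : C v = 0 := hv
    rw [h2, norm_zero, mul_zero] at h1
    exact norm_le_zero_iff.1 h1
  have hA0 := vf_pos _ (hinj A hA)
  have hB0 := vf_pos _ (hinj B hB)
  have h1 := vf_mono A.toLinearMap B.toLinearMap (hinj A hA) (1 + K * ‖A - B‖) (by
    intro v
    show ‖B v‖ ≤ (1 + K * ‖A - B‖) * ‖A v‖
    have h2 : ‖B v‖ ≤ ‖A v‖ + ‖(A - B) v‖ := by
      have e1 : B v = A v - (A - B) v := by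
        rw [ContinuousLinearMap.sub_apply]; abel
      rw [e1]
      exact norm_sub_le _ _
    have h3 : ‖(A - B) v‖ ≤ ‖A - B‖ * (K * ‖A v‖) :=
      (ContinuousLinearMap.le_opNorm _ _).trans (mul_le_mul_of_nonneg_left (hA v) (norm_nonneg _))
    linarith)
  have h2 := Real.log_le_log hB0 h1
  have hpos : 0 < 1 + K * ‖A - B‖ := by positivity
  rw [Real.log_mul (by positivity) hA0.ne', Real.log_pow] at h2
  have h3 := Real.log_le_sub_one_of_pos hpos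
  have h4 : (finrank ℝ E₀ : ℝ) * Real.log (1 + K * ‖A - B‖) ≤ finrank ℝ E₀ * (K * ‖A - B‖) := by
    apply mul_le_mul_of_nonneg_left _ (Nat.cast_nonneg _)
    linarith
  linarith

theorem logvf_lip (A B : E₀ →L[ℝ] F) (K : ℝ) (hK : 0 ≤ K) (hA : ∀ v, ‖v‖ ≤ K * ‖A v‖)
    (hB : ∀ v, ‖v‖ ≤ K * ‖B v‖) :
    |Real.log (vf A.toLinearMap) - Real.log (vf B.toLinearMap)| ≤ finrank ℝ E₀ * K * ‖A - B‖ := by
  have h1 := logvf_half A B K hK hA hB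
  have h2 := logvf_half B A K hK hB hA
  rw [norm_sub_rev] at h2
  rw [abs_le]
  constructor <;> linarith

end lin

section loc

variable {E₀ : Type*} [NormedAddCommGroup E₀] [NormedSpace ℝ E₀] [FiniteDimensional ℝ E₀]
  {M : Type*} [TopologicalSpace M] [ChartedSpace E₀ M] [IsManifold 𝓘(ℝ, E₀) 1 M]
  {F : Type*} [NormedAddCommGroup F] [InnerProductSpace ℝ F] [FiniteDimensional ℝ F]

theorem unif_inj (e : M → F) (he : ContMDiff 𝓘(ℝ, E₀) 𝓘(ℝ, F) 1 e)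
    (hinj : ∀ x, Function.Injective (dm E₀ e x)) (x₀ : M) :
    ∃ r > 0, ∃ K > 0, ball (extChartAt 𝓘(ℝ, E₀) x₀ x₀) r ⊆ (extChartAt 𝓘(ℝ, E₀) x₀).target ∧
    (∀ p ∈ ball (extChartAt 𝓘(ℝ, E₀) x₀ x₀) r, ∀ v, ‖v‖ ≤ K * ‖fderiv ℝ (hatMap e x₀) p v‖) ∧
    (∀ p ∈ ball (extChartAt 𝓘(ℝ, E₀) x₀ x₀) r, ∀ q ∈ ball (extChartAt 𝓘(ℝ, E₀) x₀ x₀) r,
      ‖q - p‖ ≤ K * ‖hatMap e x₀ q - hatMap e x₀ p‖) := by
  have hLi := fderiv_hat_inj e he hinj x₀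
  set L := fderiv ℝ (hatMap e x₀) (extChartAt 𝓘(ℝ, E₀) x₀ x₀) with hL
  obtain ⟨K, hK0, hK⟩ := LinearMap.exists_antilipschitzWith L.toLinearMap (LinearMap.ker_eq_bot.2 hLi)
  have hK0' : (0 : ℝ) < K := hK0
  have hK' : ∀ v, ‖v‖ ≤ K * ‖L v‖ := fun v => by
    have := hK.le_mul_dist v 0
    rw [dist_zero_right, map_zero, dist_zero_right] at this
    exact this
  obtain ⟨r, hr, h1, h2, h3⟩ := hatMap_local e he x₀ (1 / (4 * K)) (by positivity)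
  have hlow : ∀ p ∈ ball (extChartAt 𝓘(ℝ, E₀) x₀ x₀) r, ∀ v,
      3 / (4 * (K : ℝ)) * ‖v‖ ≤ ‖fderiv ℝ (hatMap e x₀) p v‖ := by
    intro p hp v
    have h5 := h2 p hp
    have h6 : ‖(fderiv ℝ (hatMap e x₀) p - L) v‖ ≤ 1 / (4 * K) * ‖v‖ :=
      (ContinuousLinearMap.le_opNorm _ _).trans (mul_le_mul_of_nonneg_right h5 (norm_nonneg _))
    have h7 : 1 / (K : ℝ) * ‖v‖ ≤ ‖L v‖ := by
      rw [one_div, inv_mul_le_iff₀ hK0']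
      exact hK' v
    have h8 : ‖L v‖ ≤ ‖(fderiv ℝ (hatMap e x₀) p - L) v‖ + ‖fderiv ℝ (hatMap e x₀) p v‖ := by
      have e1 : L v = fderiv ℝ (hatMap e x₀) p v - (fderiv ℝ (hatMap e x₀) p - L) v := by
        rw [ContinuousLinearMap.sub_apply]; abel
      conv_lhs => rw [e1]
      have := norm_sub_le (fderiv ℝ (hatMap e x₀) p v) ((fderiv ℝ (hatMap e x₀) p - L) v)
      linarith
    have h9 : 1 / (K : ℝ) * ‖v‖ = 3 / (4 * K) * ‖v‖ + 1 / (4 * K) * ‖v‖ := by field_simp; ring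
    linarith
  refine ⟨r, hr, 2 * K, by positivity, h1, fun p hp v => ?_, fun p hp q hq => ?_⟩
  · have h4 := hlow p hp v
    have h5 : 2 * (K : ℝ) * (3 / (4 * K) * ‖v‖) ≤ 2 * K * ‖fderiv ℝ (hatMap e x₀) p v‖ :=
      mul_le_mul_of_nonneg_left h4 (by positivity)
    have h6 : 2 * (K : ℝ) * (3 / (4 * K) * ‖v‖) = 3 / 2 * ‖v‖ := by field_simp; ring
    have := norm_nonneg v
    linarith
  · have h4 := hlow p hp (q - p)
    have h5 := h3 p hp q hq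
    have h6 : ‖fderiv ℝ (hatMap e x₀) p (q - p)‖ ≤ ‖hatMap e x₀ q - hatMap e x₀ p‖ +
        ‖hatMap e x₀ q - hatMap e x₀ p - fderiv ℝ (hatMap e x₀) p (q - p)‖ := by
      have := norm_sub_le (hatMap e x₀ q - hatMap e x₀ p)
        (hatMap e x₀ q - hatMap e x₀ p - fderiv ℝ (hatMap e x₀) p (q - p))
      rwa [sub_sub_cancel] at this
    have h7 : 1 / (2 * (K : ℝ)) * ‖q - p‖ ≤ ‖hatMap e x₀ q - hatMap e x₀ p‖ := by
      have h9 : 3 / (4 * (K : ℝ)) * ‖q - p‖ = 1 / (2 * K) * ‖q - p‖ + 1 / (4 * K) * ‖q - p‖ := by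
        field_simp; ring
      linarith
    rwa [one_div, inv_mul_le_iff₀ (by positivity)] at h7

theorem jac_hat (e : M → F) (he : ContMDiff 𝓘(ℝ, E₀) 𝓘(ℝ, F) 1 e)
    (hinj : ∀ x, Function.Injective (dm E₀ e x)) (G : M → M) (hG : ContMDiff 𝓘(ℝ, E₀) 𝓘(ℝ, E₀) 1 G)
    (x₀ x : M) (hx : x ∈ (extChartAt 𝓘(ℝ, E₀) x₀).source) :
    Jac E₀ e G x = vf (fderiv ℝ (hatMap (e ∘ G) x₀) (extChartAt 𝓘(ℝ, E₀) x₀ x)).toLinearMap /
      vf (fderiv ℝ (hatMap e x₀) (extChartAt 𝓘(ℝ, E₀) x₀ x)).toLinearMap := by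
  obtain ⟨T, hT⟩ : ∃ T : E₀ →ₗ[ℝ] E₀, T = (dm E₀ (extChartAt 𝓘(ℝ, E₀) x₀) x).toLinearMap := ⟨_, rfl⟩
  have hG1 : (dm E₀ (e ∘ G) x).toLinearMap =
      (fderiv ℝ (hatMap (e ∘ G) x₀) (extChartAt 𝓘(ℝ, E₀) x₀ x)).toLinearMap ∘ₗ T := by
    ext v
    have := hatMap_mfderiv (e ∘ G) (he.comp hG) x₀ x hx v
    rw [hT]
    exact this
  have he1 : (dm E₀ e x).toLinearMap =
      (fderiv ℝ (hatMap e x₀) (extChartAt 𝓘(ℝ, E₀) x₀ x)).toLinearMap ∘ₗ T := by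
    ext v
    have := hatMap_mfderiv e he x₀ x hx v
    rw [hT]
    exact this
  have hpos : 0 < vf (dm E₀ e x).toLinearMap := vf_pos _ (hinj x)
  unfold Jac
  rw [hG1, he1, vf_comp, vf_comp]
  rw [he1, vf_comp] at hpos
  have hT0 : |T.det| ≠ 0 := by
    intro h0
    rw [h0, mul_zero] at hpos
    exact lt_irrefl _ hpos
  rw [mul_div_mul_right _ _ hT0]

end loc

/-- locally Hölder in charts, with exponent `α` -/
def LocHolder (E : Type*) [NormedAddCommGroup E] [NormedSpace ℝ E] {M : Type*} [TopologicalSpace M]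
    [ChartedSpace E M] (α : ℝ) (ψ : M → ℝ) : Prop :=
  ∀ x₀ : M, ∃ U ∈ 𝓝 x₀, ∃ C : ℝ, ∀ x ∈ U, ∀ y ∈ U,
    |ψ x - ψ y| ≤ C * ‖extChartAt 𝓘(ℝ, E) x₀ x - extChartAt 𝓘(ℝ, E) x₀ y‖ ^ α

/-- the derivative of `f`, read in charts, is locally Hölder with exponent `α` -/
def DerivHolder (E : Type*) [NormedAddCommGroup E] [NormedSpace ℝ E] {M : Type*} [TopologicalSpace M]
    [ChartedSpace E M] (α : ℝ) (f : M → M) : Prop :=
  ∀ x₀ : M, ∃ U ∈ 𝓝 (extChartAt 𝓘(ℝ, E) x₀ x₀), ∃ C : ℝ, ∀ u ∈ U, ∀ v ∈ U,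
    ‖fderiv ℝ (writtenInExtChartAt 𝓘(ℝ, E) 𝓘(ℝ, E) x₀ f) u -
      fderiv ℝ (writtenInExtChartAt 𝓘(ℝ, E) 𝓘(ℝ, E) x₀ f) v‖ ≤ C * ‖u - v‖ ^ α

section glob

variable {E₀ : Type*} [NormedAddCommGroup E₀] [NormedSpace ℝ E₀] [FiniteDimensional ℝ E₀]
  {M : Type*} [MetricSpace M] [CompactSpace M] [ChartedSpace E₀ M] [IsManifold 𝓘(ℝ, E₀) ∞ M]
  {F : Type*} [NormedAddCommGroup F] [InnerProductSpace ℝ F] [FiniteDimensional ℝ F]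

theorem hol_of_charts {e : M → F} (hiso : ∀ x y, dist x y = ‖e x - e y‖)
    (he : ContMDiff 𝓘(ℝ, E₀) 𝓘(ℝ, F) 1 e) (hinj : ∀ x, Function.Injective (dm E₀ e x))
    {α : ℝ} (hα : 0 < α) (hα1 : α ≤ 1) {ψ : M → ℝ} (hψ : LocHolder E₀ α ψ) : Hol ψ := by
  obtain ⟨c, hc, h⟩ := exists_uniform_small
    (fun c x => ∀ y : M, dist x y < c → |ψ x - ψ y| ≤ 1 / c * dist x y ^ α) (by
      intro C C' x hCC' h y hy
      have hC' : 0 < C' := lt_of_le_of_lt dist_nonneg hy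
      refine (h y (lt_of_lt_of_le hy hCC')).trans ?_
      exact mul_le_mul_of_nonneg_right (one_div_le_one_div_of_le hC' hCC')
        (Real.rpow_nonneg dist_nonneg _)) (by
      intro x₀
      obtain ⟨U, hU, C, h1⟩ := hψ x₀
      obtain ⟨r, hr, K, hK, h2, -, h3⟩ := unif_inj e he hinj x₀
      have hV : (extChartAt 𝓘(ℝ, E₀) x₀).source ∩ (extChartAt 𝓘(ℝ, E₀) x₀) ⁻¹'
          ball (extChartAt 𝓘(ℝ, E₀) x₀ x₀) r ∈ 𝓝 x₀ :=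
        ((continuousOn_extChartAt x₀).isOpen_inter_preimage (isOpen_extChartAt_source x₀)
          isOpen_ball).mem_nhds ⟨mem_extChartAt_source x₀, mem_ball_self hr⟩
      obtain ⟨ρ, hρ, hρU⟩ := Metric.mem_nhds_iff.1 (inter_mem hU hV)
      obtain ⟨C', hC', hC'0⟩ : ∃ C', C ≤ C' ∧ 0 ≤ C' := ⟨max C 0, le_max_left _ _, le_max_right _ _⟩
      obtain ⟨Q, hQ, hQ0⟩ : ∃ Q, C' * K ^ α ≤ Q ∧ 0 < Q :=
        ⟨C' * K ^ α + 1, by linarith, by positivity⟩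
      refine ⟨min (ρ / 2) (1 / Q), lt_min (by positivity) (by positivity), ?_⟩
      filter_upwards [Metric.ball_mem_nhds x₀ (half_pos hρ)] with x hx y hy
      have hQc : Q ≤ 1 / min (ρ / 2) (1 / Q) := by
        rw [le_div_iff₀ (lt_min (by positivity) (by positivity))]
        have h3 : min (ρ / 2) (1 / Q) ≤ 1 / Q := min_le_right _ _
        have h4 := mul_le_mul_of_nonneg_left h3 hQ0.le
        have h5 : Q * (1 / Q) = 1 := by field_simp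
        linarith
      rw [Metric.mem_ball] at hx
      have hxU := hρU (Metric.mem_ball.mpr (by linarith : dist x x₀ < ρ))
      have hyU := hρU (Metric.mem_ball.mpr (by
        have h4 := dist_triangle y x x₀
        rw [dist_comm y x] at h4
        have h5 : dist x y < ρ / 2 := lt_of_lt_of_le hy (min_le_left _ _)
        linarith : dist y x₀ < ρ))
      have h4 := h1 x hxU.1 y hyU.1
      have h5 := h3 _ hyU.2.2 _ hxU.2.2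
      have hex : hatMap e x₀ (extChartAt 𝓘(ℝ, E₀) x₀ x) = e x := by
        show e ((extChartAt 𝓘(ℝ, E₀) x₀).symm (extChartAt 𝓘(ℝ, E₀) x₀ x)) = e x
        rw [(extChartAt 𝓘(ℝ, E₀) x₀).left_inv hxU.2.1]
      have hey : hatMap e x₀ (extChartAt 𝓘(ℝ, E₀) x₀ y) = e y := by
        show e ((extChartAt 𝓘(ℝ, E₀) x₀).symm (extChartAt 𝓘(ℝ, E₀) x₀ y)) = e y
        rw [(extChartAt 𝓘(ℝ, E₀) x₀).left_inv hyU.2.1]
      rw [hex, hey, ← hiso] at h5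
      calc |ψ x - ψ y| ≤ C * ‖extChartAt 𝓘(ℝ, E₀) x₀ x - extChartAt 𝓘(ℝ, E₀) x₀ y‖ ^ α := h4
        _ ≤ C' * ‖extChartAt 𝓘(ℝ, E₀) x₀ x - extChartAt 𝓘(ℝ, E₀) x₀ y‖ ^ α :=
            mul_le_mul_of_nonneg_right hC' (Real.rpow_nonneg (norm_nonneg _) _)
        _ ≤ C' * (K * dist x y) ^ α :=
            mul_le_mul_of_nonneg_left (Real.rpow_le_rpow (norm_nonneg _) h5 hα.le) hC'0
        _ = C' * K ^ α * dist x y ^ α := by rw [Real.mul_rpow hK.le dist_nonneg]; ring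
        _ ≤ 1 / min (ρ / 2) (1 / Q) * dist x y ^ α :=
            mul_le_mul_of_nonneg_right (hQ.trans hQc) (Real.rpow_nonneg dist_nonneg _))
  exact ⟨1 / c, c, α, by positivity, hc, hα, hα1, fun x y hxy => h x y hxy⟩

/-- the logarithm of the volume factor of a `C^{1+α}` map -/
theorem logjac_holder {e : M → F} (he : ContMDiff 𝓘(ℝ, E₀) 𝓘(ℝ, F) 2 e)
    (hinj : ∀ x, Function.Injective (dm E₀ e x)) (G G' : M → M)
    (hG : ContMDiff 𝓘(ℝ, E₀) 𝓘(ℝ, E₀) 1 G) (hG' : ContMDiff 𝓘(ℝ, E₀) 𝓘(ℝ, E₀) 1 G')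
    (hGG : ∀ x, G' (G x) = x) {α : ℝ} (hα : 0 < α) (hα1 : α ≤ 1) (hD : DerivHolder E₀ α G) :
    LocHolder E₀ α (fun x => Real.log (Jac E₀ e G x)) := by
  intro x₀
  have he1 : ContMDiff 𝓘(ℝ, E₀) 𝓘(ℝ, F) 1 e := he.of_le (by norm_num)
  have heG1 : ContMDiff 𝓘(ℝ, E₀) 𝓘(ℝ, F) 1 (e ∘ G) := he1.comp hG
  have hinjG : ∀ x, Function.Injective (dm E₀ (e ∘ G) x) := by
    intro x v w hvw
    rw [dm_comp e he1 G hG, dm_comp e he1 G hG] at hvw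
    have h3 := hinj _ hvw
    have h4 := congrArg (dg E₀ G' (G x)) h3
    rwa [dg_inv G G' hG hG' hGG, dg_inv G G' hG hG' hGG] at h4
  obtain ⟨U, hU, C, hC⟩ := hD x₀
  obtain ⟨r₁, hr₁, K₁, hK₁, a1, a2, -⟩ := unif_inj e he1 hinj x₀
  obtain ⟨r₂, hr₂, K₂, hK₂, b1, b2, -⟩ := unif_inj (e ∘ G) heG1 hinjG x₀
  obtain ⟨u₀, hu₀⟩ : ∃ u₀, u₀ = extChartAt 𝓘(ℝ, E₀) x₀ x₀ := ⟨_, rfl⟩
  have hu₀t : u₀ ∈ (extChartAt 𝓘(ℝ, E₀) x₀).target := by rw [hu₀]; exact mem_extChartAt_target x₀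
  obtain ⟨h, hh⟩ : ∃ h : E₀ → E₀, h = writtenInExtChartAt 𝓘(ℝ, E₀) 𝓘(ℝ, E₀) x₀ G := ⟨_, rfl⟩
  have hh' : h = extChartAt 𝓘(ℝ, E₀) (G x₀) ∘ G ∘ (extChartAt 𝓘(ℝ, E₀) x₀).symm := hh
  rw [← hh] at hC
  rw [← hu₀] at hU a2 b2 a1 b1
  have hhu₀ : h u₀ = extChartAt 𝓘(ℝ, E₀) (G x₀) (G x₀) := by
    rw [hh', hu₀]
    simp only [Function.comp_apply]
    rw [extChartAt_to_inv]
  -- smoothness of `h` and of the two charts of `e`
  have hhd : ContDiffAt ℝ 1 h u₀ := by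
    rw [← contMDiffAt_iff_contDiffAt, hh']
    have hsym : ContMDiffAt 𝓘(ℝ, E₀) 𝓘(ℝ, E₀) 1 (extChartAt 𝓘(ℝ, E₀) x₀).symm u₀ :=
      (contMDiffOn_extChartAt_symm (n := 1) x₀).contMDiffAt
        ((isOpen_extChartAt_target x₀).mem_nhds hu₀t)
    have hφ1 : ContMDiffAt 𝓘(ℝ, E₀) 𝓘(ℝ, E₀) 1 (extChartAt 𝓘(ℝ, E₀) (G x₀))
        (G ((extChartAt 𝓘(ℝ, E₀) x₀).symm u₀)) := by
      rw [hu₀, extChartAt_to_inv]
      exact contMDiffAt_extChartAt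
    exact hφ1.comp u₀ (hG.contMDiffAt.comp u₀ hsym)
  have hcd2 : ∀ y₀ : M, ∀ u ∈ (extChartAt 𝓘(ℝ, E₀) y₀).target,
      ContDiffAt ℝ 1 (fderiv ℝ (hatMap e y₀)) u := by
    intro y₀ u hu
    have h1 : ContDiffAt ℝ 2 (hatMap e y₀) u := by
      rw [← contMDiffAt_iff_contDiffAt]
      have h1 : ContMDiffOn 𝓘(ℝ, E₀) 𝓘(ℝ, E₀) 2 (extChartAt 𝓘(ℝ, E₀) y₀).symm
          (extChartAt 𝓘(ℝ, E₀) y₀).target := contMDiffOn_extChartAt_symm y₀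
      have h2 : ContMDiffAt 𝓘(ℝ, E₀) 𝓘(ℝ, E₀) 2 (extChartAt 𝓘(ℝ, E₀) y₀).symm u :=
        h1.contMDiffAt ((isOpen_extChartAt_target y₀).mem_nhds hu)
      exact ContMDiffAt.comp u he.contMDiffAt h2
    exact h1.fderiv_right (m := 1) (by norm_num)
  obtain ⟨L₀, t₀, ht₀, hL₀⟩ := (hcd2 x₀ u₀ hu₀t).exists_lipschitzOnWith
  have hhu₀t : h u₀ ∈ (extChartAt 𝓘(ℝ, E₀) (G x₀)).target := by
    rw [hhu₀]; exact mem_extChartAt_target (G x₀)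
  obtain ⟨L₁, t₁, ht₁, hL₁⟩ := (hcd2 (G x₀) (h u₀) hhu₀t).exists_lipschitzOnWith
  obtain ⟨L₂, t₂, ht₂, hL₂⟩ := hhd.exists_lipschitzOnWith
  -- bounds
  have hbd1 : ∀ᶠ u in 𝓝 u₀, ‖fderiv ℝ h u‖ ≤ ‖fderiv ℝ h u₀‖ + 1 := by
    have h1 : ContinuousAt (fderiv ℝ h) u₀ :=
      (hhd.fderiv_right (m := 0) (by norm_num)).continuousAt
    have h2 := h1.norm.eventually (ge_mem_nhds (lt_add_one ‖fderiv ℝ h u₀‖))
    exact h2
  have hbd2 : ∀ᶠ u in 𝓝 u₀, ‖fderiv ℝ (hatMap e (G x₀)) (h u)‖ ≤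
      ‖fderiv ℝ (hatMap e (G x₀)) (h u₀)‖ + 1 := by
    have h1 : ContinuousAt (fun u => fderiv ℝ (hatMap e (G x₀)) (h u)) u₀ :=
      ContinuousAt.comp (f := h) (g := fderiv ℝ (hatMap e (G x₀)))
        (hcd2 (G x₀) (h u₀) hhu₀t).continuousAt hhd.continuousAt
    exact h1.norm.eventually (ge_mem_nhds (lt_add_one _))
  have hsrc : ∀ᶠ u in 𝓝 u₀, G ((extChartAt 𝓘(ℝ, E₀) x₀).symm u) ∈
      (extChartAt 𝓘(ℝ, E₀) (G x₀)).source := by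
    have h1 : ContinuousAt (fun u => G ((extChartAt 𝓘(ℝ, E₀) x₀).symm u)) u₀ := by
      have h2 : ContinuousAt (extChartAt 𝓘(ℝ, E₀) x₀).symm u₀ := by
        rw [hu₀]; exact continuousAt_extChartAt_symm x₀
      exact ContinuousAt.comp hG.continuous.continuousAt h2
    apply h1.preimage_mem_nhds
    rw [hu₀, extChartAt_to_inv]
    exact extChartAt_source_mem_nhds (G x₀)
  have hall : ∀ᶠ u in 𝓝 u₀, u ∈ U ∧ u ∈ ball u₀ r₁ ∧ u ∈ ball u₀ r₂ ∧ u ∈ t₀ ∧ h u ∈ t₁ ∧ u ∈ t₂ ∧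
      ‖fderiv ℝ h u‖ ≤ ‖fderiv ℝ h u₀‖ + 1 ∧
      ‖fderiv ℝ (hatMap e (G x₀)) (h u)‖ ≤ ‖fderiv ℝ (hatMap e (G x₀)) (h u₀)‖ + 1 ∧
      G ((extChartAt 𝓘(ℝ, E₀) x₀).symm u) ∈ (extChartAt 𝓘(ℝ, E₀) (G x₀)).source ∧ dist u u₀ < 1 / 2 := by
    filter_upwards [hU, ball_mem_nhds u₀ hr₁, ball_mem_nhds u₀ hr₂, ht₀,
      hhd.continuousAt.preimage_mem_nhds ht₁, ht₂, hbd1, hbd2, hsrc,
      ball_mem_nhds u₀ (by norm_num : (0:ℝ) < 1 / 2)] with u c1 c2 c3 c4 c5 c6 c7 c8 c9 c10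
    exact ⟨c1, c2, c3, c4, c5, c6, c7, c8, c9, c10⟩
  obtain ⟨Z, hZ⟩ : ∃ Z : Set E₀, Z = {u | u ∈ U ∧ u ∈ ball u₀ r₁ ∧ u ∈ ball u₀ r₂ ∧ u ∈ t₀ ∧
      h u ∈ t₁ ∧ u ∈ t₂ ∧
      ‖fderiv ℝ h u‖ ≤ ‖fderiv ℝ h u₀‖ + 1 ∧
      ‖fderiv ℝ (hatMap e (G x₀)) (h u)‖ ≤ ‖fderiv ℝ (hatMap e (G x₀)) (h u₀)‖ + 1 ∧
      G ((extChartAt 𝓘(ℝ, E₀) x₀).symm u) ∈ (extChartAt 𝓘(ℝ, E₀) (G x₀)).source ∧ dist u u₀ < 1 / 2} :=
    ⟨_, rfl⟩
  have hZn : Z ∈ 𝓝 u₀ := by rw [hZ]; exact hall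
  obtain ⟨B₁, hB₁⟩ : ∃ B₁, B₁ = ‖fderiv ℝ h u₀‖ + 1 := ⟨_, rfl⟩
  obtain ⟨B₂, hB₂⟩ : ∃ B₂, B₂ = ‖fderiv ℝ (hatMap e (G x₀)) (h u₀)‖ + 1 := ⟨_, rfl⟩
  have hB₁0 : 0 ≤ B₁ := by rw [hB₁]; positivity
  have hB₂0 : 0 ≤ B₂ := by rw [hB₂]; positivity
  obtain ⟨C', hC', hC'0⟩ : ∃ C', C ≤ C' ∧ 0 ≤ C' := ⟨max C 0, le_max_left _ _, le_max_right _ _⟩
  obtain ⟨d, hd⟩ : ∃ d : ℝ, d = finrank ℝ E₀ := ⟨_, rfl⟩
  have hd0 : 0 ≤ d := by rw [hd]; exact Nat.cast_nonneg _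
  refine ⟨(extChartAt 𝓘(ℝ, E₀) x₀).source ∩ (extChartAt 𝓘(ℝ, E₀) x₀) ⁻¹' Z, ?_,
    d * K₂ * (L₁ * L₂ * B₁ + B₂ * C') + d * K₁ * L₀, ?_⟩
  · apply inter_mem (extChartAt_source_mem_nhds x₀)
    apply (continuousAt_extChartAt x₀).preimage_mem_nhds
    rw [← hu₀]; exact hZn
  rintro x ⟨hxs, hxZ⟩ y ⟨hys, hyZ⟩
  obtain ⟨u, hu⟩ : ∃ u, u = extChartAt 𝓘(ℝ, E₀) x₀ x := ⟨_, rfl⟩
  obtain ⟨v, hv⟩ : ∃ v, v = extChartAt 𝓘(ℝ, E₀) x₀ y := ⟨_, rfl⟩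
  rw [mem_preimage, ← hu, hZ] at hxZ
  rw [mem_preimage, ← hv, hZ] at hyZ
  obtain ⟨c1, c2, c3, c4, c5, c6, c7, c8, c9, c10⟩ := hxZ
  obtain ⟨d1, d2, d3, d4, d5, d6, d7, d8, d9, d10⟩ := hyZ
  rw [← hB₁] at c7 d7
  rw [← hB₂] at c8 d8
  have hpos := (jac_pos e he1 hinj G G' hG hG' hGG)
  have hvfpos : ∀ w ∈ ball u₀ r₁, 0 < vf (fderiv ℝ (hatMap e x₀) w).toLinearMap := by
    intro w hw
    exact vf_pos _ (by
      intro a b hab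
      have h1 := a2 w hw (a - b)
      have h2 : fderiv ℝ (hatMap e x₀) w (a - b) = 0 := by
        rw [map_sub]; exact sub_eq_zero.2 hab
      rw [h2, norm_zero, mul_zero] at h1
      exact sub_eq_zero.1 (norm_le_zero_iff.1 h1))
  have hvfpos' : ∀ w ∈ ball u₀ r₂, 0 < vf (fderiv ℝ (hatMap (e ∘ G) x₀) w).toLinearMap := by
    intro w hw
    exact vf_pos _ (by
      intro a b hab
      have h1 := b2 w hw (a - b)
      have h2 : fderiv ℝ (hatMap (e ∘ G) x₀) w (a - b) = 0 := by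
        rw [map_sub]; exact sub_eq_zero.2 hab
      rw [h2, norm_zero, mul_zero] at h1
      exact sub_eq_zero.1 (norm_le_zero_iff.1 h1))
  beta_reduce
  rw [jac_hat e he1 hinj G hG x₀ x hxs, jac_hat e he1 hinj G hG x₀ y hys, ← hu, ← hv,
    Real.log_div (hvfpos' u c3).ne' (hvfpos u c2).ne', Real.log_div (hvfpos' v d3).ne' (hvfpos v d2).ne']
  -- the two estimates
  have hud : dist u v ≤ 1 := by
    have := dist_triangle_right u v u₀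
    linarith
  have hpow : ‖u - v‖ ≤ ‖u - v‖ ^ α := by
    rw [← dist_eq_norm]
    have := Real.rpow_le_rpow_of_exponent_ge' (dist_nonneg (x := u) (y := v)) hud hα.le hα1
    rwa [Real.rpow_one] at this
  have est1 := logvf_lip (fderiv ℝ (hatMap e x₀) u) (fderiv ℝ (hatMap e x₀) v) K₁ hK₁.le
    (a2 u c2) (a2 v d2)
  have est2 := logvf_lip (fderiv ℝ (hatMap (e ∘ G) x₀) u) (fderiv ℝ (hatMap (e ∘ G) x₀) v) K₂ hK₂.le
    (b2 u c3) (b2 v d3)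
  have n1 : ‖fderiv ℝ (hatMap e x₀) u - fderiv ℝ (hatMap e x₀) v‖ ≤ L₀ * ‖u - v‖ := by
    have := hL₀.dist_le_mul u c4 v d4
    rwa [dist_eq_norm, dist_eq_norm] at this
  have hchain : ∀ w ∈ ball u₀ r₂, G ((extChartAt 𝓘(ℝ, E₀) x₀).symm w) ∈
      (extChartAt 𝓘(ℝ, E₀) (G x₀)).source → fderiv ℝ (hatMap (e ∘ G) x₀) w =
      (fderiv ℝ (hatMap e (G x₀)) (h w)).comp (fderiv ℝ h w) := by
    intro w hw hws
    obtain ⟨hd1, -⟩ := det_formula e he1 hinj G hG x₀ (G x₀) w (b1 hw) hws h hh'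
    have hsymc : ContinuousAt (extChartAt 𝓘(ℝ, E₀) x₀).symm w :=
      ((contMDiffOn_extChartAt_symm (n := 1) x₀).contMDiffAt
        ((isOpen_extChartAt_target x₀).mem_nhds (b1 hw))).continuousAt
    have hev : hatMap e (G x₀) ∘ h =ᶠ[𝓝 w] hatMap (e ∘ G) x₀ := by
      have h1 : ContinuousAt (G ∘ (extChartAt 𝓘(ℝ, E₀) x₀).symm) w :=
        hG.continuous.continuousAt.comp hsymc
      have h2 : (extChartAt 𝓘(ℝ, E₀) (G x₀)).source ∈ 𝓝 ((G ∘ (extChartAt 𝓘(ℝ, E₀) x₀).symm) w) :=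
        (isOpen_extChartAt_source (G x₀)).mem_nhds hws
      filter_upwards [h1.preimage_mem_nhds h2] with w' hw'
      have h3 : G ((extChartAt 𝓘(ℝ, E₀) x₀).symm w') ∈ (extChartAt 𝓘(ℝ, E₀) (G x₀)).source := hw'
      rw [hh']
      show e ((extChartAt 𝓘(ℝ, E₀) (G x₀)).symm (extChartAt 𝓘(ℝ, E₀) (G x₀)
        (G ((extChartAt 𝓘(ℝ, E₀) x₀).symm w')))) = e (G ((extChartAt 𝓘(ℝ, E₀) x₀).symm w'))
      rw [(extChartAt 𝓘(ℝ, E₀) (G x₀)).left_inv h3]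
    have hhw : h w ∈ (extChartAt 𝓘(ℝ, E₀) (G x₀)).target := by
      rw [hh']
      exact (extChartAt 𝓘(ℝ, E₀) (G x₀)).map_source hws
    have hdiff1 : DifferentiableAt ℝ (hatMap e (G x₀)) (h w) :=
      (hatMap_contDiffAt e he1 (G x₀) (h w) hhw).differentiableAt (by norm_num)
    rw [← hev.fderiv_eq]
    exact fderiv_comp w hdiff1 hd1
  have n2 : ‖fderiv ℝ (hatMap (e ∘ G) x₀) u - fderiv ℝ (hatMap (e ∘ G) x₀) v‖ ≤
      (L₁ * L₂ * B₁ + B₂ * C') * ‖u - v‖ ^ α := by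
    rw [hchain u c3 c9, hchain v d3 d9]
    have e1 : (fderiv ℝ (hatMap e (G x₀)) (h u)).comp (fderiv ℝ h u) -
        (fderiv ℝ (hatMap e (G x₀)) (h v)).comp (fderiv ℝ h v) =
        (fderiv ℝ (hatMap e (G x₀)) (h u) - fderiv ℝ (hatMap e (G x₀)) (h v)).comp (fderiv ℝ h u) +
        (fderiv ℝ (hatMap e (G x₀)) (h v)).comp (fderiv ℝ h u - fderiv ℝ h v) := by
      ext w
      simp
    rw [e1]
    have k1 : ‖fderiv ℝ (hatMap e (G x₀)) (h u) - fderiv ℝ (hatMap e (G x₀)) (h v)‖ ≤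
        L₁ * (L₂ * ‖u - v‖) := by
      have k2 := hL₁.dist_le_mul (h u) c5 (h v) d5
      have k3 := hL₂.dist_le_mul u c6 v d6
      rw [dist_eq_norm] at k2
      rw [dist_eq_norm u v] at k3
      exact k2.trans (mul_le_mul_of_nonneg_left k3 L₁.2)
    have k4 : ‖fderiv ℝ h u - fderiv ℝ h v‖ ≤ C' * ‖u - v‖ ^ α :=
      (hC u c1 v d1).trans (mul_le_mul_of_nonneg_right hC' (Real.rpow_nonneg (norm_nonneg _) _))
    have hL1' : (0 : ℝ) ≤ L₁ := L₁.2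
    have hL2' : (0 : ℝ) ≤ L₂ := L₂.2
    calc _ ≤ ‖(fderiv ℝ (hatMap e (G x₀)) (h u) - fderiv ℝ (hatMap e (G x₀)) (h v)).comp (fderiv ℝ h u)‖ +
          ‖(fderiv ℝ (hatMap e (G x₀)) (h v)).comp (fderiv ℝ h u - fderiv ℝ h v)‖ := norm_add_le _ _
      _ ≤ (L₁ * (L₂ * ‖u - v‖)) * B₁ + B₂ * (C' * ‖u - v‖ ^ α) := by
          apply add_le_add
          · refine (ContinuousLinearMap.opNorm_comp_le _ _).trans ?_
            exact mul_le_mul k1 c7 (norm_nonneg _) (by positivity)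
          · refine (ContinuousLinearMap.opNorm_comp_le _ _).trans ?_
            exact mul_le_mul d8 k4 (norm_nonneg _) hB₂0
      _ ≤ (L₁ * (L₂ * ‖u - v‖ ^ α)) * B₁ + B₂ * (C' * ‖u - v‖ ^ α) := by gcongr
      _ = _ := by ring
  rw [← hd] at est1 est2
  have m1 : d * K₁ * ‖fderiv ℝ (hatMap e x₀) u - fderiv ℝ (hatMap e x₀) v‖ ≤
      d * K₁ * (L₀ * ‖u - v‖ ^ α) := by
    apply mul_le_mul_of_nonneg_left _ (by positivity)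
    exact n1.trans (mul_le_mul_of_nonneg_left hpow L₀.2)
  have m2 : d * K₂ * ‖fderiv ℝ (hatMap (e ∘ G) x₀) u - fderiv ℝ (hatMap (e ∘ G) x₀) v‖ ≤
      d * K₂ * ((L₁ * L₂ * B₁ + B₂ * C') * ‖u - v‖ ^ α) :=
    mul_le_mul_of_nonneg_left n2 (by positivity)
  rw [abs_le] at est1 est2
  rw [abs_le]
  constructor <;> linarith [est1.1, est1.2, est2.1, est2.2]

end glob

end Pool.Agent.V7H6.AD
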