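import Pool.Agent.V7H6.AD.D

/-! The volume measure of an immersed closed manifold. -/

set_option autoImplicit false
set_option linter.unusedSectionVars false

open scoped Manifold ContDiff Topology ENNReal
open Set Filter MeasureTheory Metric Module

namespace Pool.Agent.V7H6.AD

open Pool.Agent.H721R2

section vfcont

variable {E₀ : Type*} [NormedAddCommGroup E₀] [NormedSpace ℝ E₀] [FiniteDimensional ℝ E₀]
  {F : Type*} [NormedAddCommGroup F] [InnerProductSpace ℝ F] [FiniteDimensional ℝ F]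

theorem vf_cont : Continuous (fun A : E₀ →L[ℝ] F => vf A.toLinearMap) := by
  obtain ⟨b, hb⟩ : ∃ b : OrthonormalBasis (Fin (finrank ℝ E₀)) ℝ
      (EuclideanSpace ℝ (Fin (finrank ℝ E₀))), b = EuclideanSpace.basisFun _ _ := ⟨_, rfl⟩
  have h1 : ∀ A : E₀ →L[ℝ] F, vf A.toLinearMap =
      Real.sqrt (Matrix.gram ℝ (fun i => A (io E₀ (b i)))).det := by
    intro A
    have h2 := LinearMap.normDet_sq_eq_det_gram
      (A.toLinearMap ∘ₗ (io E₀).toLinearEquiv.toLinearMap) b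
    have h3 : (vf A.toLinearMap) ^ 2 = (Matrix.gram ℝ (fun i => A (io E₀ (b i)))).det := by
      unfold vf
      exact_mod_cast h2
    rw [← h3, Real.sqrt_sq]
    unfold vf
    exact LinearMap.normDet_nonneg _
  rw [funext h1]
  apply Real.continuous_sqrt.comp
  apply Continuous.matrix_det
  apply continuous_matrix
  intro i j
  have : (fun A : E₀ →L[ℝ] F => Matrix.gram ℝ (fun i => A (io E₀ (b i))) i j) =
      fun A : E₀ →L[ℝ] F => inner ℝ (A (io E₀ (b i))) (A (io E₀ (b j))) := by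
    ext A
    rw [Matrix.gram_apply]
  rw [this]
  exact ((ContinuousLinearMap.apply ℝ F (io E₀ (b i))).continuous).inner
    ((ContinuousLinearMap.apply ℝ F (io E₀ (b j))).continuous)

end vfcont

variable {E₀ : Type*} [NormedAddCommGroup E₀] [NormedSpace ℝ E₀] [FiniteDimensional ℝ E₀]
  {M : Type*} [TopologicalSpace M] [ChartedSpace E₀ M] [IsManifold 𝓘(ℝ, E₀) 1 M]
  {F : Type*} [NormedAddCommGroup F] [InnerProductSpace ℝ F] [FiniteDimensional ℝ F]

/-- density of the volume in the chart -/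
noncomputable def rho (e : M → F) (x₀ : M) (u : E₀) : ℝ := vf (fderiv ℝ (hatMap e x₀) u).toLinearMap

theorem rho_cont (e : M → F) (he : ContMDiff 𝓘(ℝ, E₀) 𝓘(ℝ, F) 1 e) (x₀ : M) :
    ContinuousOn (rho e x₀ : E₀ → ℝ) (extChartAt 𝓘(ℝ, E₀) x₀).target := by
  have h1 : ContDiffOn ℝ 1 (hatMap e x₀ : E₀ → F) (extChartAt 𝓘(ℝ, E₀) x₀).target := fun u hu =>
    (hatMap_contDiffAt e he x₀ u hu).contDiffWithinAt
  have h2 := h1.continuousOn_fderiv_of_isOpen (isOpen_extChartAt_target x₀) le_rfl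
  exact vf_cont.comp_continuousOn h2

theorem rho_pos (e : M → F) (he : ContMDiff 𝓘(ℝ, E₀) 𝓘(ℝ, F) 1 e)
    (hinj : ∀ x, Function.Injective (dm E₀ e x)) (x₀ : M) (u : E₀)
    (hu : u ∈ (extChartAt 𝓘(ℝ, E₀) x₀).target) : 0 < rho e x₀ u := by
  have hxs : (extChartAt 𝓘(ℝ, E₀) x₀).symm u ∈ (extChartAt 𝓘(ℝ, E₀) x₀).source :=
    (extChartAt 𝓘(ℝ, E₀) x₀).map_target hu
  have hxu : extChartAt 𝓘(ℝ, E₀) x₀ ((extChartAt 𝓘(ℝ, E₀) x₀).symm u) = u :=
    (extChartAt 𝓘(ℝ, E₀) x₀).right_inv hu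
  set x := (extChartAt 𝓘(ℝ, E₀) x₀).symm u with hx
  have he1 : (dm E₀ e x).toLinearMap = (fderiv ℝ (hatMap e x₀) u).toLinearMap ∘ₗ
      (dm E₀ (extChartAt 𝓘(ℝ, E₀) x₀) x).toLinearMap := by
    ext v
    have := hatMap_mfderiv e he x₀ x hxs v
    rw [hxu] at this
    exact this
  have h1 := vf_pos _ (hinj x : Function.Injective (dm E₀ e x).toLinearMap)
  have h2 : vf (dm E₀ e x).toLinearMap = rho e x₀ u *
      |((dm E₀ (extChartAt 𝓘(ℝ, E₀) x₀) x).toLinearMap : E₀ →ₗ[ℝ] E₀).det| := by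
    have h3 : (dm E₀ e x).toLinearMap = (fderiv ℝ (hatMap e x₀) u).toLinearMap ∘ₗ
      ((dm E₀ (extChartAt 𝓘(ℝ, E₀) x₀) x).toLinearMap : E₀ →ₗ[ℝ] E₀) := he1
    rw [h3, vf_comp]
    rfl
  rw [h2] at h1
  by_contra hcon
  have := mul_nonpos_of_nonpos_of_nonneg (not_lt.1 hcon)
    (abs_nonneg ((dm E₀ (extChartAt 𝓘(ℝ, E₀) x₀) x).toLinearMap : E₀ →ₗ[ℝ] E₀).det)
  linarith

section cm

variable [MeasurableSpace E₀] [BorelSpace E₀] [MeasurableSpace M] [BorelSpace M]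

open Classical in
/-- the inverse of the chart, extended by a constant -/
noncomputable def sg (x₀ : M) : E₀ → M :=
  (extChartAt 𝓘(ℝ, E₀) x₀).target.piecewise (extChartAt 𝓘(ℝ, E₀) x₀).symm (fun _ => x₀)

open Classical in
/-- the density, extended by zero -/
noncomputable def rh (e : M → F) (x₀ : M) : E₀ → ℝ≥0∞ :=
  (extChartAt 𝓘(ℝ, E₀) x₀).target.piecewise (fun u => ENNReal.ofReal (rho e x₀ u)) (fun _ => 0)

theorem target_meas (x₀ : M) : MeasurableSet (extChartAt 𝓘(ℝ, E₀) x₀).target :=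
  (isOpen_extChartAt_target (I := 𝓘(ℝ, E₀)) x₀).measurableSet

theorem sg_meas (x₀ : M) : Measurable (sg x₀ : E₀ → M) := by
  classical
  unfold sg
  exact (continuousOn_extChartAt_symm x₀).measurable_piecewise continuousOn_const (target_meas x₀)

theorem rh_meas (e : M → F) (he : ContMDiff 𝓘(ℝ, E₀) 𝓘(ℝ, F) 1 e) (x₀ : M) :
    Measurable (rh e x₀ : E₀ → ℝ≥0∞) := by
  classical
  unfold rh
  exact (ENNReal.continuous_ofReal.comp_continuousOn (rho_cont e he x₀)).measurable_piecewise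
    continuousOn_const (target_meas x₀)

theorem sg_of_mem (x₀ : M) {u : E₀} (hu : u ∈ (extChartAt 𝓘(ℝ, E₀) x₀).target) :
    sg x₀ u = (extChartAt 𝓘(ℝ, E₀) x₀).symm u := by
  classical
  exact piecewise_eq_of_mem _ _ _ hu

theorem rh_of_mem (e : M → F) (x₀ : M) {u : E₀} (hu : u ∈ (extChartAt 𝓘(ℝ, E₀) x₀).target) :
    rh e x₀ u = ENNReal.ofReal (rho e x₀ u) := by
  classical
  exact piecewise_eq_of_mem _ _ _ hu

theorem rh_of_notMem (e : M → F) (x₀ : M) {u : E₀} (hu : u ∉ (extChartAt 𝓘(ℝ, E₀) x₀).target) :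
    rh e x₀ u = 0 := by
  classical
  exact piecewise_eq_of_notMem _ _ _ hu

/-- the volume measure of one chart -/
noncomputable def cm (μ : Measure E₀) (e : M → F) (x₀ : M) : Measure M :=
  (μ.withDensity (rh e x₀)).map (sg x₀)

/-- the part of the target over a set -/
def TT (E₀ : Type*) [NormedAddCommGroup E₀] [NormedSpace ℝ E₀] {M : Type*} [TopologicalSpace M]
    [ChartedSpace E₀ M] (x₀ : M) (D : Set M) : Set E₀ :=
  (extChartAt 𝓘(ℝ, E₀) x₀).target ∩ (extChartAt 𝓘(ℝ, E₀) x₀).symm ⁻¹' D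

theorem TT_meas (x₀ : M) {D : Set M} (hD : MeasurableSet D) : MeasurableSet (TT E₀ x₀ D) := by
  have : TT E₀ x₀ D = (extChartAt 𝓘(ℝ, E₀) x₀).target ∩ (sg x₀) ⁻¹' D := by
    ext u
    constructor
    · rintro ⟨h1, h2⟩
      exact ⟨h1, by rw [mem_preimage, sg_of_mem x₀ h1]; exact h2⟩
    · rintro ⟨h1, h2⟩
      rw [mem_preimage, sg_of_mem x₀ h1] at h2
      exact ⟨h1, h2⟩
  rw [this]
  exact (target_meas x₀).inter (sg_meas x₀ hD)

theorem TT_eq_image (x₀ : M) {D : Set M} (hD : D ⊆ (extChartAt 𝓘(ℝ, E₀) x₀).source) :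
    TT E₀ x₀ D = extChartAt 𝓘(ℝ, E₀) x₀ '' D :=
  ((extChartAt 𝓘(ℝ, E₀) x₀).image_eq_target_inter_inv_preimage hD).symm

theorem cm_lint (μ : Measure E₀) (e : M → F) (he : ContMDiff 𝓘(ℝ, E₀) 𝓘(ℝ, F) 1 e) (x₀ : M)
    (h : M → ℝ≥0∞) (hh : Measurable h) (D : Set M) (hD : MeasurableSet D) :
    ∫⁻ x in D, h x ∂(cm μ e x₀) = ∫⁻ u in TT E₀ x₀ D, ENNReal.ofReal (rho e x₀ u) *
      h ((extChartAt 𝓘(ℝ, E₀) x₀).symm u) ∂μ := by
  have h0 := setLIntegral_withDensity_eq_setLIntegral_mul μ (rh_meas e he x₀) (hh.comp (sg_meas x₀))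
      (sg_meas x₀ hD)
  have h0' : ∫⁻ u in sg x₀ ⁻¹' D, h (sg x₀ u) ∂(μ.withDensity (rh e x₀)) =
      ∫⁻ u in sg x₀ ⁻¹' D, rh e x₀ u * h (sg x₀ u) ∂μ := h0
  rw [cm, setLIntegral_map hD hh (sg_meas x₀), h0', ← lintegral_indicator (sg_meas x₀ hD),
    ← lintegral_indicator (TT_meas x₀ hD)]
  congr 1
  ext u
  by_cases hu : u ∈ (extChartAt 𝓘(ℝ, E₀) x₀).target
  · by_cases hu2 : (extChartAt 𝓘(ℝ, E₀) x₀).symm u ∈ D
    · rw [indicator_of_mem (show u ∈ TT E₀ x₀ D from ⟨hu, hu2⟩), indicator_of_mem (by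
        rw [mem_preimage, sg_of_mem x₀ hu]; exact hu2), rh_of_mem e x₀ hu, sg_of_mem x₀ hu]
    · rw [indicator_of_notMem (s := TT E₀ x₀ D) (fun h3 => hu2 h3.2),
        indicator_of_notMem (s := sg x₀ ⁻¹' D) (by
        rw [mem_preimage, sg_of_mem x₀ hu]; exact hu2)]
  · rw [indicator_of_notMem (s := TT E₀ x₀ D) (fun h3 => hu h3.1)]
    by_cases hu2 : u ∈ sg x₀ ⁻¹' D
    · rw [indicator_of_mem hu2, rh_of_notMem e x₀ hu, zero_mul]
    · rw [indicator_of_notMem hu2]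

theorem cm_apply (μ : Measure E₀) (e : M → F) (he : ContMDiff 𝓘(ℝ, E₀) 𝓘(ℝ, F) 1 e) (x₀ : M)
    (D : Set M) (hD : MeasurableSet D) :
    cm μ e x₀ D = ∫⁻ u in TT E₀ x₀ D, ENNReal.ofReal (rho e x₀ u) ∂μ := by
  have := cm_lint μ e he x₀ (fun _ => 1) measurable_const D hD
  simpa using this

/-- change of variables -/
theorem cm_change (μ : Measure E₀) [μ.IsAddHaarMeasure] (e : M → F)
    (he : ContMDiff 𝓘(ℝ, E₀) 𝓘(ℝ, F) 1 e)
    (hinj : ∀ x, Function.Injective (dm E₀ e x)) (G : M → M) (hG : ContMDiff 𝓘(ℝ, E₀) 𝓘(ℝ, E₀) 1 G)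
    (hGi : Function.Injective G) (hJ : Measurable (fun x => Jac E₀ e G x)) (x₀ x₁ : M) (D : Set M)
    (hD : MeasurableSet D) (hGD : MeasurableSet (G '' D)) (h0 : D ⊆ (extChartAt 𝓘(ℝ, E₀) x₀).source)
    (h1 : G '' D ⊆ (extChartAt 𝓘(ℝ, E₀) x₁).source) :
    cm μ e x₁ (G '' D) = ∫⁻ x in D, ENNReal.ofReal (Jac E₀ e G x) ∂(cm μ e x₀) := by
  rw [cm_lint μ e he x₀ _ hJ.ennreal_ofReal D hD, cm_apply μ e he x₁ _ hGD]
  obtain ⟨h, hh⟩ : ∃ h : E₀ → E₀, h = extChartAt 𝓘(ℝ, E₀) x₁ ∘ G ∘ (extChartAt 𝓘(ℝ, E₀) x₀).symm :=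
    ⟨_, rfl⟩
  have himg : TT E₀ x₁ (G '' D) = h '' (TT E₀ x₀ D) := by
    rw [TT_eq_image x₁ h1, TT_eq_image x₀ h0, hh, image_comp, image_comp]
    congr 1
    congr 1
    rw [← image_comp]
    ext x
    constructor
    · intro hx
      exact ⟨x, hx, (extChartAt 𝓘(ℝ, E₀) x₀).left_inv (h0 hx)⟩
    · rintro ⟨y, hy, rfl⟩
      simp only [Function.comp_apply]
      rw [(extChartAt 𝓘(ℝ, E₀) x₀).left_inv (h0 hy)]
      exact hy
  have hdf : ∀ u ∈ TT E₀ x₀ D, DifferentiableAt ℝ h u ∧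
      rho e x₁ (h u) * |(fderiv ℝ h u).det| =
      Jac E₀ e G ((extChartAt 𝓘(ℝ, E₀) x₀).symm u) * rho e x₀ u := fun u hu =>
    det_formula e he hinj G hG x₀ x₁ u hu.1 (h1 ⟨_, hu.2, rfl⟩) h hh
  have hinjh : InjOn h (TT E₀ x₀ D) := by
    intro u hu u' hu' he'
    rw [hh] at he'
    have h2 : G ((extChartAt 𝓘(ℝ, E₀) x₀).symm u) = G ((extChartAt 𝓘(ℝ, E₀) x₀).symm u') :=
      (extChartAt 𝓘(ℝ, E₀) x₁).injOn (h1 ⟨_, hu.2, rfl⟩) (h1 ⟨_, hu'.2, rfl⟩) he'
    have h3 := hGi h2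
    exact (extChartAt 𝓘(ℝ, E₀) x₀).symm.injOn (by rw [PartialEquiv.symm_source]; exact hu.1)
      (by rw [PartialEquiv.symm_source]; exact hu'.1) h3
  rw [himg, lintegral_image_eq_lintegral_abs_det_fderiv_mul μ (TT_meas x₀ hD)
    (fun u hu => ((hdf u hu).1.hasFDerivAt.hasFDerivWithinAt)) hinjh]
  apply setLIntegral_congr_fun (TT_meas x₀ hD)
  intro u hu
  have h2 := (hdf u hu).2
  show ENNReal.ofReal |(fderiv ℝ h u).det| * ENNReal.ofReal (rho e x₁ (h u)) =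
    ENNReal.ofReal (rho e x₀ u) * ENNReal.ofReal (Jac E₀ e G ((extChartAt 𝓘(ℝ, E₀) x₀).symm u))
  rw [← ENNReal.ofReal_mul (abs_nonneg _), mul_comm |(fderiv ℝ h u).det|, h2,
    ENNReal.ofReal_mul (jac_nonneg e hinj G _), mul_comm]

theorem cm_same (μ : Measure E₀) [μ.IsAddHaarMeasure] (e : M → F)
    (he : ContMDiff 𝓘(ℝ, E₀) 𝓘(ℝ, F) 1 e)
    (hinj : ∀ x, Function.Injective (dm E₀ e x)) (x₀ x₁ : M) (D : Set M)
    (hD : MeasurableSet D) (h0 : D ⊆ (extChartAt 𝓘(ℝ, E₀) x₀).source)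
    (h1 : D ⊆ (extChartAt 𝓘(ℝ, E₀) x₁).source) : cm μ e x₁ D = cm μ e x₀ D := by
  have h2 : (fun x => Jac E₀ e (id : M → M) x) = fun _ => 1 := funext fun x => jac_id e he hinj x
  have := cm_change μ e he hinj id contMDiff_id Function.injective_id (by
    rw [h2]; exact measurable_const) x₀ x₁ D hD (by rwa [image_id]) h0 (by rwa [image_id])
  rw [image_id] at this
  rw [this]
  have h3 : ∀ x, Jac E₀ e (id : M → M) x = 1 := fun x => jac_id e he hinj x
  simp_rw [h3]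
  simp

/-- **the volume measure** -/
theorem exists_vol [CompactSpace M] (μ : Measure E₀) [μ.IsAddHaarMeasure] (e : M → F)
    (he : ContMDiff 𝓘(ℝ, E₀) 𝓘(ℝ, F) 1 e)
    (hinj : ∀ x, Function.Injective (dm E₀ e x)) :
    ∃ ν : Measure M, IsFiniteMeasure ν ∧ (∀ U : Set M, IsOpen U → U.Nonempty → ν U ≠ 0) ∧
      ∀ x₀ : M, ∀ D : Set M, D ⊆ (extChartAt 𝓘(ℝ, E₀) x₀).source → MeasurableSet D →
        ν D = cm μ e x₀ D := by
  classical
  obtain ⟨t, -, ht⟩ := (isCompact_univ (X := M)).elim_nhds_subcover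
    (fun y => (extChartAt 𝓘(ℝ, E₀) y).source) (fun y _ => extChartAt_source_mem_nhds y)
  rcases isEmpty_or_nonempty M with hM | ⟨⟨y₀⟩⟩
  · refine ⟨0, inferInstance, fun U _ ⟨x, _⟩ => (hM.false x).elim, fun x₀ => (hM.false x₀).elim⟩
  have htn : (t : Set M).Nonempty := by
    have h1 := ht (mem_univ y₀)
    simp only [mem_iUnion] at h1
    obtain ⟨y, hy, -⟩ := h1
    exact ⟨y, hy⟩
  obtain ⟨y, hy⟩ := t.countable_toSet.exists_eq_range htn
  obtain ⟨U, hU⟩ : ∃ U : ℕ → Set M, U = fun n => (extChartAt 𝓘(ℝ, E₀) (y n)).source := ⟨_, rfl⟩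
  have hUm : ∀ n, MeasurableSet (U n) := fun n => by
    rw [hU]; exact (isOpen_extChartAt_source (y n)).measurableSet
  have hUu : ⋃ n, U n = univ := by
    rw [eq_univ_iff_forall]
    intro x
    have h1 := ht (mem_univ x)
    simp only [mem_iUnion] at h1
    obtain ⟨z, hz, hxz⟩ := h1
    have h2 : z ∈ Set.range y := by rw [← hy]; exact hz
    obtain ⟨n, rfl⟩ := h2
    exact mem_iUnion.2 ⟨n, by rw [hU]; exact hxz⟩
  obtain ⟨A, hA⟩ : ∃ A : ℕ → Set M, A = disjointed U := ⟨_, rfl⟩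
  have hAm : ∀ n, MeasurableSet (A n) := fun n => by rw [hA]; exact MeasurableSet.disjointed hUm n
  have hAU : ∀ n, A n ⊆ (extChartAt 𝓘(ℝ, E₀) (y n)).source := fun n => by
    have := disjointed_subset U n
    rw [hA]
    rw [hU] at this ⊢
    exact this
  have hAu : ⋃ n, A n = univ := by rw [hA, iUnion_disjointed, hUu]
  have hAd : Pairwise (Function.onFun Disjoint A) := by rw [hA]; exact disjoint_disjointed U
  obtain ⟨ν, hν⟩ : ∃ ν : Measure M, ν = Measure.sum fun n => (cm μ e (y n)).restrict (A n) := ⟨_, rfl⟩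
  have key : ∀ x₀ : M, ∀ D : Set M, D ⊆ (extChartAt 𝓘(ℝ, E₀) x₀).source → MeasurableSet D →
        ν D = cm μ e x₀ D := by
    intro x₀ D hDs hD
    rw [hν, Measure.sum_apply _ hD]
    have h1 : ∀ n, ((cm μ e (y n)).restrict (A n)) D = cm μ e x₀ (D ∩ A n) := by
      intro n
      rw [Measure.restrict_apply hD]
      exact cm_same μ e he hinj x₀ (y n) (D ∩ A n) (hD.inter (hAm n)) (inter_subset_left.trans hDs)
        (inter_subset_right.trans (hAU n))
    simp_rw [h1]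
    rw [← measure_iUnion (fun m n hmn => (hAd hmn).mono inter_subset_right inter_subset_right)
      (fun n => hD.inter (hAm n)), ← inter_iUnion, hAu, inter_univ]
  refine ⟨ν, ?_, ?_, key⟩
  · -- finiteness
    have hloc : ∀ x₀ : M, ∃ V ∈ 𝓝 x₀, ν V < ⊤ := by
      intro x₀
      obtain ⟨r, hr, C, hC, hb1, hb2⟩ := chart_upper e he x₀
      refine ⟨(extChartAt 𝓘(ℝ, E₀) x₀).source ∩ (extChartAt 𝓘(ℝ, E₀) x₀) ⁻¹'
        ball (extChartAt 𝓘(ℝ, E₀) x₀ x₀) r, ?_, ?_⟩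
      · exact ((continuousOn_extChartAt x₀).isOpen_inter_preimage (isOpen_extChartAt_source x₀)
          isOpen_ball).mem_nhds ⟨mem_extChartAt_source x₀, mem_ball_self hr⟩
      · have hop : IsOpen ((extChartAt 𝓘(ℝ, E₀) x₀).source ∩ (extChartAt 𝓘(ℝ, E₀) x₀) ⁻¹'
          ball (extChartAt 𝓘(ℝ, E₀) x₀ x₀) r) :=
          (continuousOn_extChartAt x₀).isOpen_inter_preimage (isOpen_extChartAt_source x₀) isOpen_ball
        rw [key x₀ _ inter_subset_left hop.measurableSet, cm_apply μ e he x₀ _ hop.measurableSet,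
          TT_eq_image x₀ inter_subset_left]
        calc ∫⁻ u in extChartAt 𝓘(ℝ, E₀) x₀ '' ((extChartAt 𝓘(ℝ, E₀) x₀).source ∩
              (extChartAt 𝓘(ℝ, E₀) x₀) ⁻¹' ball (extChartAt 𝓘(ℝ, E₀) x₀ x₀) r),
              ENNReal.ofReal (rho e x₀ u) ∂μ
            ≤ ∫⁻ u in ball (extChartAt 𝓘(ℝ, E₀) x₀ x₀) r, ENNReal.ofReal (rho e x₀ u) ∂μ := by
              apply lintegral_mono_set
              rintro _ ⟨x, hx, rfl⟩
              exact hx.2
          _ ≤ ∫⁻ u in ball (extChartAt 𝓘(ℝ, E₀) x₀ x₀) r, ENNReal.ofReal C ∂μ := by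
              apply setLIntegral_mono' measurableSet_ball
              intro u hu
              exact ENNReal.ofReal_le_ofReal (hb2 u hu)
          _ < ⊤ := by
              rw [setLIntegral_const]
              exact ENNReal.mul_lt_top ENNReal.ofReal_lt_top measure_ball_lt_top
    choose V hV hVf using hloc
    obtain ⟨s, -, hs⟩ := (isCompact_univ (X := M)).elim_nhds_subcover V (fun x _ => hV x)
    refine ⟨?_⟩
    calc ν univ ≤ ν (⋃ x ∈ s, V x) := measure_mono hs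
      _ ≤ ∑ x ∈ s, ν (V x) := measure_biUnion_finset_le _ _
      _ < ⊤ := ENNReal.sum_lt_top.2 fun x _ => hVf x
  · -- positivity
    rintro W hW ⟨x₀, hx₀⟩ h0
    obtain ⟨r, hr, c, hc, hb1, hb2, hb3⟩ := chart_lower e he hinj x₀ W (hW.mem_nhds hx₀)
    have hop : IsOpen ((extChartAt 𝓘(ℝ, E₀) x₀).source ∩ W) := (isOpen_extChartAt_source x₀).inter hW
    have h1 : ν ((extChartAt 𝓘(ℝ, E₀) x₀).source ∩ W) = 0 := measure_mono_null inter_subset_right h0
    rw [key x₀ _ inter_subset_left hop.measurableSet, cm_apply μ e he x₀ _ hop.measurableSet] at h1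
    have h2 : ENNReal.ofReal c * μ (ball (extChartAt 𝓘(ℝ, E₀) x₀ x₀) r) ≤ 0 := by
      rw [← h1, ← setLIntegral_const]
      calc ∫⁻ _ in ball (extChartAt 𝓘(ℝ, E₀) x₀ x₀) r, ENNReal.ofReal c ∂μ
          ≤ ∫⁻ u in ball (extChartAt 𝓘(ℝ, E₀) x₀ x₀) r, ENNReal.ofReal (rho e x₀ u) ∂μ := by
            apply setLIntegral_mono' measurableSet_ball
            intro u hu
            exact ENNReal.ofReal_le_ofReal (hb3 u hu)
        _ ≤ _ := by
            apply lintegral_mono_set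
            intro u hu
            exact ⟨hb1 hu, (extChartAt 𝓘(ℝ, E₀) x₀).map_target (hb1 hu), hb2 u hu⟩
    have h3 := le_antisymm h2 zero_le
    rw [mul_eq_zero] at h3
    rcases h3 with h3 | h3
    · rw [ENNReal.ofReal_eq_zero] at h3
      exact absurd h3 (not_le.2 hc)
    · exact (isOpen_ball.measure_pos μ ⟨_, mem_ball_self hr⟩).ne' h3

/-- **area formula** -/
theorem vol_change [CompactSpace M] (μ : Measure E₀) [μ.IsAddHaarMeasure] (e : M → F)
    (he : ContMDiff 𝓘(ℝ, E₀) 𝓘(ℝ, F) 1 e)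
    (hinj : ∀ x, Function.Injective (dm E₀ e x)) (ν : Measure M)
    (hν : ∀ x₀ : M, ∀ D : Set M, D ⊆ (extChartAt 𝓘(ℝ, E₀) x₀).source → MeasurableSet D →
        ν D = cm μ e x₀ D) (G : M ≃ₜ M) (hG : ContMDiff 𝓘(ℝ, E₀) 𝓘(ℝ, E₀) 1 G)
    (hJ : Measurable (fun x => Jac E₀ e G x)) (D : Set M) (hD : MeasurableSet D) :
    ν (G '' D) = ∫⁻ x in D, ENNReal.ofReal (Jac E₀ e G x) ∂ν := by
  classical
  have hGm : Measurable G.symm := G.symm.continuous.measurable
  have himg : ∀ A : Set M, MeasurableSet A → MeasurableSet (G '' A) := fun A hA => by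
    rw [G.image_eq_preimage_symm]
    exact hGm hA
  obtain ⟨t, -, ht⟩ := (isCompact_univ (X := M)).elim_nhds_subcover
    (fun y => (extChartAt 𝓘(ℝ, E₀) y).source) (fun y _ => extChartAt_source_mem_nhds y)
  have hcov : ∀ x, ∃ y ∈ t, x ∈ (extChartAt 𝓘(ℝ, E₀) y).source := by
    intro x
    have h1 := ht (mem_univ x)
    simp only [mem_iUnion] at h1
    obtain ⟨y, hy, hxy⟩ := h1
    exact ⟨y, hy, hxy⟩
  have hrest : ∀ x₀ : M, ν.restrict (extChartAt 𝓘(ℝ, E₀) x₀).source =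
      (cm μ e x₀).restrict (extChartAt 𝓘(ℝ, E₀) x₀).source := by
    intro x₀
    ext A hA
    rw [Measure.restrict_apply hA, Measure.restrict_apply hA]
    exact hν x₀ _ inter_subset_right (hA.inter (isOpen_extChartAt_source x₀).measurableSet)
  have hmeas : ν.map G.symm = ν.withDensity (fun x => ENNReal.ofReal (Jac E₀ e G x)) := by
    apply Measure.ext_of_iUnion_eq_univ (ι := t × t)
      (s := fun p => (extChartAt 𝓘(ℝ, E₀) p.1.1).source ∩ G ⁻¹' (extChartAt 𝓘(ℝ, E₀) p.2.1).source)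
    · rw [eq_univ_iff_forall]
      intro x
      obtain ⟨a, ha, hxa⟩ := hcov x
      obtain ⟨b, hb, hxb⟩ := hcov (G x)
      exact mem_iUnion.2 ⟨(⟨a, ha⟩, ⟨b, hb⟩), hxa, hxb⟩
    · rintro ⟨⟨a, ha⟩, ⟨b, hb⟩⟩
      ext A hA
      have hsm : MeasurableSet ((extChartAt 𝓘(ℝ, E₀) a).source ∩ G ⁻¹' (extChartAt 𝓘(ℝ, E₀) b).source) :=
        (isOpen_extChartAt_source a).measurableSet.inter
          ((isOpen_extChartAt_source b).preimage G.continuous).measurableSet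
      rw [Measure.restrict_apply hA, Measure.restrict_apply hA]
      simp only
      obtain ⟨P, hP⟩ : ∃ P, P = A ∩ ((extChartAt 𝓘(ℝ, E₀) a).source ∩
        G ⁻¹' (extChartAt 𝓘(ℝ, E₀) b).source) := ⟨_, rfl⟩
      rw [← hP]
      have hPm : MeasurableSet P := by rw [hP]; exact hA.inter hsm
      have hPa : P ⊆ (extChartAt 𝓘(ℝ, E₀) a).source := by
        rw [hP]; exact inter_subset_right.trans inter_subset_left
      have hPb : G '' P ⊆ (extChartAt 𝓘(ℝ, E₀) b).source := by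
        rintro _ ⟨x, hx, rfl⟩
        rw [hP] at hx
        exact hx.2.2
      rw [Measure.map_apply hGm hPm, withDensity_apply _ hPm, ← G.image_eq_preimage_symm,
        hν b _ hPb (himg P hPm), cm_change μ e he hinj G hG G.injective hJ a b P hPm (himg P hPm) hPa hPb]
      have h1 : (cm μ e a).restrict P = ν.restrict P := by
        have h2 := congrArg (fun m : Measure M => m.restrict P) (hrest a)
        rw [Measure.restrict_restrict hPm, Measure.restrict_restrict hPm,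
          inter_eq_self_of_subset_left hPa] at h2
        exact h2.symm
      rw [h1]
  have h1 : (ν.map G.symm) D = (ν.withDensity (fun x => ENNReal.ofReal (Jac E₀ e G x))) D := by
    rw [hmeas]
  rw [Measure.map_apply hGm hD, withDensity_apply _ hD, ← G.image_eq_preimage_symm] at h1
  exact h1

end cm

end Pool.Agent.V7H6.AD
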