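import Pool.Agent.V7H6.AD.I
import Pool.Agent.V7H6.AD.V

/-! Main theorem: quasi-invariant measures, periodic points and transitivity. -/

set_option autoImplicit false
set_option linter.unusedSectionVars false

open scoped Manifold ContDiff Topology ENNReal
open Set Filter MeasureTheory Metric Module

namespace Pool.Agent.V7H6.AD

open Pool.Agent.H721R2 Pool.Agent.H779R2.An Pool.Agent.H789R2.AN

section man

variable {E₀ : Type*} [NormedAddCommGroup E₀] [NormedSpace ℝ E₀] [FiniteDimensional ℝ E₀]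
  {M : Type*} [MetricSpace M] [CompactSpace M] [ChartedSpace E₀ M] [IsManifold 𝓘(ℝ, E₀) ∞ M]
  {F : Type*} [NormedAddCommGroup F] [InnerProductSpace ℝ F] [FiniteDimensional ℝ F]

theorem full_main [ConnectedSpace M] [MeasurableSpace M] [BorelSpace M] {e : M → F}
    (hiso : ∀ x y, dist x y = ‖e x - e y‖)
    (he : ContMDiff 𝓘(ℝ, E₀) 𝓘(ℝ, F) 1 e) (hinj : ∀ x, Function.Injective (dm E₀ e x))
    (f : Diffeomorph 𝓘(ℝ, E₀) 𝓘(ℝ, E₀) M M 1)
    (Es Eu : ∀ x : M, Submodule ℝ (TangentSpace 𝓘(ℝ, E₀) x)) (hA : IsAnosov f Es Eu)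
    (ψ : M → ℝ) (hψ : Hol ψ) (ν : Measure M) [IsFiniteMeasure ν]
    (hpos : ∀ U : Set M, IsOpen U → U.Nonempty → ν U ≠ 0) (hν : QI f.toHomeomorph ψ ν) :
    (∀ W : Set M, IsOpen W → W.Nonempty → W ≠ univ → (∀ y ∈ closure W, f y ∈ W) →
      (∃ p ∈ W, ∃ n, 1 ≤ n ∧ f^[n] p = p ∧ birkhoffSum f ψ n p < 0) ∧
      ∃ q, q ∉ closure W ∧ ∃ n, 1 ≤ n ∧ f^[n] q = q ∧ 0 < birkhoffSum f ψ n q) ∧
    (((∀ p, ∀ n, 1 ≤ n → f^[n] p = p → 0 ≤ birkhoffSum f ψ n p) ∨
      (∀ p, ∀ n, 1 ≤ n → f^[n] p = p → birkhoffSum f ψ n p ≤ 0)) →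
      TopTransitive f ∧ ∃ u : M → ℝ, Continuous u ∧ ∀ x, ψ x = u (f x) - u x) := by
  obtain ⟨h1, h2⟩ := half_main hiso he hinj f Es Eu hA ψ hψ ν hpos hν
  obtain ⟨L, hL, hLip⟩ := lip_glob hiso he hinj f.symm f.symm.contMDiff
  have hψ' : Hol (fun x => -ψ (f.symm x)) := (hψ.comp hL hLip).neg
  have hν' : QI f.symm.toHomeomorph (fun x => -ψ (f.symm x)) ν := hν.symm hψ.continuous.measurable
  obtain ⟨h3, h4⟩ := half_main hiso he hinj f.symm Eu Es (Pool.Agent.W740.TU.anosov_symm f Es Eu hA)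
    (fun x => -ψ (f.symm x)) hψ' ν hpos hν'
  have hfix : ∀ n p, f.symm^[n] p = p → f^[n] p = p := by
    intro n p hp
    have := iter_right f.toHomeomorph n p
    change f^[n] (f.symm^[n] p) = p at this
    rwa [hp] at this
  have hfix' : ∀ n p, f^[n] p = p → f.symm^[n] p = p := by
    intro n p hp
    have := iter_left f.toHomeomorph n p
    change f.symm^[n] (f^[n] p) = p at this
    rwa [hp] at this
  have hbs : ∀ n p, birkhoffSum f.symm (fun x => -ψ (f.symm x)) n p =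
      -birkhoffSum f ψ n (f.symm^[n] p) := fun n p => birkhoff_symm f.toHomeomorph ψ n p
  refine ⟨fun W hW hWn hWu htrap => ⟨h1 W hW hWn hWu htrap, ?_⟩, ?_⟩
  · obtain ⟨q, hq, n, hn, hqn, hlt⟩ := h3 (closure W)ᶜ isClosed_closure.isOpen_compl (by
      rw [Set.nonempty_compl]
      intro h1
      apply hWu
      rw [Set.eq_univ_iff_forall]
      intro x
      have h2 := htrap (f.symm x) (by rw [h1]; trivial)
      rwa [f.apply_symm_apply] at h2) (by
      rw [Ne, Set.compl_univ_iff]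
      intro h1
      exact hWn.ne_empty ((closure_empty_iff _).1 h1)) (by
      intro y hy
      have h1 : y ∉ W := by
        have h2 : closure (closure W)ᶜ ⊆ Wᶜ := by
          rw [closure_compl]
          apply compl_subset_compl.2
          exact hW.subset_interior_iff.2 subset_closure
        exact h2 hy
      intro h2
      apply h1
      have h3 := htrap _ h2
      rwa [f.apply_symm_apply] at h3)
    rw [hbs, hqn] at hlt
    exact ⟨q, hq, n, hn, hfix n q hqn, by linarith⟩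
  · rintro (h | h)
    · exact h2 h
    · obtain ⟨ht, u, hu, hu2⟩ := h4 (by
        intro p n hn hp
        rw [hbs, hp]
        have := h p n hn (hfix n p hp)
        linarith)
      refine ⟨Pool.Agent.W740.TU.transitive_symm f.toHomeomorph ht, u, hu, fun x => ?_⟩
      have h5 := hu2 (f x)
      rw [f.symm_apply_apply] at h5
      linarith

/-- the Jacobian of the volume -/
theorem vol_qi [MeasurableSpace E₀] [BorelSpace E₀] [MeasurableSpace M] [BorelSpace M] (μ : Measure E₀)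
    [μ.IsAddHaarMeasure] {e : M → F} (hiso : ∀ x y, dist x y = ‖e x - e y‖)
    (he : ContMDiff 𝓘(ℝ, E₀) 𝓘(ℝ, F) 2 e) (hinj : ∀ x, Function.Injective (dm E₀ e x))
    (f : Diffeomorph 𝓘(ℝ, E₀) 𝓘(ℝ, E₀) M M 1) {α : ℝ} (hα : 0 < α) (hα1 : α ≤ 1)
    (hD : DerivHolder E₀ α f) (ν : Measure M)
    (hν : ∀ x₀ : M, ∀ D : Set M, D ⊆ (extChartAt 𝓘(ℝ, E₀) x₀).source → MeasurableSet D →
        ν D = cm μ e x₀ D) :
    Hol (fun x => Real.log (Jac E₀ e f x)) ∧
    QI f.toHomeomorph (fun x => Real.log (Jac E₀ e f x)) ν ∧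
    ∀ n p, f^[n] p = p → birkhoffSum f (fun x => Real.log (Jac E₀ e f x)) n p =
      Real.log |(dg E₀ (f^[n]) p).toLinearMap.det| ∧
      0 < |(dg E₀ (f^[n]) p).toLinearMap.det| := by
  have he1 : ContMDiff 𝓘(ℝ, E₀) 𝓘(ℝ, F) 1 e := he.of_le (by norm_num)
  have hf1 : ContMDiff 𝓘(ℝ, E₀) 𝓘(ℝ, E₀) 1 f := f.contMDiff
  have hf1' : ContMDiff 𝓘(ℝ, E₀) 𝓘(ℝ, E₀) 1 f.symm := f.symm.contMDiff
  have hH := hol_of_charts hiso he1 hinj hα hα1
    (logjac_holder he hinj f f.symm hf1 hf1' f.symm_apply_apply hα hα1 hD)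
  have hpos := jac_pos e he1 hinj f f.symm hf1 hf1' f.symm_apply_apply
  have hexp : ∀ x, Real.exp (Real.log (Jac E₀ e f x)) = Jac E₀ e f x := fun x =>
    Real.exp_log (hpos x).1
  have hJ : Measurable (fun x => Jac E₀ e f x) := by
    have h1 : (fun x => Jac E₀ e f x) = fun x => Real.exp (Real.log (Jac E₀ e f x)) :=
      funext fun x => (hexp x).symm
    rw [h1]
    exact (Real.continuous_exp.comp hH.continuous).measurable
  refine ⟨hH, ?_, ?_⟩
  · intro A hA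
    have h1 := vol_change μ e he1 hinj ν hν f.toHomeomorph hf1 hJ A hA
    rw [h1]
    apply lintegral_congr
    intro x
    rw [hexp]
    rfl
  · intro n p hp
    have h1 := log_iter e he1 hinj f f.symm hf1 hf1' f.symm_apply_apply n p
    rw [jac_fix e he1 hinj _ (iter_smooth f hf1 n) p hp] at h1
    exact ⟨h1.2, h1.1⟩

/-- positive continuous density with respect to Lebesgue measure, in all charts -/
def HasDensity (E : Type*) [NormedAddCommGroup E] [NormedSpace ℝ E] [MeasurableSpace E] {M : Type*}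
    [TopologicalSpace M] [ChartedSpace E M] [MeasurableSpace M] (μ : Measure E) (m : Measure M) : Prop :=
  ∀ x₀ : M, ∃ ρ : E → ℝ, ContinuousOn ρ (extChartAt 𝓘(ℝ, E) x₀).target ∧
    (∀ u ∈ (extChartAt 𝓘(ℝ, E) x₀).target, 0 < ρ u) ∧
    ∀ A ⊆ (extChartAt 𝓘(ℝ, E) x₀).source, MeasurableSet A →
      m A = ∫⁻ u in extChartAt 𝓘(ℝ, E) x₀ '' A, ENNReal.ofReal (ρ u) ∂μ

theorem density_of_coboundary [MeasurableSpace E₀] [BorelSpace E₀] [MeasurableSpace M] [BorelSpace M]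
    (μ : Measure E₀) {e : M → F}
    (he : ContMDiff 𝓘(ℝ, E₀) 𝓘(ℝ, F) 1 e) (hinj : ∀ x, Function.Injective (dm E₀ e x))
    (f : M ≃ₜ M) (ν : Measure M) [IsFiniteMeasure ν]
    (hν : ∀ x₀ : M, ∀ D : Set M, D ⊆ (extChartAt 𝓘(ℝ, E₀) x₀).source → MeasurableSet D →
        ν D = cm μ e x₀ D) (ψ : M → ℝ) (hψ : Continuous ψ) (hQ : QI f ψ ν) (u : M → ℝ)
    (hu : Continuous u) (hu2 : ∀ x, ψ x = u (f x) - u x) :
    ∃ m : Measure M, IsFiniteMeasure m ∧ HasDensity E₀ μ m ∧ m.map f = m := by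
  have hum : Measurable fun x => ENNReal.ofReal (Real.exp (-u x)) :=
    (Real.continuous_exp.comp hu.neg).measurable.ennreal_ofReal
  refine ⟨ν.withDensity fun x => ENNReal.ofReal (Real.exp (-u x)), ?_, ?_, ?_⟩
  · obtain ⟨B, hB⟩ := isCompact_univ.exists_bound_of_continuousOn hu.continuousOn
    apply isFiniteMeasure_withDensity
    apply ne_of_lt
    calc ∫⁻ x, ENNReal.ofReal (Real.exp (-u x)) ∂ν ≤ ∫⁻ _, ENNReal.ofReal (Real.exp B) ∂ν := by
          apply lintegral_mono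
          intro x
          apply ENNReal.ofReal_le_ofReal
          apply Real.exp_le_exp.2
          have := hB x trivial
          rw [Real.norm_eq_abs] at this
          exact (neg_le_abs _).trans this
      _ < ⊤ := by
          rw [lintegral_const]
          exact ENNReal.mul_lt_top ENNReal.ofReal_lt_top (measure_lt_top _ _)
  · intro x₀
    refine ⟨fun v => rho e x₀ v * Real.exp (-u ((extChartAt 𝓘(ℝ, E₀) x₀).symm v)), ?_, ?_, ?_⟩
    · apply (rho_cont e he x₀).mul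
      exact Real.continuous_exp.comp_continuousOn
        (hu.comp_continuousOn (continuousOn_extChartAt_symm x₀)).neg
    · intro v hv
      exact mul_pos (rho_pos e he hinj x₀ v hv) (Real.exp_pos _)
    · intro A hA hAm
      have h1 : (cm μ e x₀).restrict A = ν.restrict A := by
        ext B hB
        rw [Measure.restrict_apply hB, Measure.restrict_apply hB]
        exact (hν x₀ _ (inter_subset_right.trans hA) (hB.inter hAm)).symm
      rw [withDensity_apply _ hAm, ← h1, cm_lint μ e he x₀ _ hum A hAm, TT_eq_image x₀ hA]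
      have hTm : MeasurableSet (extChartAt 𝓘(ℝ, E₀) x₀ '' A) := by
        rw [← TT_eq_image x₀ hA]; exact TT_meas x₀ hAm
      apply setLIntegral_congr_fun hTm
      intro v hv
      have hv2 : v ∈ (extChartAt 𝓘(ℝ, E₀) x₀).target := by
        obtain ⟨x, hx, rfl⟩ := hv
        exact (extChartAt 𝓘(ℝ, E₀) x₀).map_source (hA hx)
      show ENNReal.ofReal (rho e x₀ v) * ENNReal.ofReal (Real.exp (-u ((extChartAt 𝓘(ℝ, E₀) x₀).symm v))) =
        ENNReal.ofReal (rho e x₀ v * Real.exp (-u ((extChartAt 𝓘(ℝ, E₀) x₀).symm v)))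
      rw [ENNReal.ofReal_mul (rho_pos e he hinj x₀ v hv2).le]
  · have hfm : Measurable f := f.continuous.measurable
    ext A hA
    rw [Measure.map_apply hfm hA, withDensity_apply _ (hfm hA), withDensity_apply _ hA]
    have h1 := hQ.lint hψ.measurable _ hum (f ⁻¹' A) (hfm hA)
    rw [image_preimage_eq _ f.surjective] at h1
    rw [h1]
    apply lintegral_congr
    intro x
    rw [← ENNReal.ofReal_mul (Real.exp_pos _).le, ← Real.exp_add, hu2]
    congr 2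
    ring

/-- two continuous functions with the same integrals over small balls -/
theorem eq_of_balls [MeasurableSpace E₀] [BorelSpace E₀] (μ : Measure E₀) [μ.IsAddHaarMeasure]
    (a b : E₀ → ℝ) (u₀ : E₀) (ha : ContinuousAt a u₀) (hb : ContinuousAt b u₀) (ha0 : 0 ≤ a u₀)
    (r₀ : ℝ) (hr₀ : 0 < r₀)
    (h : ∀ r, 0 < r → r < r₀ → ∫⁻ u in ball u₀ r, ENNReal.ofReal (b u) ∂μ ≤
      ∫⁻ u in ball u₀ r, ENNReal.ofReal (a u) ∂μ) : b u₀ ≤ a u₀ := by
  by_contra hcon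
  push Not at hcon
  obtain ⟨c₁, hc₁, hc₁'⟩ := exists_between hcon
  obtain ⟨c₂, hc₂, hc₂'⟩ := exists_between hc₁'
  have h1 : ∀ᶠ u in 𝓝 u₀, a u < c₁ ∧ c₂ < b u :=
    (ha.eventually (gt_mem_nhds hc₁)).and (hb.eventually (lt_mem_nhds hc₂'))
  obtain ⟨r₁, hr₁, h2⟩ := Metric.eventually_nhds_iff_ball.1 h1
  obtain ⟨r, hr, hr2⟩ : ∃ r, 0 < r ∧ r < r₀ ∧ r ≤ r₁ :=
    ⟨min (r₀ / 2) r₁, lt_min (by positivity) hr₁, by
      have : min (r₀ / 2) r₁ ≤ r₀ / 2 := min_le_left _ _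
      linarith, min_le_right _ _⟩
  have h3 := h r hr hr2.1
  have h4 : ∫⁻ u in ball u₀ r, ENNReal.ofReal (a u) ∂μ ≤ ENNReal.ofReal c₁ * μ (ball u₀ r) := by
    rw [← setLIntegral_const]
    apply setLIntegral_mono' measurableSet_ball
    intro u hu
    exact ENNReal.ofReal_le_ofReal (h2 u (ball_subset_ball hr2.2 hu)).1.le
  have h5 : ENNReal.ofReal c₂ * μ (ball u₀ r) ≤ ∫⁻ u in ball u₀ r, ENNReal.ofReal (b u) ∂μ := by
    rw [← setLIntegral_const]
    apply setLIntegral_mono' measurableSet_ball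
    intro u hu
    exact ENNReal.ofReal_le_ofReal (h2 u (ball_subset_ball hr2.2 hu)).2.le
  have h6 : ENNReal.ofReal c₂ * μ (ball u₀ r) ≤ ENNReal.ofReal c₁ * μ (ball u₀ r) :=
    h5.trans (h3.trans h4)
  have h7 : μ (ball u₀ r) ≠ 0 := (isOpen_ball.measure_pos μ ⟨u₀, mem_ball_self hr⟩).ne'
  have h8 : μ (ball u₀ r) ≠ ⊤ := measure_ball_lt_top.ne
  rw [ENNReal.mul_le_mul_iff_left h7 h8] at h6
  rw [ENNReal.ofReal_le_ofReal_iff (by linarith)] at h6
  linarith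

/-- an invariant measure with continuous positive density: periodic determinants are `±1` -/
theorem det_of_density [MeasurableSpace E₀] [BorelSpace E₀] [MeasurableSpace M] [BorelSpace M]
    (μ : Measure E₀) [μ.IsAddHaarMeasure] {e : M → F}
    (he : ContMDiff 𝓘(ℝ, E₀) 𝓘(ℝ, F) 1 e) (hinj : ∀ x, Function.Injective (dm E₀ e x))
    (G : M ≃ₜ M) (hG : ContMDiff 𝓘(ℝ, E₀) 𝓘(ℝ, E₀) 1 G) (m : Measure M) (hm : HasDensity E₀ μ m)
    (hinv : m.map G = m) (p : M) (hp : G p = p) : |(dg E₀ G p).toLinearMap.det| = 1 := by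
  obtain ⟨ρ, hρc, hρ0, hρ⟩ := hm p
  obtain ⟨u₀, hu₀⟩ : ∃ u₀, u₀ = extChartAt 𝓘(ℝ, E₀) p p := ⟨_, rfl⟩
  have hu₀t : u₀ ∈ (extChartAt 𝓘(ℝ, E₀) p).target := by rw [hu₀]; exact mem_extChartAt_target p
  have hu₀s : (extChartAt 𝓘(ℝ, E₀) p).symm u₀ = p := by rw [hu₀]; exact extChartAt_to_inv p
  obtain ⟨h, hh⟩ : ∃ h : E₀ → E₀, h = extChartAt 𝓘(ℝ, E₀) p ∘ G ∘ (extChartAt 𝓘(ℝ, E₀) p).symm :=
    ⟨_, rfl⟩
  have hhu₀ : h u₀ = u₀ := by
    rw [hh]
    simp only [Function.comp_apply]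
    rw [hu₀s, hp, hu₀]
  have hfor : ∀ u ∈ (extChartAt 𝓘(ℝ, E₀) p).target, G ((extChartAt 𝓘(ℝ, E₀) p).symm u) ∈
      (extChartAt 𝓘(ℝ, E₀) p).source → DifferentiableAt ℝ h u ∧
      rho e p (h u) * |(fderiv ℝ h u).det| =
      Jac E₀ e G ((extChartAt 𝓘(ℝ, E₀) p).symm u) * rho e p u := fun u hu hu2 =>
    det_formula e he hinj G hG p p u hu hu2 h hh
  have hhd : ContDiffAt ℝ 1 h u₀ := by
    rw [← contMDiffAt_iff_contDiffAt, hh]
    have hsym : ContMDiffAt 𝓘(ℝ, E₀) 𝓘(ℝ, E₀) 1 (extChartAt 𝓘(ℝ, E₀) p).symm u₀ :=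
      (contMDiffOn_extChartAt_symm (n := 1) p).contMDiffAt
        ((isOpen_extChartAt_target p).mem_nhds hu₀t)
    have hφ1 : ContMDiffAt 𝓘(ℝ, E₀) 𝓘(ℝ, E₀) 1 (extChartAt 𝓘(ℝ, E₀) p)
        (G ((extChartAt 𝓘(ℝ, E₀) p).symm u₀)) := by
      rw [hu₀s, hp]
      exact contMDiffAt_extChartAt
    exact hφ1.comp u₀ (hG.contMDiffAt.comp u₀ hsym)
  -- a good radius
  have hsrc : ∀ᶠ u in 𝓝 u₀, u ∈ (extChartAt 𝓘(ℝ, E₀) p).target ∧
      G ((extChartAt 𝓘(ℝ, E₀) p).symm u) ∈ (extChartAt 𝓘(ℝ, E₀) p).source := by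
    have h1 : ContinuousAt (fun u => G ((extChartAt 𝓘(ℝ, E₀) p).symm u)) u₀ := by
      have h2 : ContinuousAt (extChartAt 𝓘(ℝ, E₀) p).symm u₀ := by
        rw [hu₀]; exact continuousAt_extChartAt_symm p
      exact ContinuousAt.comp hG.continuous.continuousAt h2
    have h3 : (fun u => G ((extChartAt 𝓘(ℝ, E₀) p).symm u)) ⁻¹' (extChartAt 𝓘(ℝ, E₀) p).source ∈ 𝓝 u₀ := by
      apply h1.preimage_mem_nhds
      rw [hu₀s, hp]
      exact extChartAt_source_mem_nhds p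
    filter_upwards [(isOpen_extChartAt_target p).mem_nhds hu₀t, h3] with u h4 h5
    exact ⟨h4, h5⟩
  obtain ⟨r₀, hr₀, hball⟩ := Metric.eventually_nhds_iff_ball.1 hsrc
  -- the integrals
  have hint : ∀ r, 0 < r → r < r₀ → ∫⁻ u in ball u₀ r, ENNReal.ofReal (ρ u) ∂μ =
      ∫⁻ u in ball u₀ r, ENNReal.ofReal (|(fderiv ℝ h u).det| * ρ (h u)) ∂μ := by
    intro r hr hrr
    have hb : ∀ u ∈ ball u₀ r, u ∈ (extChartAt 𝓘(ℝ, E₀) p).target ∧
      G ((extChartAt 𝓘(ℝ, E₀) p).symm u) ∈ (extChartAt 𝓘(ℝ, E₀) p).source := fun u hu =>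
      hball u (ball_subset_ball hrr.le hu)
    obtain ⟨A, hA⟩ : ∃ A, A = (extChartAt 𝓘(ℝ, E₀) p).source ∩ (extChartAt 𝓘(ℝ, E₀) p) ⁻¹' ball u₀ r :=
      ⟨_, rfl⟩
    have hAo : IsOpen A := by
      rw [hA]
      exact (continuousOn_extChartAt p).isOpen_inter_preimage (isOpen_extChartAt_source p) isOpen_ball
    have hAs : A ⊆ (extChartAt 𝓘(ℝ, E₀) p).source := by rw [hA]; exact inter_subset_left
    have hAimg : extChartAt 𝓘(ℝ, E₀) p '' A = ball u₀ r := by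
      apply Subset.antisymm
      · rintro _ ⟨x, hx, rfl⟩
        rw [hA] at hx
        exact hx.2
      · intro u hu
        refine ⟨(extChartAt 𝓘(ℝ, E₀) p).symm u, ?_, (extChartAt 𝓘(ℝ, E₀) p).right_inv (hb u hu).1⟩
        rw [hA]
        refine ⟨(extChartAt 𝓘(ℝ, E₀) p).map_target (hb u hu).1, ?_⟩
        rw [mem_preimage, (extChartAt 𝓘(ℝ, E₀) p).right_inv (hb u hu).1]
        exact hu
    have hAsymm : A = (extChartAt 𝓘(ℝ, E₀) p).symm '' ball u₀ r := by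
      rw [← hAimg, ← image_comp]
      ext x
      constructor
      · intro hx
        exact ⟨x, hx, (extChartAt 𝓘(ℝ, E₀) p).left_inv (hAs hx)⟩
      · rintro ⟨y, hy, rfl⟩
        simp only [Function.comp_apply]
        rw [(extChartAt 𝓘(ℝ, E₀) p).left_inv (hAs hy)]
        exact hy
    have hGAs : G '' A ⊆ (extChartAt 𝓘(ℝ, E₀) p).source := by
      rw [hAsymm]
      rintro _ ⟨_, ⟨u, hu, rfl⟩, rfl⟩
      exact (hb u hu).2
    have hGA : m (G '' A) = m A := by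
      conv_lhs => rw [← hinv]
      rw [Measure.map_apply G.continuous.measurable (img_meas G hAo.measurableSet),
        preimage_image_eq _ G.injective]
    rw [hρ _ hGAs (img_meas G hAo.measurableSet), hρ A hAs hAo.measurableSet, hAimg] at hGA
    have himg : extChartAt 𝓘(ℝ, E₀) p '' (G '' A) = h '' ball u₀ r := by
      rw [hAsymm, hh, image_comp, image_comp]
    have hinjh : InjOn h (ball u₀ r) := by
      intro u hu u' hu' he'
      rw [hh] at he'
      have h2 : G ((extChartAt 𝓘(ℝ, E₀) p).symm u) = G ((extChartAt 𝓘(ℝ, E₀) p).symm u') :=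
        (extChartAt 𝓘(ℝ, E₀) p).injOn (hb u hu).2 (hb u' hu').2 he'
      have h3 := G.injective h2
      exact (extChartAt 𝓘(ℝ, E₀) p).symm.injOn (by rw [PartialEquiv.symm_source]; exact (hb u hu).1)
        (by rw [PartialEquiv.symm_source]; exact (hb u' hu').1) h3
    rw [himg, lintegral_image_eq_lintegral_abs_det_fderiv_mul μ measurableSet_ball
      (fun u hu => ((hfor u (hb u hu).1 (hb u hu).2).1.hasFDerivAt.hasFDerivWithinAt)) hinjh] at hGA
    rw [← hGA]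
    apply setLIntegral_congr_fun measurableSet_ball
    intro u hu
    show ENNReal.ofReal |(fderiv ℝ h u).det| * ENNReal.ofReal (ρ (h u)) = _
    rw [← ENNReal.ofReal_mul (abs_nonneg _)]
  -- continuity
  have hρca : ContinuousAt ρ u₀ := hρc.continuousAt ((isOpen_extChartAt_target p).mem_nhds hu₀t)
  have hca : ContinuousAt (fun u => |(fderiv ℝ h u).det| * ρ (h u)) u₀ := by
    apply ContinuousAt.mul
    · apply ContinuousAt.abs
      have h1 : ContinuousAt (fderiv ℝ h) u₀ :=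
        (hhd.fderiv_right (m := 0) (by norm_num)).continuousAt
      exact ContinuousAt.comp (g := fun A : E₀ →L[ℝ] E₀ => A.det)
        ContinuousLinearMap.continuous_det.continuousAt h1
    · apply ContinuousAt.comp (g := ρ) _ hhd.continuousAt
      rw [hhu₀]; exact hρca
  have h1 : |(fderiv ℝ h u₀).det| * ρ (h u₀) = ρ u₀ := by
    apply le_antisymm
    · exact eq_of_balls μ ρ (fun u => |(fderiv ℝ h u).det| * ρ (h u)) u₀ hρca hca (hρ0 _ hu₀t).le r₀ hr₀
        (fun r hr hrr => (hint r hr hrr).ge)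
    · exact eq_of_balls μ (fun u => |(fderiv ℝ h u).det| * ρ (h u)) ρ u₀ hca hρca
        (by rw [hhu₀]; exact mul_nonneg (abs_nonneg _) (hρ0 _ hu₀t).le) r₀ hr₀
        (fun r hr hrr => (hint r hr hrr).le)
  rw [hhu₀] at h1
  have h2 := hρ0 _ hu₀t
  have h3 : |(fderiv ℝ h u₀).det| = 1 := by
    have : (|(fderiv ℝ h u₀).det| - 1) * ρ u₀ = 0 := by linarith
    rcases mul_eq_zero.1 this with h4 | h4
    · linarith
    · exact absurd h4 h2.ne'
  have h4 := (hfor u₀ hu₀t (by rw [hu₀s, hp]; exact mem_extChartAt_source p)).2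
  rw [hhu₀, h3, mul_one, hu₀s, jac_fix e he hinj G hG p hp] at h4
  have h5 := rho_pos e he hinj p u₀ hu₀t
  have : (|(dg E₀ G p).toLinearMap.det| - 1) * rho e p u₀ = 0 := by linarith
  rcases mul_eq_zero.1 this with h6 | h6
  · linarith
  · exact absurd h6 h5.ne'

end man

theorem derivHolder_of_C2 {E₀ : Type*} [NormedAddCommGroup E₀] [NormedSpace ℝ E₀]
    [FiniteDimensional ℝ E₀]
    {M : Type*} [TopologicalSpace M] [ChartedSpace E₀ M] [IsManifold 𝓘(ℝ, E₀) ∞ M] (f : M → M)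
    (hf : ContMDiff 𝓘(ℝ, E₀) 𝓘(ℝ, E₀) 2 f) : DerivHolder E₀ 1 f := by
  intro x₀
  obtain ⟨u₀, hu₀⟩ : ∃ u₀, u₀ = extChartAt 𝓘(ℝ, E₀) x₀ x₀ := ⟨_, rfl⟩
  have hu₀t : u₀ ∈ (extChartAt 𝓘(ℝ, E₀) x₀).target := by rw [hu₀]; exact mem_extChartAt_target x₀
  have hu₀s : (extChartAt 𝓘(ℝ, E₀) x₀).symm u₀ = x₀ := by rw [hu₀]; exact extChartAt_to_inv x₀
  have hhd : ContDiffAt ℝ 2 (writtenInExtChartAt 𝓘(ℝ, E₀) 𝓘(ℝ, E₀) x₀ f) u₀ := by
    rw [← contMDiffAt_iff_contDiffAt]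
    have hsym : ContMDiffAt 𝓘(ℝ, E₀) 𝓘(ℝ, E₀) 2 (extChartAt 𝓘(ℝ, E₀) x₀).symm u₀ :=
      (contMDiffOn_extChartAt_symm (n := 2) x₀).contMDiffAt
        ((isOpen_extChartAt_target x₀).mem_nhds hu₀t)
    have hφ1 : ContMDiffAt 𝓘(ℝ, E₀) 𝓘(ℝ, E₀) 2 (extChartAt 𝓘(ℝ, E₀) (f x₀))
        (f ((extChartAt 𝓘(ℝ, E₀) x₀).symm u₀)) := by
      rw [hu₀s]
      exact contMDiffAt_extChartAt
    exact hφ1.comp u₀ (hf.contMDiffAt.comp u₀ hsym)
  obtain ⟨K, t, ht, hK⟩ := (hhd.fderiv_right (m := 1) (by norm_num)).exists_lipschitzOnWith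
  rw [hu₀] at ht
  refine ⟨t, ht, K, fun u hu v hv => ?_⟩
  rw [Real.rpow_one]
  have := hK.dist_le_mul u hu v hv
  rwa [dist_eq_norm, dist_eq_norm] at this

end Pool.Agent.V7H6.AD
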