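import Pool.Agent.V7H6.AD.J

/-! The final statements for Anosov diffeomorphisms of closed connected manifolds. -/

set_option autoImplicit false
set_option linter.unusedSectionVars false

open scoped Manifold ContDiff Topology ENNReal
open Set Filter MeasureTheory Metric Module

namespace Pool.Agent.V7H6.AD

open Pool.Agent.H721R2 Pool.Agent.H779R2.An Pool.Agent.H789R2.AN

/-- traps of `f`: open sets `W`, neither empty nor everything, with `f (closure W) ⊆ W` -/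
def IsTrap {M : Type*} [TopologicalSpace M] (f : M → M) (W : Set M) : Prop :=
  IsOpen W ∧ W.Nonempty ∧ W ≠ univ ∧ ∀ y ∈ closure W, f y ∈ W

/-- the absolute value of the determinant of `D_p g` (to be used at points with `g p = p`) -/
noncomputable def absDet (E : Type*) [NormedAddCommGroup E] [NormedSpace ℝ E] {M : Type*}
    [TopologicalSpace M] [ChartedSpace E M] (g : M → M) (p : M) : ℝ :=
  |LinearMap.det (dg E g p).toLinearMap|

variable (E : Type*) [NormedAddCommGroup E] [NormedSpace ℝ E] [FiniteDimensional ℝ E]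
  (M : Type*) [TopologicalSpace M] [T2Space M] [CompactSpace M] [ConnectedSpace M]
  [ChartedSpace E M] [IsManifold 𝓘(ℝ, E) ∞ M] (f : Diffeomorph 𝓘(ℝ, E) 𝓘(ℝ, E) M M 1)
  (Es Eu : ∀ x : M, Submodule ℝ (TangentSpace 𝓘(ℝ, E) x))

/-- part A -/
theorem partA (hA : IsAnosov f Es Eu) [MeasurableSpace M] [BorelSpace M] (α : ℝ) (ψ : M → ℝ)
    (ν : Measure M) [IsFiniteMeasure ν] (hα : 0 < α) (hα1 : α ≤ 1) (hψ : LocHolder E α ψ)
    (hpos : ∀ U : Set M, IsOpen U → U.Nonempty → ν U ≠ 0)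
    (hν : ∀ A : Set M, MeasurableSet A →
      ν (f '' A) = ∫⁻ x in A, ENNReal.ofReal (Real.exp (ψ x)) ∂ν) :
    (∀ W : Set M, IsTrap f W →
      (∃ p ∈ W, ∃ n : ℕ, 1 ≤ n ∧ f^[n] p = p ∧ ∑ i ∈ Finset.range n, ψ (f^[i] p) < 0) ∧
      ∃ q, q ∉ closure W ∧ ∃ n : ℕ, 1 ≤ n ∧ f^[n] q = q ∧ 0 < ∑ i ∈ Finset.range n, ψ (f^[i] q)) ∧
    (((∀ p : M, ∀ n : ℕ, 1 ≤ n → f^[n] p = p → 0 ≤ ∑ i ∈ Finset.range n, ψ (f^[i] p)) ∨
      (∀ p : M, ∀ n : ℕ, 1 ≤ n → f^[n] p = p → ∑ i ∈ Finset.range n, ψ (f^[i] p) ≤ 0)) →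
      TopTransitive f ∧ ∃ u : M → ℝ, Continuous u ∧ ∀ x, ψ x = u (f x) - u x) := by
  obtain ⟨m, e, he, hemb, hinj⟩ := exists_embedding_euclidean_of_compact (I := 𝓘(ℝ, E)) (M := M)
  let _ : MetricSpace M := hemb.isEmbedding.comapMetricSpace e
  have hiso : ∀ x y : M, dist x y = ‖e x - e y‖ := fun x y => dist_eq_norm (e x) (e y)
  have he1 : ContMDiff 𝓘(ℝ, E) (𝓡 m) 1 e := he.of_le (by simp)
  have hH : Hol ψ := hol_of_charts hiso he1 hinj hα hα1 hψ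
  obtain ⟨h1, h2⟩ := full_main hiso he1 hinj f Es Eu hA ψ hH ν hpos hν
  exact ⟨fun W hW => h1 W hW.1 hW.2.1 hW.2.2.1 hW.2.2.2, h2⟩

/-- part B -/
theorem partB (hA : IsAnosov f Es Eu)
    (hreg : ContMDiff 𝓘(ℝ, E) 𝓘(ℝ, E) 2 f ∨ ∃ α : ℝ, 0 < α ∧ α ≤ 1 ∧ DerivHolder E α f) :
    (∀ W : Set M, IsTrap f W →
      (∃ p ∈ W, ∃ n : ℕ, 1 ≤ n ∧ f^[n] p = p ∧ absDet E (f^[n]) p < 1) ∧
      ∃ q, q ∉ closure W ∧ ∃ n : ℕ, 1 ≤ n ∧ f^[n] q = q ∧ 1 < absDet E (f^[n]) q) ∧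
    (¬ TopTransitive f →
      (∃ p : M, ∃ n : ℕ, 1 ≤ n ∧ f^[n] p = p ∧ absDet E (f^[n]) p < 1) ∧
      ∃ q : M, ∃ n : ℕ, 1 ≤ n ∧ f^[n] q = q ∧ 1 < absDet E (f^[n]) q) ∧
    ∀ [MeasurableSpace E] [BorelSpace E] [MeasurableSpace M] [BorelSpace M] (μ : Measure E)
      [μ.IsAddHaarMeasure], List.TFAE [
        ∃ m : Measure M, IsFiniteMeasure m ∧ HasDensity E μ m ∧ m.map f = m,
        ∀ p : M, ∀ n : ℕ, 1 ≤ n → f^[n] p = p → absDet E (f^[n]) p = 1,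
        ∀ p : M, ∀ n : ℕ, 1 ≤ n → f^[n] p = p → 1 ≤ absDet E (f^[n]) p,
        ∀ p : M, ∀ n : ℕ, 1 ≤ n → f^[n] p = p → absDet E (f^[n]) p ≤ 1] := by
  obtain ⟨α, hα, hα1, hD⟩ : ∃ α : ℝ, 0 < α ∧ α ≤ 1 ∧ DerivHolder E α f := by
    rcases hreg with h | h
    · exact ⟨1, one_pos, le_rfl, derivHolder_of_C2 f h⟩
    · exact h
  obtain ⟨k, e, he, hemb, hinj⟩ := exists_embedding_euclidean_of_compact (I := 𝓘(ℝ, E)) (M := M)
  let _ : MetricSpace M := hemb.isEmbedding.comapMetricSpace e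
  have hiso : ∀ x y : M, dist x y = ‖e x - e y‖ := fun x y => dist_eq_norm (e x) (e y)
  have he1 : ContMDiff 𝓘(ℝ, E) (𝓡 k) 1 e := he.of_le (by simp)
  have he2 : ContMDiff 𝓘(ℝ, E) (𝓡 k) 2 e := he.of_le (by
    exact_mod_cast (ENat.LEInfty.out : (2 : WithTop ℕ∞) ≤ ((⊤ : ℕ∞) : WithTop ℕ∞)))
  -- the basic facts, for all measurable structures
  have base : ∀ [MeasurableSpace E] [BorelSpace E] [MeasurableSpace M] [BorelSpace M] (μ : Measure E)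
      [μ.IsAddHaarMeasure], (∀ W : Set M, IsTrap f W →
      (∃ p ∈ W, ∃ n : ℕ, 1 ≤ n ∧ f^[n] p = p ∧ absDet E (f^[n]) p < 1) ∧
      ∃ q, q ∉ closure W ∧ ∃ n : ℕ, 1 ≤ n ∧ f^[n] q = q ∧ 1 < absDet E (f^[n]) q) ∧
      (((∀ p : M, ∀ n : ℕ, 1 ≤ n → f^[n] p = p → 1 ≤ absDet E (f^[n]) p) ∨
        (∀ p : M, ∀ n : ℕ, 1 ≤ n → f^[n] p = p → absDet E (f^[n]) p ≤ 1)) →
        TopTransitive f ∧
        ∃ m : Measure M, IsFiniteMeasure m ∧ HasDensity E μ m ∧ m.map f = m) := by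
    intro _ _ _ _ μ _
    obtain ⟨ν, hνf, hpos, hν⟩ := exists_vol μ e he1 hinj
    obtain ⟨hH, hQ, hper⟩ := vol_qi μ hiso he2 hinj f hα hα1 hD ν hν
    obtain ⟨h1, h2⟩ := full_main hiso he1 hinj f Es Eu hA _ hH ν hpos hQ
    have hper' : ∀ n p, f^[n] p = p → birkhoffSum f (fun x => Real.log (Jac E e f x)) n p =
        Real.log (absDet E (f^[n]) p) ∧ 0 < absDet E (f^[n]) p := hper
    refine ⟨fun W hW => ?_, fun h => ?_⟩
    · obtain ⟨⟨p, hp, n, hn, hpn, hlt⟩, q, hq, m, hm, hqm, hgt⟩ :=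
        h1 W hW.1 hW.2.1 hW.2.2.1 hW.2.2.2
      rw [(hper' n p hpn).1] at hlt
      rw [(hper' m q hqm).1] at hgt
      refine ⟨⟨p, hp, n, hn, hpn, ?_⟩, q, hq, m, hm, hqm, ?_⟩
      · exact (Real.log_neg_iff (hper' n p hpn).2).1 hlt
      · exact (Real.log_pos_iff (hper' m q hqm).2.le).1 hgt
    · obtain ⟨ht, u, hu, hu2⟩ := h2 (by
        rcases h with h | h
        · left
          intro p n hn hpn
          rw [(hper' n p hpn).1]
          exact Real.log_nonneg (h p n hn hpn)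
        · right
          intro p n hn hpn
          rw [(hper' n p hpn).1]
          exact Real.log_nonpos (hper' n p hpn).2.le (h p n hn hpn))
      exact ⟨ht, density_of_coboundary μ he1 hinj f.toHomeomorph ν hν _ hH.continuous hQ u hu hu2⟩
  have base' : (∀ W : Set M, IsTrap f W →
      (∃ p ∈ W, ∃ n : ℕ, 1 ≤ n ∧ f^[n] p = p ∧ absDet E (f^[n]) p < 1) ∧
      ∃ q, q ∉ closure W ∧ ∃ n : ℕ, 1 ≤ n ∧ f^[n] q = q ∧ 1 < absDet E (f^[n]) q) ∧
      (((∀ p : M, ∀ n : ℕ, 1 ≤ n → f^[n] p = p → 1 ≤ absDet E (f^[n]) p) ∨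
        (∀ p : M, ∀ n : ℕ, 1 ≤ n → f^[n] p = p → absDet E (f^[n]) p ≤ 1)) → TopTransitive f) := by
    let _ : MeasurableSpace E := borel E
    have _ : BorelSpace E := ⟨rfl⟩
    let _ : MeasurableSpace M := borel M
    have _ : BorelSpace M := ⟨rfl⟩
    obtain ⟨h1, h2⟩ := base (Measure.addHaar : Measure E)
    exact ⟨h1, fun h => (h2 h).1⟩
  refine ⟨base'.1, ?_, ?_⟩
  · intro hnt
    constructor
    · by_contra hcon
      push Not at hcon
      exact hnt (base'.2 (Or.inl hcon))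
    · by_contra hcon
      push Not at hcon
      exact hnt (base'.2 (Or.inr hcon))
  · intro _ _ _ _ μ _
    obtain ⟨-, h2⟩ := base μ
    tfae_have 1 → 2 := by
      rintro ⟨m, hm, hd, hinv⟩ p n hn hpn
      have hmp : MeasurePreserving f m m := ⟨f.continuous.measurable, hinv⟩
      exact det_of_density μ he1 hinj (iterHomeo f.toHomeomorph n)
        (iter_smooth f f.contMDiff n) m hd (hmp.iterate n).map_eq p hpn
    tfae_have 2 → 3 := fun h p n hn hpn => (h p n hn hpn).ge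
    tfae_have 2 → 4 := fun h p n hn hpn => (h p n hn hpn).le
    tfae_have 3 → 1 := fun h => (h2 (Or.inl h)).2
    tfae_have 4 → 1 := fun h => (h2 (Or.inr h)).2
    tfae_finish

end Pool.Agent.V7H6.AD
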